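import Pool.Agent.Work.MP_6b71e5_co.TabA
import Pool.Agent.Work.MP_6b71e5_co.TabB
import Mathlib.Tactic.IntervalCases

/-! Consequences of the finite certificates. -/

namespace Pool.Agent.Work.MP_6b71e5_co

open Finset

variable {α : Type*} [DecidableEq α]

lemma st_all (u : ℕ) (hu : u < 16) (a : ℕ) (ha : a < 32) : ∃ e, St1 u a e := by
  interval_cases u
  exacts [⟨_, st0 a ha⟩, ⟨_, st1 a ha⟩, ⟨_, st2 a ha⟩, ⟨_, st3 a ha⟩, ⟨_, st4 a ha⟩, ⟨_, st5 a ha⟩,
    ⟨_, st6 a ha⟩, ⟨_, st7 a ha⟩, ⟨_, st8 a ha⟩, ⟨_, st9 a ha⟩, ⟨_, st10 a ha⟩, ⟨_, st11 a ha⟩,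
    ⟨_, st12 a ha⟩, ⟨_, st13 a ha⟩, ⟨_, st14 a ha⟩, ⟨_, st15 a ha⟩]

def spk : Finset (Fin 8) := {0, 1, 2, 3}

def cw (j i : Fin 8) : ZMod 2 := if rW (insert i (spk.erase j)) = 4 then 1 else 0

lemma cw_spec : ∀ (i : Fin 8) (e : ZMod 2),
    vec5 (cw 0 i) (cw 1 i) (cw 2 i) (cw 3 i) e = wv i + 16 * e.val := by decide +kernel

lemma rW_spk : rW spk = 4 ∧ rW univ = 4 ∧ spk.card = 4 := by decide +kernel

lemma vec_one : ∀ a < 16, (∀ i : Fin 8, vec (vnum 0 0 0 % 32 ^ 8 + a * 32 ^ 8) i = wv i) ∧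
    vec (vnum 0 0 0 % 32 ^ 8 + a * 32 ^ 8) 8 = a := by decide +kernel

lemma vec_vnum (u a b : ℕ) (ha : a < 32) (hb : b < 32) :
    vec (vnum u a b) 0 = 1 ∧ vec (vnum u a b) 1 = 2 ∧ vec (vnum u a b) 2 = 4 ∧
    vec (vnum u a b) 3 = 8 ∧ vec (vnum u a b) 4 = 3 + 16 * (u % 2) ∧
    vec (vnum u a b) 5 = 6 + 16 * (u / 2 % 2) ∧ vec (vnum u a b) 6 = 12 + 16 * (u / 4 % 2) ∧
    vec (vnum u a b) 7 = 9 + 16 * (u / 8 % 2) ∧ vec (vnum u a b) 8 = 16 ∧
    vec (vnum u a b) 9 = a ∧ vec (vnum u a b) 10 = b := by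
  simp only [vec, vnum, Nat.shiftRight_eq_div_pow]
  have h0 := Nat.mod_lt u two_pos
  have h1 := Nat.mod_lt (u / 2) two_pos
  have h2 := Nat.mod_lt (u / 4) two_pos
  have h3 := Nat.mod_lt (u / 8) two_pos
  generalize u % 2 = c0 at h0 ⊢
  generalize u / 2 % 2 = c1 at h1 ⊢
  generalize u / 4 % 2 = c2 at h2 ⊢
  generalize u / 8 % 2 = c3 at h3 ⊢
  refine ⟨?_, ?_, ?_, ?_, ?_, ?_, ?_, ?_, ?_, ?_, ?_⟩ <;> omega

lemma sum_comb (s : Fin 4 → ℕ) (m : ℕ) :
    ∑ k ∈ univ.filter (fun k : Fin 4 => m.testBit k = true), xn (s k) =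
      xn (comb (s 0) (s 1) (s 2) (s 3) m) := by
  rw [sum_filter, Fin.sum_univ_four]
  simp only [comb, ← xn_add]
  congr 1
  · congr 1
    · congr 1
      · show (if m.testBit 0 = true then _ else _) = _
        cases m.testBit 0 <;> rfl
      · show (if m.testBit 1 = true then _ else _) = _
        cases m.testBit 1 <;> rfl
    · show (if m.testBit 2 = true then _ else _) = _
      cases m.testBit 2 <;> rfl
  · show (if m.testBit 3 = true then _ else _) = _
    cases m.testBit 3 <;> rfl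

lemma exists_bit : ∀ m < 16, m ≠ 0 → ∃ k : Fin 4, Nat.testBit m k = true := by decide

namespace RM

variable {P : RM α}

lemma cert_ok {v : α → ℕ} {c n V z : ℕ} (h : P.Rep (fun e => xn (v e)) (xn c)) {lab : ℕ → α}
    (hinj : ∀ i < n, ∀ j < n, lab i = lab j → i = j) (hE : ∀ i : Fin 8, lab (idx z i) ∈ P.E)
    (hv : ∀ i < n, v (lab i) = vec V i) (hc : CertOK n V z c) :
    P.Emb rW ∅ (fun i => lab (idx z i)) := by
  obtain ⟨h1, h2, h3, h4⟩ := hc
  have e0 := hv _ (h1 0)
  have e1 := hv _ (h1 1)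
  have e2 := hv _ (h1 2)
  have e3 := hv _ (h1 3)
  refine h.emb (fun i j hij => h2 i j (hinj _ (h1 i) _ (h1 j) hij)) hE ?_ fun i => ?_
  · rw [e0, e1, e2, e3]; exact h3
  · rw [e0, e1, e2, e3, hv _ (h1 i)]; exact h4 i

lemma cert_c {v : α → ℕ} {n V z : ℕ} (h : P.Rep (fun e => xn (v e)) 0) {lab : ℕ → α}
    (hinj : ∀ i < n, ∀ j < n, lab i = lab j → i = j) (hE : ∀ i < n, lab i ∈ P.E)
    (hv : ∀ i < n, v (lab i) = vec V i) (hc : CertC n V z) :
    P.HasCD rW {lab (idx z 8)} {lab (idx z 9)} := by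
  obtain ⟨h1, h2, h3, h4, h5, h6⟩ := hc
  have k1 := h.con XN.add_self (hE _ h1) (by rw [hv _ h1]; exact h4)
  simp only [hv _ h1] at k1
  have k2 := (cert_ok k1 hinj (fun i => by
    have a1 := hE _ (h6.1 i)
    have a2 := hinj _ (h6.1 i) _ h1
    have a3 := (h5 i).1
    grind [con_E]) hv h6).of_con (by simpa using hE _ h1)
  refine ⟨_, _, k2, by simp, ?_⟩
  have a1 := hE _ h2
  have a2 := hinj _ h2 _ h1
  have a3 : lab (idx z 9) ∉ img (fun i : Fin 8 => lab (idx z i)) := fun h7 => by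
    obtain ⟨i, hi⟩ := mem_img.1 h7
    exact (h5 i).2 (hinj _ (h6.1 i) _ h2 hi)
  grind

lemma Emb.co_eq {C : Finset α} {φ : Fin 8 → α} (h : P.Emb rW C φ) (hr : P.r P.E = P.r C + 4)
    (i j : Fin 8) : P.co (spk.image φ ∪ C) (φ j) (φ i) = cw j i := by
  have h1 : insert (φ i) ((spk.image φ ∪ C).erase (φ j)) = (insert i (spk.erase j)).image φ ∪ C := by
    rw [image_insert, image_erase h.inj, erase_union_distrib, erase_eq_of_notMem (h.nmem j),
      insert_union]
  unfold co cw
  rw [h1, h.rk, hr]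
  simp

lemma Emb.basis {C : Finset α} {φ : Fin 8 → α} (h : P.Emb rW C φ) (hC : P.Ind C)
    (hr : P.r P.E = P.r C + 4) : P.Basis (spk.image φ ∪ C) := by
  have h1 := h.rk spk
  have h2 := rW_spk
  have h3 := image_sub_img φ spk
  refine ⟨union_subset (h3.trans h.img_sub) h.sub, ?_, by omega⟩
  unfold Ind at *
  rw [card_union_of_disjoint (disjoint_left.2 fun x hx hx' => h.not_img hx' (h3 hx)),
    card_image_of_injective _ h.inj]
  omega

lemma Rep.par {v : α → XN} (h : P.Rep v 0) {x d : α} (hx : x ∈ P.E) (hd : d ∈ P.E) (hxd : x ≠ d)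
    (hI : P.Ind {x}) (hv : v d = 0 ∨ v d = v x) : P.sp {x} d := by
  by_contra hc
  have h1 := (h _ (by grind)).1 (hI.insert hc)
  rcases hv with hv | hv
  · exact (h1 {d} (by simp) (by simp)).1 (by simpa using hv)
  · refine (h1 {d, x} Subset.rfl (by simp)).1 ?_
    rw [sum_pair hxd.symm, hv, XN.add_self]

/-- a one element extension of the wheel -/
lemma one_step (hF : P.Free) {φ : Fin 8 → α} (h : P.Emb rW ∅ φ) {d : α} (hd : d ∈ P.E)
    (hdi : d ∉ img φ) (hE : P.E ⊆ insert d (img φ)) (hs : P.sp (img φ) d) :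
    ∃ K ⊆ img φ, K.card ≤ 3 ∧ P.sp K d ∧ ∀ x ∈ K, P.HasCD rW ∅ {x} := by
  have r0 := P.r_empty
  have hr : P.r P.E = P.r ∅ + 4 := by
    have e1 := h.rk_univ
    have e2 := rW_spk
    have e3 := P.mono hE
    have e4 := P.mono h.img_sub
    unfold sp at hs
    rw [union_empty] at e1
    omega
  have hB := h.basis ind_empty hr
  set X := spk.image φ ∪ ∅ with hX
  set v : α → ℕ := fun e => vec5 (P.co X (φ 0) e) (P.co X (φ 1) e) (P.co X (φ 2) e)
    (P.co X (φ 3) e) 0 with hv
  have hR : P.Rep (fun e => xn (v e)) 0 := fun S hS => by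
    rw [ind_iff_cyc hF hB hS]
    refine forall₃_congr fun T _ _ => ?_
    rw [and_self, hv, ne_eq, sum_vec5 T _ _ _ _ (fun _ => 0)]
    simp [cyc, hX, spk]
  have v1 : ∀ i, v (φ i) = wv i := fun i => by
    simp only [hv, hX, h.co_eq hr, cw_spec]
    simp
  have v2 : v d < 16 := by
    have : ∀ a b c e : ZMod 2, vec5 a b c e 0 < 16 := by decide
    exact this _ _ _ _
  obtain ⟨k1, k2, k3, k4⟩ := one_ext _ v2
  obtain ⟨w1, w2⟩ := vec_one _ v2
  generalize tabK.getD (v d) ∅ = K at k1 k2 k3 k4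
  have hK := image_sub_img φ K
  refine ⟨K.image φ, hK, le_trans card_image_le k1, ?_, fun x hx => ?_⟩
  · by_contra hc
    have e1 : P.Ind (K.image φ) := by
      have := h.rk K
      unfold Ind
      rw [union_empty] at this
      rw [card_image_of_injective _ h.inj]
      omega
    refine ((hR _ (insert_subset hd (hK.trans h.img_sub))).1 (e1.insert hc) _ Subset.rfl
      (by simp)).1 ?_
    rw [sum_insert (fun h1 => hdi (hK h1)), sum_image fun _ _ _ _ e => h.inj e]
    simp only [v1, k3, XN.add_self]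
  · obtain ⟨i, hi, rfl⟩ := mem_image.1 hx
    obtain ⟨c1, c2⟩ := k4 i hi
    set lab : ℕ → α := fun k => if hk : k < 8 then φ ⟨k, hk⟩ else d with hlab
    have hinj : ∀ a < 9, ∀ b < 9, lab a = lab b → a = b := by
      intro a ha b hb hab
      simp only [hlab] at hab
      split_ifs at hab with h1 h2 h2
      · simpa using h.inj hab
      · exact absurd (hab ▸ self_mem_img φ _) hdi
      · exact absurd (hab ▸ self_mem_img φ _) hdi
      · omega
    have e := cert_ok (c := 0) hR hinj (fun k => by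
        simp only [hlab]
        split_ifs
        · exact h.mem _
        · exact hd) (fun k hk => by
        simp only [hlab]
        split_ifs with h1
        · rw [v1, ← w1]
        · rw [show k = 8 by omega, w2]) c1
    refine e.hasD (h.mem i) (by simp) fun h1 => ?_
    obtain ⟨k, hk⟩ := mem_img.1 h1
    refine c2 k (hinj _ (c1.1 k) _ (by omega) ?_)
    rw [hk]
    simp [hlab]

/-- contractible elements avoid `Z` and deletable elements lie in `Z` -/
def NR (P : RM α) (Z : Finset α) : Prop :=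
  (∀ x, P.HasCD rW {x} ∅ → x ∉ Z) ∧ ∀ x, P.HasCD rW ∅ {x} → x ∈ Z

lemma base_case (hF : P.Free) {φ : Fin 8 → α} {c g d : α} (h : P.Emb rW {c} φ) (hg : g ∈ P.E)
    (hd : d ∈ P.E) (gi : g ∉ img φ) (di : d ∉ img φ) (gc : g ≠ c) (dc : d ≠ c) (gd : g ≠ d)
    (hE : P.E ⊆ insert c (insert g (insert d (img φ)))) {X : Finset α} (hX : P.Basis X)
    (hdX : d ∉ X) (hN : P.NR (insert d X)) : ∃ x ∈ X, P.sp {x} d := by
  have hc : c ∈ P.E := h.sub (mem_singleton_self _)
  have ci : c ∉ img φ := h.not_img (mem_singleton_self _)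
  have cZ := hN.1 c (h.hasC (mem_singleton_self _))
  have gZ := hN.2 g (h.hasD hg (by simpa using gc) gi)
  have gX : g ∈ X := by grind
  have iC : P.Ind {c} := ind_empty.insert fun h1 =>
    cZ (hN.2 c ((h.erase_loop (e := c) (by simpa using h1)).hasD hc (by simp) ci))
  have hr : P.r P.E = P.r {c} + 4 := by
    have s1 : P.sp ({c} ∪ img φ) g := by
      by_contra h1
      exact hN.1 g ((h.add_free hg h1).hasC (by simp)) gZ
    have s2 : P.sp ({c} ∪ img φ) d := by
      by_contra h1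
      exact hN.1 d ((h.add_free hd h1).hasC (by simp)) (by simp)
    have e1 := h.rk_univ
    have e2 := rW_spk
    have e3 : P.r P.E ≤ P.r ({c} ∪ img φ) := r_le_of_sp fun x hx => by
      by_cases h1 : x = g
      · exact h1 ▸ s1
      by_cases h2 : x = d
      · exact h2 ▸ s2
      exact sp_of_mem (by grind)
    have e4 := P.mono (S := img φ ∪ {c}) (T := P.E) (union_subset h.img_sub h.sub)
    rw [union_comm] at e3
    omega
  have hB := h.basis iC hr
  set Y := spk.image φ ∪ {c} with hY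
  set v : α → ℕ := fun e => vec5 (P.co Y (φ 0) e) (P.co Y (φ 1) e) (P.co Y (φ 2) e)
    (P.co Y (φ 3) e) (P.co Y c e) with hv
  have hR : P.Rep (fun e => xn (v e)) 0 := fun S hS => by
    rw [ind_iff_cyc hF hB hS]
    refine forall₃_congr fun T _ _ => ?_
    rw [and_self, hv, ne_eq, sum_vec5 T]
    simp [cyc, hY, spk]
  have v1 : ∀ i, v (φ i) = wv i + 16 * (P.co Y c (φ i)).val := fun i => by
    simp only [hv, hY, h.co_eq hr, cw_spec]
  have cY : c ∈ Y := by simp [hY]
  have sY : ∀ i ∈ spk, φ i ∈ Y := fun i hi => mem_union_left _ (mem_image_of_mem _ hi)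
  have nc : ∀ i, φ i ≠ c := fun i h1 => ci (h1 ▸ self_mem_img φ i)
  have v2 : ∀ i ∈ spk, v (φ i) = wv i := fun i hi => by
    rw [v1, hB.co_self cY (sY i hi), if_neg (nc i)]; simp
  have v3 : v c = 16 := by
    simp only [hv]
    rw [hB.co_self (sY 0 (by decide)) cY, hB.co_self (sY 1 (by decide)) cY,
      hB.co_self (sY 2 (by decide)) cY, hB.co_self (sY 3 (by decide)) cY, hB.co_self cY cY,
      if_neg (nc 0).symm, if_neg (nc 1).symm, if_neg (nc 2).symm, if_neg (nc 3).symm, if_pos rfl]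
    decide
  have va : v g < 32 := vec5_lt _ _ _ _ _
  have vb : v d < 32 := vec5_lt _ _ _ _ _
  clear_value v
  have u4 := ZMod.val_lt (P.co Y c (φ 4))
  have u5 := ZMod.val_lt (P.co Y c (φ 5))
  have u6 := ZMod.val_lt (P.co Y c (φ 6))
  have u7 := ZMod.val_lt (P.co Y c (φ 7))
  obtain ⟨u, hu, w4, w5, w6, w7⟩ : ∃ u < 16, v (φ 4) = 3 + 16 * (u % 2) ∧
      v (φ 5) = 6 + 16 * (u / 2 % 2) ∧ v (φ 6) = 12 + 16 * (u / 4 % 2) ∧
      v (φ 7) = 9 + 16 * (u / 8 % 2) := by
    refine ⟨(P.co Y c (φ 4)).val + 2 * (P.co Y c (φ 5)).val + 4 * (P.co Y c (φ 6)).val +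
      8 * (P.co Y c (φ 7)).val, by omega, ?_, ?_, ?_, ?_⟩ <;> rw [v1]
    · show 3 + _ = _; omega
    · show 6 + _ = _; omega
    · show 12 + _ = _; omega
    · show 9 + _ = _; omega
  have w0 : v (φ 0) = 1 := v2 0 (by decide)
  have w1 : v (φ 1) = 2 := v2 1 (by decide)
  have w2 : v (φ 2) = 4 := v2 2 (by decide)
  have w3 : v (φ 3) = 8 := v2 3 (by decide)
  clear v1 v2 u4 u5 u6 u7 sY cY hB
  clear_value Y
  obtain ⟨lab, l1, l8, l9, l10⟩ : ∃ lab : ℕ → α, (∀ i : Fin 8, lab i = φ i) ∧ lab 8 = c ∧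
      lab 9 = g ∧ lab 10 = d :=
    ⟨fun k => if hk : k < 8 then φ ⟨k, hk⟩ else if k = 8 then c else if k = 9 then g else d,
      fun i => by simp, rfl, rfl, rfl⟩
  have cases : ∀ k : ℕ, k < 11 → (∃ i : Fin 8, k = i.val) ∨ k = 8 ∨ k = 9 ∨ k = 10 := fun k hk => by
    by_cases h8 : k < 8
    · exact Or.inl ⟨⟨k, h8⟩, rfl⟩
    · omega
  have ng : ∀ i, φ i ≠ g := fun i h1 => gi (h1 ▸ self_mem_img φ i)
  have nd : ∀ i, φ i ≠ d := fun i h1 => di (h1 ▸ self_mem_img φ i)
  have hinj : ∀ a < 11, ∀ b < 11, lab a = lab b → a = b := by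
    intro a ha b hb hab
    have := h.inj
    rcases cases a ha with ⟨i, rfl⟩ | rfl | rfl | rfl <;>
      rcases cases b hb with ⟨j, rfl⟩ | rfl | rfl | rfl <;>
      simp only [l1, l8, l9, l10] at hab <;>
      first
      | rfl
      | exact absurd hab (by assumption)
      | exact absurd hab.symm (by assumption)
      | exact absurd hab (nc _)
      | exact absurd hab (ng _)
      | exact absurd hab (nd _)
      | exact absurd hab.symm (nc _)
      | exact absurd hab.symm (ng _)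
      | exact absurd hab.symm (nd _)
      | rw [this hab]
  have hlE : ∀ k < 11, lab k ∈ P.E := fun k hk => by
    rcases cases k hk with ⟨i, rfl⟩ | rfl | rfl | rfl
    · rw [l1]; exact h.mem i
    · rwa [l8]
    · rwa [l9]
    · rwa [l10]
  have hv : ∀ b < 32, ∀ k < 10, v (lab k) = vec (vnum u (v g) b) k := fun b hb k hk => by
    obtain ⟨y0, y1, y2, y3, y4, y5, y6, y7, y8, y9, -⟩ := vec_vnum u (v g) b va hb
    have z0 := l1 0
    have z1 := l1 1
    have z2 := l1 2
    have z3 := l1 3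
    have z4 := l1 4
    have z5 := l1 5
    have z6 := l1 6
    have z7 := l1 7
    interval_cases k
    · exact (congrArg v z0).trans (w0.trans y0.symm)
    · exact (congrArg v z1).trans (w1.trans y1.symm)
    · exact (congrArg v z2).trans (w2.trans y2.symm)
    · exact (congrArg v z3).trans (w3.trans y3.symm)
    · exact (congrArg v z4).trans (w4.trans y4.symm)
    · exact (congrArg v z5).trans (w5.trans y5.symm)
    · exact (congrArg v z6).trans (w6.trans y6.symm)
    · exact (congrArg v z7).trans (w7.trans y7.symm)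
    · rw [l8, v3, y8]
    · rw [l9, y9]
  have hv' : ∀ k < 11, v (lab k) = vec (vnum u (v g) (v d)) k := fun k hk => by
    rcases Nat.lt_or_ge k 10 with h1 | h1
    · exact hv _ vb k h1
    · rw [show k = 10 by omega, l10, (vec_vnum u (v g) (v d) va vb).2.2.2.2.2.2.2.2.2.2]
  have hS : (univ.filter fun i => φ i ∈ X).card = 4 := by
    have e1 : X = insert g ((univ.filter fun i => φ i ∈ X).image φ) := by
      ext x
      constructor
      · intro hx
        have := hE (hX.sub hx)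
        by_cases h1 : x ∈ img φ
        · obtain ⟨i, rfl⟩ := mem_img.1 h1
          exact mem_insert_of_mem (mem_image_of_mem _ (by simpa using hx))
        · grind
      · grind
    have e2 := hX.ind
    have e3 := hX.sp
    have e4 : X.card = (univ.filter fun i => φ i ∈ X).card + 1 := by
      conv_lhs => rw [e1, card_insert_of_notMem (fun h1 => gi (image_sub_img φ _ h1)),
        card_image_of_injective _ h.inj]
    unfold Ind at e2 iC
    simp only [card_singleton] at iC
    omega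
  obtain ⟨q, q0, q1, q2, q3, q4, q5, q6⟩ := quads_spec _ hS
  have bit : ∀ k < 11, (q >>> 16).testBit k = true ↔ lab k ∈ insert d X := fun k hk => by
    rcases cases k hk with ⟨i, rfl⟩ | rfl | rfl | rfl
    · rw [q1, l1]
      have := nd i
      simp [this]
    · rw [q2, l8]; simpa using cZ
    · rw [q3, l9]; simpa using gZ
    · rw [q4, l10]; simp
  have qX : ∀ k : Fin 4, lab (idx q k) ∈ X := fun k => by
    have e1 := (bit _ (by have := (q5 k).1; omega)).1 (q5 k).2
    have e2 := hinj (idx q k) (by have := (q5 k).1; omega) 10 (by omega)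
    have := (q5 k).1
    grind
  have cmp : ∀ n ≤ 11, ∀ V z, (∀ k < n, v (lab k) = vec V k) → CertC n V z →
      (q >>> 16).testBit (idx z 8) = false ∧ (q >>> 16).testBit (idx z 9) = true := by
    intro n hn V z h1 h2
    have e := cert_c hR (fun i hi j hj => hinj i (by omega) j (by omega))
      (fun i hi => hlE i (by omega)) h1 h2
    have e1 := hN.1 _ (e.mono Subset.rfl (empty_subset _))
    have e2 := hN.2 _ (e.mono (empty_subset _) Subset.rfl)
    rw [← bit _ (by have := h2.1; omega)] at e1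
    rw [← bit _ (by have := h2.2.1; omega)] at e2
    exact ⟨by simpa using e1, e2⟩
  obtain ⟨e, s1, s2⟩ := st_all u hu _ va
  have iX := (hR _ hX.sub).1 hX.ind
  have i1 : ∀ x ∈ X, P.Ind {x} := fun x hx => hX.ind.subset (by simpa using hx)
  have vq : ∀ k : Fin 4, vec (vnum u (v g) 0) (idx q k) = v (lab (idx q k)) := fun k =>
    (hv 0 (by omega) _ (by have := (q5 k).1; omega)).symm
  have s3 := s2 q q0 (fun z hz => cmp 10 (by omega) _ z (hv 0 (by omega)) (s1 z hz))
    (fun h1 => (iX {g} (by simpa using gX) (by simp)).1 (by simp [h1, xn_zero])) (by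
      intro m hm hm0
      obtain ⟨k0, hk0⟩ := exists_bit m hm hm0
      have e0 := sum_comb (fun k => vec (vnum u (v g) 0) (idx q k)) m
      have e1 : ∑ x ∈ (univ.filter fun k : Fin 4 => m.testBit k = true).image
          (fun k : Fin 4 => lab (idx q k)), xn (v x) = xn (comb (vec (vnum u (v g) 0) (idx q 0))
            (vec (vnum u (v g) 0) (idx q 1)) (vec (vnum u (v g) 0) (idx q 2))
            (vec (vnum u (v g) 0) (idx q 3)) m) := by
        rw [sum_image fun k _ l _ hkl => q6 k l (hinj _ (by have := (q5 k).1; omega) _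
          (by have := (q5 l).1; omega) hkl)]
        simp only [← vq]
        exact e0
      have e2 : (univ.filter fun k : Fin 4 => m.testBit k = true).image
          (fun k : Fin 4 => lab (idx q k)) ⊆ X := by
        intro x hx
        obtain ⟨k, -, rfl⟩ := mem_image.1 hx
        exact qX k
      constructor
      · intro h1
        refine (iX _ e2 ⟨_, mem_image_of_mem _ (show k0 ∈ _ by simpa using hk0)⟩).1 ?_
        rw [e1]
        exact congrArg xn h1
      · intro h1
        refine (iX _ (insert_subset gX e2) (by simp)).1 ?_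
        rw [sum_insert, e1]
        · exact (congrArg (xn (v g) + xn ·) h1).trans (XN.add_self _)
        · intro h2
          obtain ⟨k, -, hk⟩ := mem_image.1 h2
          have := hinj _ (by have := (q5 k).1; omega) 9 (by omega) (hk.trans l9.symm)
          have := (q5 k).1
          omega) (v d) vb
  rcases s3 with s3 | s3 | ⟨k, s3⟩ | ⟨s3, s4⟩
  · exact ⟨g, gX, hR.par hg hd gd (i1 g gX) (Or.inl (by simp [s3, xn_zero]))⟩
  · exact ⟨g, gX, hR.par hg hd gd (i1 g gX) (Or.inr (by simp [s3]))⟩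
  · exact ⟨_, qX k, hR.par (hX.sub (qX k)) hd (fun h1 => hdX (h1 ▸ qX k)) (i1 _ (qX k))
      (Or.inr (by simp [← s3, vq]))⟩
  · obtain ⟨t1, t2⟩ := cmp 11 le_rfl _ _ hv' s3
    rw [t1, t2] at s4
    simp at s4

end RM

end Pool.Agent.Work.MP_6b71e5_co
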