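import Mathlib.Data.Finset.Card
import Mathlib.Data.Finset.Max
import Mathlib.Data.Finset.Powerset
import Mathlib.Data.Fintype.Card
import Mathlib.Data.Fintype.Fin
import Mathlib.Tactic.Linarith
import Mathlib.Tactic.Ring
import Mathlib.Tactic.Push

/-! Integer valued rank functions of finite matroids: closure, bases, minors, duality. -/

namespace Pool.Agent.Work.MP_6b71e5_co

open Finset

/-- A ground set together with a matroid rank function on the finite subsets of the ambient type. -/
structure RM (α : Type*) [DecidableEq α] where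
  E : Finset α
  r : Finset α → ℤ
  r_empty : r ∅ = 0
  r_mono : ∀ S T, S ⊆ T → r S ≤ r T
  r_ins : ∀ S e, r (insert e S) ≤ r S + 1
  r_sub : ∀ S T, r (S ∪ T) + r (S ∩ T) ≤ r S + r T

namespace RM

variable {α : Type*} [DecidableEq α] (M : RM α)

lemma mono {S T : Finset α} (h : S ⊆ T) : M.r S ≤ M.r T := M.r_mono S T h

lemma sub (A B C D : Finset α) (hC : C ⊆ A ∪ B) (hD : D ⊆ A ∩ B) :
    M.r C + M.r D ≤ M.r A + M.r B := by
  have := M.r_sub A B
  have := M.mono hC
  have := M.mono hD
  omega

lemma nonneg (S : Finset α) : 0 ≤ M.r S := by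
  have := M.mono (empty_subset S)
  have := M.r_empty
  omega

lemma sub0 (A B C : Finset α) (hC : C ⊆ A ∪ B) : M.r C ≤ M.r A + M.r B := by
  have := M.sub A B C ∅ hC (empty_subset _)
  have := M.r_empty
  omega

lemma le_card (S : Finset α) : M.r S ≤ S.card := by
  induction S using Finset.induction_on with
  | empty => simp [M.r_empty]
  | insert a s ha ih =>
    have := M.r_ins s a
    rw [card_insert_of_notMem ha]
    push_cast
    omega

lemma union_le (S T : Finset α) : M.r (S ∪ T) ≤ M.r S + T.card := by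
  have := M.sub0 S T (S ∪ T) Subset.rfl
  have := M.le_card T
  omega

lemma single_le (e : α) : M.r {e} ≤ 1 := by
  simpa using M.le_card {e}

lemma pair_le (e f : α) : M.r {e, f} ≤ 2 := by
  have := M.r_ins {f} e
  have := M.single_le f
  omega

lemma ins_ge (S : Finset α) (e : α) : M.r S ≤ M.r (insert e S) := M.mono (subset_insert _ _)

lemma ins_le {S T : Finset α} (e : α) (h : T ⊆ insert e S) : M.r T ≤ M.r S + 1 := by
  have := M.r_ins S e
  have := M.mono h
  omega

/-- `e` lies in the closure of `S`. -/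
def sp (S : Finset α) (e : α) : Prop := M.r (insert e S) = M.r S

variable {M}

lemma sp_of_mem {S : Finset α} {e : α} (h : e ∈ S) : M.sp S e := by
  unfold sp; rw [insert_eq_of_mem h]

lemma not_sp {S : Finset α} {e : α} (h : ¬ M.sp S e) : M.r (insert e S) = M.r S + 1 := by
  unfold sp at h
  have := M.r_ins S e
  have := M.ins_ge S e
  omega

lemma sp_of_le {S : Finset α} {e : α} (h : M.r (insert e S) ≤ M.r S) : M.sp S e := by
  unfold sp
  have := M.ins_ge S e
  omega

lemma sp.mono {S T : Finset α} {e : α} (h : M.sp S e) (hST : S ⊆ T) : M.sp T e := by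
  unfold sp at *
  have := M.sub (insert e S) T (insert e T) S (by grind) (by grind)
  have := M.ins_ge T e
  omega

lemma r_union_of_sp {S T : Finset α} (h : ∀ e ∈ T, M.sp S e) : M.r (S ∪ T) = M.r S := by
  induction T using Finset.induction_on with
  | empty => simp
  | insert a t _ ih =>
    have h1 := ih (fun e he => h e (mem_insert_of_mem he))
    have h2 : M.sp (S ∪ t) a := (h a (mem_insert_self _ _)).mono subset_union_left
    unfold sp at h2
    rw [union_insert, h2, h1]

lemma r_le_of_sp {S T : Finset α} (h : ∀ e ∈ T, M.sp S e) : M.r T ≤ M.r S := by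
  have := r_union_of_sp h
  have := M.mono (subset_union_right (s₁ := S) (s₂ := T))
  omega

lemma sp.trans {S T : Finset α} {e : α} (h : M.sp T e) (hT : ∀ x ∈ T, M.sp S x) : M.sp S e := by
  have h1 := r_union_of_sp hT
  have h2 : M.sp (S ∪ T) e := h.mono subset_union_right
  unfold sp at h2
  have := M.mono (S := insert e S) (T := insert e (S ∪ T)) (by grind)
  exact sp_of_le (by omega)

lemma sp_of_r_le {S T : Finset α} {e : α} (hST : S ⊆ T) (he : e ∈ T) (h : M.r T ≤ M.r S) :
    M.sp S e := by
  have := M.mono (S := insert e S) (T := T) (by grind)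
  exact sp_of_le (by omega)

lemma sp.exch {S : Finset α} {e f : α} (h : M.sp (insert f S) e) (h' : ¬ M.sp S e) :
    M.sp (insert e S) f := by
  have h1 := not_sp h'
  unfold sp at h
  have := M.r_ins S f
  rw [insert_comm] at h
  exact sp_of_le (by omega)

lemma exists_not_sp {S T : Finset α} (h : M.r S < M.r T) : ∃ e ∈ T, ¬ M.sp S e := by
  by_contra hc
  push Not at hc
  have := r_le_of_sp hc
  omega

/-- independent sets -/
def Ind (M : RM α) (S : Finset α) : Prop := M.r S = S.card

lemma Ind.subset {I J : Finset α} (h : M.Ind I) (hJ : J ⊆ I) : M.Ind J := by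
  unfold Ind at *
  have h1 := M.union_le J (I \ J)
  have h2 := M.le_card J
  have h3 : (I \ J).card + J.card = I.card := card_sdiff_add_card_eq_card hJ
  rw [union_sdiff_of_subset hJ] at h1
  omega

lemma Ind.not_sp {I S : Finset α} {e : α} (h : M.Ind I) (he : e ∈ I) (hS : S ⊆ I) (heS : e ∉ S) :
    ¬ M.sp S e := by
  intro hs
  have h1 : M.Ind (insert e S) := h.subset (by grind)
  have h2 : M.Ind S := h.subset hS
  unfold sp at hs
  unfold Ind at h1 h2
  rw [card_insert_of_notMem heS] at h1
  push_cast at h1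
  omega

lemma Ind.insert {I : Finset α} {e : α} (h : M.Ind I) (he : ¬ M.sp I e) : M.Ind (insert e I) := by
  have h1 := RM.not_sp he
  have h2 : e ∉ I := fun h3 => he (sp_of_mem h3)
  unfold Ind at *
  rw [card_insert_of_notMem h2]
  push_cast
  omega

lemma ind_empty : M.Ind ∅ := by simp [Ind, M.r_empty]

lemma sp.inter {A B : Finset α} {e : α} (hI : M.Ind (A ∪ B)) (hA : M.sp A e) (hB : M.sp B e) :
    M.sp (A ∩ B) e := by
  have h1 : M.Ind A := hI.subset subset_union_left
  have h2 : M.Ind B := hI.subset subset_union_right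
  have h3 : M.Ind (A ∩ B) := hI.subset (by grind)
  have h4 := card_union_add_card_inter A B
  have h5 := M.sub (insert e A) (insert e B) (A ∪ B) (insert e (A ∩ B)) (by grind) (by grind)
  unfold Ind sp at *
  exact sp_of_le (by omega)

lemma sp_sdiff {I J : Finset α} {e : α} (hI : M.Ind I) (h0 : M.sp I e)
    (h : ∀ x ∈ J, M.sp (I.erase x) e) : M.sp (I \ J) e := by
  induction J using Finset.induction_on with
  | empty => simpa using h0
  | insert a t _ ih =>
    have h1 := ih (fun x hx => h x (mem_insert_of_mem hx))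
    have h2 := h a (mem_insert_self _ _)
    have h3 := sp.inter (hI.subset (by grind)) h1 h2
    exact h3.mono (by grind)

lemma ind_of_forall {C : Finset α} (h : ∀ c ∈ C, ¬ M.sp (C.erase c) c) : M.Ind C := by
  suffices ∀ S : Finset α, S ⊆ C → M.Ind S from this C Subset.rfl
  intro S
  induction S using Finset.induction_on with
  | empty => intro _; exact ind_empty
  | insert a t ha ih =>
    intro hs
    refine (ih (by grind)).insert fun hc => h a (by grind) (hc.mono (by grind))

lemma exists_basis {I S : Finset α} (hI : M.Ind I) (hIS : I ⊆ S) :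
    ∃ B, I ⊆ B ∧ B ⊆ S ∧ M.Ind B ∧ M.r B = M.r S := by
  classical
  obtain ⟨B, hB, hmax⟩ := Finset.exists_max_image (S.powerset.filter (fun B => I ⊆ B ∧ M.Ind B))
    card ⟨I, by simp [hIS, hI]⟩
  simp only [mem_filter, mem_powerset] at hB hmax
  refine ⟨B, hB.2.1, hB.1, hB.2.2, ?_⟩
  have h1 := M.mono hB.1
  by_contra hne
  obtain ⟨e, he, hsp⟩ := exists_not_sp (M := M) (S := B) (T := S) (by omega)
  have h2 : e ∉ B := fun h3 => hsp (sp_of_mem h3)
  have := hmax (insert e B) ⟨by grind, by grind, hB.2.2.insert hsp⟩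
  rw [card_insert_of_notMem h2] at this
  omega

/-- two rank functions with the same independent sets agree -/
lemma r_eq_of_ind {β : Type*} [DecidableEq β] {N : RM β} (φ : β → α) (hφ : Function.Injective φ)
    (h : ∀ S : Finset β, M.Ind (S.image φ) ↔ N.Ind S) (S : Finset β) :
    M.r (S.image φ) = N.r S := by
  obtain ⟨B, -, hBS, hB, hr⟩ := exists_basis (M := N) (S := S) ind_empty (empty_subset _)
  have h1 := (h B).2 hB
  have h2 : M.r (S.image φ) ≤ M.r (B.image φ) := by
    apply r_le_of_sp
    intro e he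
    obtain ⟨s, hs, rfl⟩ := mem_image.1 he
    by_contra hc
    have h3 := h1.insert hc
    rw [← image_insert] at h3
    have h4 := (h _).1 h3
    have h5 : s ∉ B := fun h6 => hc (sp_of_mem (mem_image_of_mem _ h6))
    have h6 := N.mono (S := insert s B) (T := S) (by grind)
    unfold Ind at h4 hB
    rw [card_insert_of_notMem h5] at h4
    push_cast at h4
    omega
  have h3 := M.mono (image_subset_image (f := φ) hBS)
  unfold Ind at h1 hB
  rw [card_image_of_injective _ hφ] at h1
  omega

variable (M)

/-- restriction -/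
def res (F : Finset α) : RM α := { M with E := F }

/-- contraction -/
def con (C : Finset α) : RM α where
  E := M.E \ C
  r S := M.r (S ∪ C) - M.r C
  r_empty := by simp
  r_mono S T h := by
    have := M.mono (S := S ∪ C) (T := T ∪ C) (by grind)
    omega
  r_ins S e := by
    have := M.r_ins (S ∪ C) e
    rw [insert_union]
    omega
  r_sub S T := by
    have := M.sub (S ∪ C) (T ∪ C) (S ∪ T ∪ C) (S ∩ T ∪ C) (by grind) (by grind)
    omega

/-- dual -/
def dual : RM α where
  E := M.E
  r S := (S ∩ M.E).card + M.r (M.E \ S) - M.r M.E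
  r_empty := by simp
  r_mono S T h := by
    have h1 := M.union_le (M.E \ T) ((T ∩ M.E) \ (S ∩ M.E))
    have h2 := M.mono (S := M.E \ S) (T := M.E \ T ∪ (T ∩ M.E) \ (S ∩ M.E)) (by grind)
    have h3 : ((T ∩ M.E) \ (S ∩ M.E)).card + (S ∩ M.E).card = (T ∩ M.E).card :=
      card_sdiff_add_card_eq_card (by grind)
    omega
  r_ins S e := by
    have h1 := M.mono (S := M.E \ insert e S) (T := M.E \ S) (by grind)
    have h2 : (insert e S ∩ M.E).card ≤ (insert e (S ∩ M.E)).card := card_le_card (by grind)
    have h3 := card_insert_le e (S ∩ M.E)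
    omega
  r_sub S T := by
    have h1 := M.sub (M.E \ S) (M.E \ T) (M.E \ (S ∩ T)) (M.E \ (S ∪ T)) (by grind) (by grind)
    have h2 := card_union_add_card_inter (S ∩ M.E) (T ∩ M.E)
    have h3 : S ∩ M.E ∪ T ∩ M.E = (S ∪ T) ∩ M.E := by grind
    have h4 : S ∩ M.E ∩ (T ∩ M.E) = (S ∩ T) ∩ M.E := by grind
    rw [h3, h4] at h2
    omega

@[simp] lemma res_E (F : Finset α) : (M.res F).E = F := rfl
@[simp] lemma res_r (F : Finset α) : (M.res F).r = M.r := rfl
@[simp] lemma con_E (C : Finset α) : (M.con C).E = M.E \ C := rfl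
@[simp] lemma con_r (C S : Finset α) : (M.con C).r S = M.r (S ∪ C) - M.r C := rfl
@[simp] lemma dual_E : M.dual.E = M.E := rfl

lemma dual_r {S : Finset α} (h : S ⊆ M.E) :
    M.dual.r S = S.card + M.r (M.E \ S) - M.r M.E := by
  show ((S ∩ M.E).card : ℤ) + M.r (M.E \ S) - M.r M.E = _
  rw [inter_eq_left.2 h]

lemma dual_r_E : M.dual.r M.E = M.E.card - M.r M.E := by
  rw [M.dual_r Subset.rfl]; simp [M.r_empty]

lemma dual_r_compl {S : Finset α} (h : S ⊆ M.E) :
    M.dual.r (M.E \ S) = M.E.card - S.card + M.r S - M.r M.E := by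
  rw [M.dual_r sdiff_subset, Finset.sdiff_sdiff_eq_self h]
  have := card_sdiff_add_card_eq_card h
  omega

lemma con1_r (x : α) (S : Finset α) : (M.con {x}).r S = M.r (insert x S) - M.r {x} := by
  rw [con_r]; congr 2; grind

/-- same ground set, same ranks on it -/
def Eqv (M M' : RM α) : Prop := M.E = M'.E ∧ ∀ S ⊆ M.E, M.r S = M'.r S

lemma Eqv.symm {M M' : RM α} (h : M.Eqv M') : M'.Eqv M :=
  ⟨h.1.symm, fun S hS => (h.2 S (h.1 ▸ hS)).symm⟩

lemma dual_dual : M.dual.dual.Eqv M := by
  refine ⟨rfl, fun S hS => ?_⟩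
  have hS' : S ⊆ M.E := hS
  rw [M.dual.dual_r hS', dual_E, M.dual_r_compl hS', dual_r_E]
  omega

end RM

end Pool.Agent.Work.MP_6b71e5_co
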