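import Pool.Agent.Work.MP_6b71e5_co.Wheel
import Mathlib.Data.ZMod.Basic
import Mathlib.Data.Nat.Bitwise
import Mathlib.Algebra.BigOperators.Fin
import Mathlib.Tactic.Abel

/-! Matroids without a four point line minor are binary, and conversely. -/

namespace Pool.Agent.Work.MP_6b71e5_co

open Finset

variable {α : Type*} [DecidableEq α]

namespace RM

variable {M : RM α}

def Free (M : RM α) : Prop := ¬ M.HasCD rU ∅ ∅

structure Basis (M : RM α) (X : Finset α) : Prop where
  sub : X ⊆ M.E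
  ind : M.Ind X
  sp : M.r X = M.r M.E

lemma Basis.erase {X : Finset α} (h : M.Basis X) {x : α} (hx : x ∈ X) :
    M.r (X.erase x) + 1 = M.r M.E := by
  have h1 : M.Ind (X.erase x) := h.ind.subset (erase_subset _ _)
  have h2 := h.ind
  have h3 := h.sp
  have h4 := card_erase_add_one hx
  unfold Ind at *
  omega

lemma Basis.exch {X : Finset α} (h : M.Basis X) {x y : α} (hx : x ∈ X) (hy : y ∈ M.E)
    (hr : M.r (insert y (X.erase x)) = M.r M.E) : M.Basis (insert y (X.erase x)) := by
  have h1 := h.erase hx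
  refine ⟨insert_subset hy ((erase_subset _ _).trans h.sub),
    (h.ind.subset (erase_subset _ _)).insert ?_, hr⟩
  unfold RM.sp; omega

lemma Basis.adj {X : Finset α} (h : M.Basis X) {x y : α} (hx : x ∈ X) :
    M.r (insert y (X.erase x)) = M.r M.E ↔ ¬ M.sp (X.erase x) y := by
  have h1 := h.erase hx
  constructor
  · unfold RM.sp; omega
  · intro h2
    have := not_sp h2
    omega

lemma Basis.spans {X : Finset α} (h : M.Basis X) {y : α} (hy : y ∈ M.E) : M.sp X y :=
  sp_of_r_le h.sub hy h.sp.ge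

lemma exists_Basis {I : Finset α} (hI : M.Ind I) (h : I ⊆ M.E) : ∃ X, M.Basis X ∧ I ⊆ X := by
  obtain ⟨X, h1, h2, h3, h4⟩ := exists_basis hI h
  exact ⟨X, ⟨h2, h3, h4⟩, h1⟩

/-- coordinate of `e` at the basis element `x` -/
def co (M : RM α) (X : Finset α) (x e : α) : ZMod 2 :=
  if M.r (insert e (X.erase x)) = M.r M.E then 1 else 0

lemma pivot (hF : M.Free) {X : Finset α} (h : M.Basis X) {x y z e : α} (hx : x ∈ X) (hz : z ∈ X)
    (hzx : z ≠ x) (hy : y ∈ M.E) (hyX : y ∉ X) (hr : M.r (insert y (X.erase x)) = M.r M.E)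
    (he : e ∈ M.E) :
    M.co (insert y (X.erase x)) z e = M.co X z e + M.co X z y * M.co X x e := by
  have hX := h.sub
  set C := (X.erase x).erase z with hC
  have q1 : (insert y (X.erase x)).erase z = insert y C := by grind
  have q2 : X.erase z = insert x C := by grind
  have q3 : X.erase x = insert z C := by grind
  have q4 : X = insert x (insert z C) := by grind
  have hCE : C ⊆ M.E := by grind
  have r0 : M.r C + 2 = M.r M.E := by
    have e1 := h.erase hx
    have e2 := not_sp (h.ind.not_sp hz (S := C) (by grind) (by grind))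
    rw [← q3] at e2
    omega
  have r1 := h.sp
  unfold co
  rw [q1, q2, q3]
  rw [q3] at hr
  rw [q4] at r1
  clear_value C
  clear q1 q2 q3 q4
  have tr : ∀ a b c : α, M.r (insert a (insert c C)) + M.r (insert b C) ≤
      M.r (insert a (insert b C)) + M.r (insert c (insert b C)) := fun a b c =>
    M.sub _ _ _ _ (by grind) (by grind)
  have le : ∀ a b : α, M.r (insert a (insert b C)) ≤ M.r (insert b C) + 1 := fun a b => M.r_ins _ _
  have le1 : ∀ a : α, M.r (insert a C) ≤ M.r C + 1 := fun a => M.r_ins _ _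
  have cm : ∀ a b : α, M.r (insert a (insert b C)) = M.r (insert b (insert a C)) := fun a b => by
    rw [insert_comm]
  have u : ¬ (M.r (insert e (insert y C)) = M.r M.E ∧ M.r (insert e (insert x C)) = M.r M.E ∧
      M.r (insert y (insert x C)) = M.r M.E ∧ M.r (insert e (insert z C)) = M.r M.E) := by
    rintro ⟨a, b, c, d⟩
    have := M.mono (S := insert e (insert y (insert x (insert z C)))) (T := M.E)
      (by clear * - he hy hx hz hX hCE; grind)
    exact hF (emb_U4 hCE he hy (hX hx) (hX hz) (by omega) (by omega) (by omega) (by omega)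
      (by omega) (by omega) (by omega)).has
  have t1 := tr e x y
  have t2 := tr e y x
  have t3 := tr x e z
  have t4 := tr y e z
  have t5 := tr y e x
  have c1 := cm x y
  have c2 := cm x e
  have c3 := cm y e
  have c4 := cm z e
  have c5 := cm x z
  have c6 := cm y z
  have l1 := le z x
  have l2 := le z y
  have l3 := le x e
  have l4 := le y e
  have l5 := le z e
  have l6 := le y x
  have k1 := le1 x
  have k2 := le1 y
  have k3 := le1 e
  clear tr le le1 cm
  split_ifs <;> first | rfl | (exfalso; omega)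

def cyc (M : RM α) (X T : Finset α) : Prop := ∀ x ∈ X, ∑ e ∈ T, M.co X x e = 0

lemma cyc_pivot (hF : M.Free) {X T : Finset α} (h : M.Basis X) {x y : α} (hx : x ∈ X)
    (hy : y ∈ M.E) (hyX : y ∉ X) (hr : M.r (insert y (X.erase x)) = M.r M.E) (hT : T ⊆ M.E)
    (hc : M.cyc X T) : M.cyc (insert y (X.erase x)) T := by
  intro z hz
  rcases mem_insert.1 hz with rfl | hz
  · rw [← hc x hx]
    refine sum_congr rfl fun e _ => ?_
    unfold co
    rw [erase_insert (by grind)]
  · rw [sum_congr rfl fun e he => pivot hF h hx (mem_of_mem_erase hz) (ne_of_mem_erase hz) hy hyX hr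
      (hT he), sum_add_distrib, ← mul_sum, hc x hx, hc z (mem_of_mem_erase hz)]
    simp

lemma cyc_change (hF : M.Free) {T X' : Finset α} (hT : T ⊆ M.E) (h' : M.Basis X') (k : ℕ) :
    ∀ X, M.Basis X → (X' \ X).card = k → M.cyc X T → M.cyc X' T := by
  induction k with
  | zero =>
    intro X h hk hc
    have h1 : X' ⊆ X := sdiff_eq_empty_iff_subset.1 (card_eq_zero.1 hk)
    have h2 := h.ind
    have h3 := h'.ind
    have h4 := h.sp
    have h5 := h'.sp
    unfold Ind at h2 h3
    rwa [eq_of_subset_of_card_le h1 (by omega)]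
  | succ k ih =>
    intro X h hk hc
    obtain ⟨y, hy⟩ := card_pos.1 (show 0 < (X' \ X).card by omega)
    rw [mem_sdiff] at hy
    have hyE := h'.sub hy.1
    obtain ⟨x, hx, hx1⟩ : ∃ x ∈ X \ X', ¬ M.sp (X.erase x) y := by
      by_contra hcon
      push Not at hcon
      exact h'.ind.not_sp hy.1 (S := X \ (X \ X')) (by grind) (by grind)
        (sp_sdiff h.ind (h.spans hyE) hcon)
    rw [mem_sdiff] at hx
    have hr := (h.adj hx.1).2 hx1
    refine ih _ (h.exch hx.1 hyE hr) ?_ (cyc_pivot hF h hx.1 hyE hy.2 hr hT hc)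
    have : X' \ insert y (X.erase x) = (X' \ X).erase y := by grind
    rw [this, card_erase_of_mem (by grind), hk]
    rfl

lemma Basis.co_self {X : Finset α} (h : M.Basis X) {x e : α} (hx : x ∈ X) (he : e ∈ X) :
    M.co X x e = if e = x then 1 else 0 := by
  unfold co
  by_cases hex : e = x
  · rw [hex, insert_erase hx, if_pos h.sp, if_pos rfl]
  · have := h.erase hx
    rw [insert_eq_of_mem (by grind), if_neg (by omega), if_neg hex]

lemma zmod2_cases (a : ZMod 2) : a = 0 ∨ a = 1 := by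
  revert a; decide

theorem ind_iff_cyc (hF : M.Free) {X : Finset α} (h : M.Basis X) {S : Finset α} (hS : S ⊆ M.E) :
    M.Ind S ↔ ∀ T ⊆ S, T.Nonempty → ¬ M.cyc X T := by
  constructor
  · rintro hI T hT ⟨t, ht⟩ hc
    obtain ⟨X', h', hX'⟩ := exists_Basis hI hS
    have h1 := cyc_change hF (hT.trans hS) h' _ X h rfl hc t (hX' (hT ht))
    rw [sum_congr rfl fun e he => h'.co_self (hX' (hT ht)) (hX' (hT he))] at h1
    simp [ht] at h1
  · intro hc
    by_contra hI
    obtain ⟨I, -, hI1, hI2, hI3⟩ := exists_basis (M := M) (S := S) ind_empty (empty_subset _)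
    obtain ⟨e, he, heI⟩ : ∃ e ∈ S, e ∉ I := by
      by_contra h1
      push Not at h1
      exact hI (Subset.antisymm hI1 h1 ▸ hI2)
    have hs : M.sp I e := sp_of_r_le hI1 he hI3.ge
    obtain ⟨X', h', hX'⟩ := exists_Basis hI2 (hI1.trans hS)
    refine hc (insert e (I.filter fun t => M.co X' t e = 1)) (by grind) (by simp)
      (cyc_change hF (by grind) h _ X' h' rfl fun x hx => ?_)
    rw [sum_insert (by grind), sum_congr rfl fun t ht => h'.co_self hx (hX' (mem_filter.1 ht).1)]
    simp only [sum_ite_eq', mem_filter]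
    by_cases hxI : x ∈ I
    · rcases zmod2_cases (M.co X' x e) with h1 | h1 <;> simp [h1, hxI]
      rfl
    · have h1 : ¬ M.r (insert e (X'.erase x)) = M.r M.E := fun h2 =>
        (h'.adj hx).1 h2 (hs.mono (by grind))
      simp [hxI, co, h1]

section Rep

variable {V : Type*} [AddCommGroup V]

/-- independence is detected by subsets of vectors adding up to `0` or `c` -/
def Rep (M : RM α) (v : α → V) (c : V) : Prop :=
  ∀ S ⊆ M.E, M.Ind S ↔ ∀ T ⊆ S, T.Nonempty → ∑ e ∈ T, v e ≠ 0 ∧ ∑ e ∈ T, v e ≠ c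

lemma Rep.free {v : α → V} (hV : ∀ a : V, a + a = 0) (h : M.Rep v 0) : M.Free := by
  rintro ⟨C0, φ, e0, -⟩
  obtain ⟨C, e, hC, -⟩ := e0.norm
  have hE := e.sub
  have hm := e.mem
  have pr : ∀ i j, i ≠ j → ∀ T ⊆ insert (φ i) (insert (φ j) C), T.Nonempty → ∑ e ∈ T, v e ≠ 0 := by
    intro i j hij T hT hT1
    exact ((h _ (by grind)).1 ((hC.insert (e.not_sp1 nice_rU j)).insert (e.not_sp2 nice_rU hij))
      T hT hT1).1
  have tr : ∀ k, k ≠ 0 → k ≠ 1 → ∃ T ⊆ insert (φ 0) (insert (φ 1) (insert (φ k) C)),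
      φ 0 ∈ T ∧ φ 1 ∈ T ∧ φ k ∈ T ∧ ∑ e ∈ T, v e = 0 := by
    intro k k0 k1
    have h1 : ¬ M.Ind (insert (φ 0) (insert (φ 1) (insert (φ k) C))) := by
      intro h1
      have h2 := not_sp (h1.not_sp (mem_insert_self _ _) (subset_insert _ _) (by
        have := e.nmem 0
        have := e.inj.ne (a₁ := 0) (a₂ := 1) (by decide)
        have := e.inj.ne k0
        grind))
      have h3 := e.rk2 1 k
      have h4 := nice_rU.two 1 k k1.symm
      have h5 := e.rk_univ
      have h6 : rU univ = 2 := by decide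
      have h7 := M.mono (S := insert (φ 0) (insert (φ 1) (insert (φ k) C))) (T := img φ ∪ C) (by
        have := self_mem_img φ
        grind)
      omega
    rw [h _ (by grind)] at h1
    push Not at h1
    obtain ⟨T, hT, hT1, hT2⟩ := h1
    have h2 : ∑ e ∈ T, v e = 0 := by
      by_contra h2
      exact h2 (hT2 h2)
    refine ⟨T, hT, ?_, ?_, ?_, h2⟩
    · by_contra h3
      exact pr 1 k k1.symm T (by grind) hT1 h2
    · by_contra h3
      exact pr 0 k k0.symm T (by grind) hT1 h2
    · by_contra h3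
      exact pr 0 1 (by decide) T (by grind) hT1 h2
  obtain ⟨A, a1, a2, a3, a4, a5⟩ := tr 2 (by decide) (by decide)
  obtain ⟨B, b1, b2, b3, b4, b5⟩ := tr 3 (by decide) (by decide)
  have n2 : φ 2 ∉ B := by
    have := e.nmem 2
    have := e.inj.ne (a₁ := 2) (a₂ := 0) (by decide)
    have := e.inj.ne (a₁ := 2) (a₂ := 1) (by decide)
    have := e.inj.ne (a₁ := 2) (a₂ := 3) (by decide)
    clear pr tr
    grind
  refine pr 2 3 (by decide) (A \ B ∪ B \ A) (by clear pr tr; grind) ⟨φ 2, by simp [a4, n2]⟩ ?_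
  have s1 := sum_inter_add_sum_sdiff A B v
  have s2 := sum_inter_add_sum_sdiff B A v
  rw [inter_comm, b5] at s2
  rw [a5] at s1
  rw [sum_union (disjoint_left.2 (by clear pr tr; grind)), eq_neg_of_add_eq_zero_right s1,
    eq_neg_of_add_eq_zero_right s2, hV]

lemma Rep.con {v : α → V} (hV : ∀ a : V, a + a = 0) (h : M.Rep v 0) {c : α} (hc : c ∈ M.E)
    (h0 : v c ≠ 0) : (M.con {c}).Rep v (v c) := by
  have h1 : M.Ind {c} := (h _ (by simpa using hc)).2 fun T hT hT1 => by
    rw [hT1.subset_singleton_iff.1 hT]; simpa using h0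
  intro S hS
  rw [con_E] at hS
  have hcS : c ∉ S := by grind
  have h2 : (M.con {c}).Ind S ↔ M.Ind (insert c S) := by
    unfold Ind at *
    rw [con1_r, card_insert_of_notMem hcS, h1]
    simp only [card_singleton]
    push_cast
    omega
  rw [h2, h _ (by grind)]
  constructor
  · intro h3 T hT hT1
    refine ⟨(h3 T (by grind) hT1).1, fun h4 => (h3 (insert c T) (by grind) (by simp)).1 ?_⟩
    rw [sum_insert (by grind), h4, hV]
  · intro h3 T hT hT1
    suffices ∑ e ∈ T, v e ≠ 0 from ⟨this, this⟩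
    by_cases hcT : c ∈ T
    · rw [← add_sum_erase T v hcT]
      rcases (T.erase c).eq_empty_or_nonempty with h4 | h4
      · simpa [h4] using h0
      · intro h5
        refine (h3 (T.erase c) (by grind) h4).2 ?_
        rw [eq_neg_of_add_eq_zero_right h5, neg_eq_of_add_eq_zero_right (hV _)]
    · exact (h3 T (by grind) hT1).1

end Rep

end RM

/-- the `j`-th bit as an additive map -/
def bitz (j : ℕ) : XN →+ ZMod 2 where
  toFun a := if Nat.testBit a j then 1 else 0
  map_zero' := by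
    show (if Nat.testBit 0 j then (1 : ZMod 2) else 0) = 0
    simp
  map_add' a b := by
    show (if Nat.testBit (HXor.hXor (α := ℕ) (β := ℕ) a b) j then (1 : ZMod 2) else 0) = _
    rw [Nat.testBit_xor]
    cases Nat.testBit a j <;> cases Nat.testBit b j <;> rfl

lemma XN.eq_zero {a : XN} (h : ∀ j, bitz j a = 0) : a = 0 := by
  refine Nat.eq_of_testBit_eq fun j => ?_
  have h1 : (if Nat.testBit a j then (1 : ZMod 2) else 0) = 0 := h j
  have h2 : Nat.testBit (0 : XN) j = false := Nat.zero_testBit j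
  rw [h2]
  revert h1
  cases Nat.testBit a j
  · simp
  · decide

def vec5 (a b c d e : ZMod 2) : ℕ := a.val + 2 * b.val + 4 * c.val + 8 * d.val + 16 * e.val

lemma vec5_lt : ∀ a b c d e : ZMod 2, vec5 a b c d e < 32 := by decide

lemma vec5_bit : ∀ a b c d e : ZMod 2, bitz 0 (xn (vec5 a b c d e)) = a ∧
    bitz 1 (xn (vec5 a b c d e)) = b ∧ bitz 2 (xn (vec5 a b c d e)) = c ∧
    bitz 3 (xn (vec5 a b c d e)) = d ∧ bitz 4 (xn (vec5 a b c d e)) = e := by decide

lemma vec5_high (a b c d e : ZMod 2) {j : ℕ} (hj : 5 ≤ j) : bitz j (xn (vec5 a b c d e)) = 0 := by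
  show (if Nat.testBit (vec5 a b c d e) j then (1 : ZMod 2) else 0) = 0
  rw [Nat.testBit_lt_two_pow (lt_of_lt_of_le (vec5_lt a b c d e)
    (Nat.pow_le_pow_right (n := 2) (i := 5) (by decide) hj))]
  simp

omit [DecidableEq α] in
lemma sum_vec5 (T : Finset α) (a b c d e : α → ZMod 2) :
    ∑ x ∈ T, xn (vec5 (a x) (b x) (c x) (d x) (e x)) = 0 ↔ ∑ x ∈ T, a x = 0 ∧ ∑ x ∈ T, b x = 0 ∧
      ∑ x ∈ T, c x = 0 ∧ ∑ x ∈ T, d x = 0 ∧ ∑ x ∈ T, e x = 0 := by
  have h0 : ∀ x, bitz 0 (xn (vec5 (a x) (b x) (c x) (d x) (e x))) = a x := fun x => (vec5_bit ..).1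
  have h1 : ∀ x, bitz 1 (xn (vec5 (a x) (b x) (c x) (d x) (e x))) = b x := fun x => (vec5_bit ..).2.1
  have h2 : ∀ x, bitz 2 (xn (vec5 (a x) (b x) (c x) (d x) (e x))) = c x :=
    fun x => (vec5_bit ..).2.2.1
  have h3 : ∀ x, bitz 3 (xn (vec5 (a x) (b x) (c x) (d x) (e x))) = d x :=
    fun x => (vec5_bit ..).2.2.2.1
  have h4 : ∀ x, bitz 4 (xn (vec5 (a x) (b x) (c x) (d x) (e x))) = e x :=
    fun x => (vec5_bit ..).2.2.2.2
  constructor
  · intro h
    have k := fun j => congrArg (bitz j) h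
    simp only [map_sum, map_zero] at k
    exact ⟨by simpa only [h0] using k 0, by simpa only [h1] using k 1, by simpa only [h2] using k 2,
      by simpa only [h3] using k 3, by simpa only [h4] using k 4⟩
  · rintro ⟨k0, k1, k2, k3, k4⟩
    refine XN.eq_zero fun j => ?_
    rw [map_sum]
    rcases Nat.lt_or_ge j 5 with hj | hj
    · obtain rfl | rfl | rfl | rfl | rfl : j = 0 ∨ j = 1 ∨ j = 2 ∨ j = 3 ∨ j = 4 := by omega
      · simpa only [h0] using k0
      · simpa only [h1] using k1
      · simpa only [h2] using k2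
      · simpa only [h3] using k3
      · simpa only [h4] using k4
    · exact sum_eq_zero fun x _ => vec5_high _ _ _ _ _ hj

/-- combination of four vectors selected by the bits of `m` -/
def comb (s0 s1 s2 s3 m : ℕ) : ℕ :=
  (bif m.testBit 0 then s0 else 0) ^^^ (bif m.testBit 1 then s1 else 0) ^^^
    (bif m.testBit 2 then s2 else 0) ^^^ (bif m.testBit 3 then s3 else 0)

lemma sel_xor (s a b j : ℕ) : xn (bif (a ^^^ b).testBit j then s else 0) =
    xn (bif a.testBit j then s else 0) + xn (bif b.testBit j then s else 0) := by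
  rw [Nat.testBit_xor, xn_add]
  cases a.testBit j <;> cases b.testBit j <;> simp

lemma comb_xor (s0 s1 s2 s3 a b : ℕ) :
    xn (comb s0 s1 s2 s3 (a ^^^ b)) = xn (comb s0 s1 s2 s3 a) + xn (comb s0 s1 s2 s3 b) := by
  simp only [comb, ← xn_add, sel_xor]
  abel

lemma wv_lt : ∀ i, wv i < 2 ^ 4 := by decide

lemma RM.Rep.emb {P : RM α} {v : α → ℕ} {c : ℕ} (h : P.Rep (fun e => xn (v e)) (xn c))
    {φ : Fin 8 → α} (hφ : Function.Injective φ) (hE : ∀ i, φ i ∈ P.E)
    (h1 : ∀ m < 16, m ≠ 0 → comb (v (φ 0)) (v (φ 1)) (v (φ 2)) (v (φ 3)) m ≠ 0 ∧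
      comb (v (φ 0)) (v (φ 1)) (v (φ 2)) (v (φ 3)) m ≠ c)
    (h2 : ∀ i, v (φ i) = comb (v (φ 0)) (v (φ 1)) (v (φ 2)) (v (φ 3)) (wv i) ∨
      v (φ i) = comb (v (φ 0)) (v (φ 1)) (v (φ 2)) (v (φ 3)) (wv i) ^^^ c) :
    P.Emb rW ∅ φ := by
  generalize v (φ 0) = s0, v (φ 1) = s1, v (φ 2) = s2, v (φ 3) = s3 at h1 h2
  have key : ∀ T : Finset (Fin 8), ∃ m < 16, ∑ i ∈ T, xn (wv i) = xn m ∧
      (∑ i ∈ T, xn (v (φ i)) = xn (comb s0 s1 s2 s3 m) ∨
        ∑ i ∈ T, xn (v (φ i)) = xn (comb s0 s1 s2 s3 m) + xn c) := by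
    intro T
    induction T using Finset.induction_on with
    | empty => exact ⟨0, by decide, rfl, Or.inl (by simp [comb, xn_zero])⟩
    | insert a t ha ih =>
      obtain ⟨m, m1, m2, m3⟩ := ih
      refine ⟨wv a ^^^ m, Nat.xor_lt_two_pow (n := 4) (wv_lt a) m1,
        by rw [sum_insert ha, m2, xn_add], ?_⟩
      rw [sum_insert ha, comb_xor]
      have cc := XN.add_self (xn c)
      rcases h2 a with e | e <;> rcases m3 with m3 | m3 <;> rw [e, m3]
      · left; rfl
      · right; abel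
      · right; rw [← xn_add]; abel
      · left; rw [← xn_add, add_add_add_comm, cc, add_zero]
  have key2 : ∀ T : Finset (Fin 8), (∑ e ∈ T.image φ, xn (v e) ≠ 0 ∧
      ∑ e ∈ T.image φ, xn (v e) ≠ xn c) ↔ ∑ i ∈ T, xn (wv i) ≠ 0 := by
    intro T
    obtain ⟨m, m1, m2, m3⟩ := key T
    rw [sum_image fun _ _ _ _ e => hφ e, m2]
    have cc := XN.add_self (xn c)
    by_cases hm : m = 0
    · subst hm
      have : xn (comb s0 s1 s2 s3 0) = 0 := by simp [comb, xn_zero]
      rw [this] at m3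
      rcases m3 with m3 | m3 <;> simp [m3, xn_zero]
    · have k1 : xn (comb s0 s1 s2 s3 m) ≠ 0 := (h1 m m1 hm).1
      have k2 : xn (comb s0 s1 s2 s3 m) ≠ xn c := (h1 m m1 hm).2
      have k3 : xn m ≠ 0 := hm
      rcases m3 with m3 | m3 <;> rw [m3]
      · simp [k1, k2, k3]
      · simp only [ne_eq, add_eq_right, k1, k3, not_false_eq_true, and_true, iff_true]
        intro k4
        exact k2 (by rw [eq_neg_of_add_eq_zero_left k4, neg_eq_of_add_eq_zero_right cc])
  refine ⟨hφ, hE, by simp, by simp, fun S => ?_⟩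
  rw [union_empty, P.r_empty, zero_add]
  refine RM.r_eq_of_ind (N := wheel) φ hφ (fun S => ?_) S
  rw [wheel_ind, h _ (by grind)]
  constructor
  · intro k T hT hT1
    exact (key2 T).1 (k _ (image_subset_image hT) (hT1.image _))
  · intro k T hT hT1
    obtain ⟨T', hT', rfl⟩ := subset_image_iff.1 hT
    exact (key2 T').2 (k T' hT' (image_nonempty.1 hT1))

end Pool.Agent.Work.MP_6b71e5_co
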