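import Pool.Agent.Work.MP_6b71e5_co.Fan

/-! A minimal good matroid has at most nine elements. -/

namespace Pool.Agent.Work.MP_6b71e5_co

open Finset

variable {α : Type*} [DecidableEq α]

namespace RM

variable {M : RM α}

/-- no element can be removed in the same way keeping each of the two minors -/
structure Tw (M : RM α) : Prop where
  c : ∀ f, M.HasCD rU {f} ∅ → M.HasCD rW {f} ∅ → False
  d : ∀ f, M.HasCD rU ∅ {f} → M.HasCD rW ∅ {f} → False

lemma Tw.dual (h : M.Tw) : M.dual.Tw :=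
  ⟨fun f h1 h2 => h.d f (h1.of_dual nice_rU) (h2.of_dual nice_rW),
    fun f h1 h2 => h.c f (h1.of_dual nice_rU) (h2.of_dual nice_rW)⟩

lemma Tw.free (h : M.Tw) {C F : Finset α} (hC : C ⊆ M.E) (hF : F ⊆ M.E \ C)
    (h1 : (∃ c ∈ C, M.HasCD rW {c} ∅) ∨ ∃ d, d ∉ C ∧ d ∉ F ∧ M.HasCD rW ∅ {d}) :
    ((M.con C).res F).Free := by
  intro h2
  have h3 := (h2.of_res hF).of_con hC
  rcases h1 with ⟨c, hc, h1⟩ | ⟨d, d1, d2, h1⟩
  · exact h.c c (h3.mono (by simpa using hc) (empty_subset _)) h1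
  · exact h.d d (h3.mono (empty_subset _) (by simp [d1, d2, h1.memD])) h1

lemma Tw.loc (h : M.Tw) (h10 : 10 ≤ M.E.card) : M.Loc := by
  intro C φ d e hd
  have h0 := e.img_sub
  have h1 := @e.not_img
  refine h.free e.sub (by grind) ?_
  rcases C.eq_empty_or_nonempty with rfl | ⟨c, hc⟩
  · have h2 : ¬ M.E ⊆ insert d (img φ) := fun h2 => by
      have := card_le_card h2
      have := card_insert_le d (img φ)
      have := e.card_img
      omega
    obtain ⟨x, hx, hx1⟩ := not_subset.1 h2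
    exact Or.inr ⟨x, by simp, hx1, e.hasD hx (by simp) (by grind)⟩
  · exact Or.inl ⟨c, hc, e.hasC hc⟩

/-- normalised four point line minor -/
structure NU (M : RM α) (C : Finset α) (φ : Fin 4 → α) : Prop where
  e : M.Emb rU C φ
  i : M.Ind C
  r : M.r C + 2 = M.r M.E

lemma exists_NU (h : M.HasCD rU ∅ ∅) : ∃ C φ, M.NU C φ := by
  obtain ⟨C, φ, e, -⟩ := h
  obtain ⟨C', e', h1, h2⟩ := e.norm
  have h3 := e'.rk_univ
  have h4 : rU univ = 2 := by decide
  exact ⟨C', φ, e', h1, by omega⟩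

variable {C : Finset α} {φ : Fin 4 → α}

lemma NU.congr {M' : RM α} (h : M.NU C φ) (hM : M.Eqv M') : M'.NU C φ := by
  refine ⟨h.e.congr hM, ?_, ?_⟩
  · unfold Ind; rw [← hM.2 _ h.e.sub]; exact h.i
  · rw [← hM.2 _ h.e.sub, ← hM.1, ← hM.2 _ Subset.rfl]; exact h.r

lemma NU.dual (h : M.NU C φ) : ∃ ψ, M.dual.NU (M.E \ (C ∪ img φ)) ψ ∧ img ψ = img φ := by
  obtain ⟨ψ, e, hψ⟩ := h.e.dual nice_rU
  have h1 := h.e.rk_univ
  have h2 : rU univ = 2 := by decide
  have h3 := h.i
  have h4 := h.r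
  have h5 : C ∪ img φ ⊆ M.E := union_subset h.e.sub h.e.img_sub
  have h6 := card_sdiff_add_card_eq_card h5
  have h7 : (C ∪ img φ).card = C.card + 4 := by
    rw [card_union_of_disjoint (disjoint_left.2 fun x hx => h.e.not_img hx), h.e.card_img]
  rw [union_comm] at h1
  unfold Ind at h3
  refine ⟨ψ, ⟨e, ?_, ?_⟩, hψ⟩
  · unfold Ind; rw [M.dual_r_compl h5]; omega
  · rw [M.dual_r_compl h5, dual_E, dual_r_E]; omega

lemma NU.pair (h : M.NU C φ) {Y : Finset α} (hY : Y ⊆ img φ) (h2 : Y.card = 2) :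
    M.Basis (C ∪ Y) := by
  obtain ⟨a, b, hab, rfl⟩ := card_eq_two.1 h2
  obtain ⟨i, rfl⟩ := mem_img.1 (hY (mem_insert_self _ _))
  obtain ⟨j, rfl⟩ := mem_img.1 (hY (show b ∈ _ by simp))
  have hij : i ≠ j := fun h1 => hab (by rw [h1])
  have h1 : C ∪ {φ i, φ j} = insert (φ i) (insert (φ j) C) := by grind
  have h3 := h.e.rk2 i j
  have h4 := nice_rU.two i j hij
  have h5 := h.r
  rw [h1]
  exact ⟨insert_subset (h.e.mem i) (insert_subset (h.e.mem j) h.e.sub),
    (h.i.insert (h.e.not_sp1 nice_rU j)).insert (h.e.not_sp2 nice_rU hij), by omega⟩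

lemma NU.repl (h : M.NU C φ) {z : α} (hz : z ∈ M.E) (hs : ¬ M.sp C z) (t0 : Fin 4) :
    ∃ t, (t = t0 ∨ M.sp (insert (φ t) C) z) ∧ M.NU C (Function.update φ t z) := by
  obtain ⟨t, t1, t2⟩ : ∃ t, (t = t0 ∨ M.sp (insert (φ t) C) z) ∧
      ∀ j, j ≠ t → ¬ M.sp (insert (φ j) C) z := by
    by_cases h1 : ∃ t, M.sp (insert (φ t) C) z
    · obtain ⟨t, ht⟩ := h1
      refine ⟨t, Or.inr ht, fun j hj h2 => hs ((sp.inter ?_ h2 ht).mono ?_)⟩
      · exact ((h.i.insert (h.e.not_sp1 nice_rU t)).insert (h.e.not_sp2 nice_rU hj)).subset (by grind)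
      · have := h.e.inj.ne hj
        grind
    · push Not at h1
      exact ⟨t0, Or.inl rfl, fun j _ => h1 j⟩
  have r0 := h.r
  have hm : ∀ i, Function.update φ t z i ∈ M.E := fun i => by
    by_cases hi : i = t
    · subst hi; simpa using hz
    · rw [Function.update_of_ne hi]; exact h.e.mem i
  have g : ∀ j, j ≠ t → M.r C + 2 ≤ M.r (insert z (insert (φ j) C)) := fun j hj => by
    have := not_sp (t2 j hj)
    have := not_sp (h.e.not_sp1 nice_rU j)
    omega
  refine ⟨t, t1, emb_U h.e.sub hm (fun i j hij => ?_) ?_, h.i, h.r⟩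
  · by_cases hi : i = t
    · subst hi
      rw [Function.update_self, Function.update_of_ne hij.symm]
      exact g j hij.symm
    · by_cases hj : j = t
      · subst hj
        rw [Function.update_self, Function.update_of_ne hi, insert_comm]
        exact g i hi
      · rw [Function.update_of_ne hi, Function.update_of_ne hj, h.e.rk2, nice_rU.two i j hij]
  · rw [r0]
    refine M.mono (union_subset (fun x hx => ?_) h.e.sub)
    obtain ⟨i, rfl⟩ := mem_img.1 hx
    exact hm i

lemma NU.upd_del (h : M.NU C φ) {z : α} {t : Fin 4} (hz : z ∉ img φ)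
    (h' : M.Emb rU C (Function.update φ t z)) : M.HasCD rU ∅ {φ t} := by
  refine h'.hasD (h.e.mem t) (h.e.nmem t) fun h1 => ?_
  rcases mem_img_update h1 with h1 | ⟨j, hj, h1⟩
  · exact hz (h1 ▸ self_mem_img φ t)
  · exact hj (h.e.inj h1)

lemma NU.triad (h : M.NU C φ) {u : α} (hu : u ∈ img φ)
    (h1 : ∀ x ∈ img φ, x ≠ u → ¬ M.HasCD rU ∅ {x}) : M.r (M.E \ (img φ).erase u) < M.r M.E := by
  by_contra h2
  obtain ⟨i, rfl⟩ := mem_img.1 hu
  have r0 := h.r
  have r1 := not_sp (h.e.not_sp1 nice_rU i)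
  obtain ⟨z, hz, hz1⟩ := exists_not_sp (M := M) (S := insert (φ i) C)
    (T := M.E \ (img φ).erase (φ i)) (by omega)
  have z1 : z ≠ φ i := fun h3 => hz1 (sp_of_mem (by simp [h3]))
  obtain ⟨t0, ht0⟩ := exists_ne i
  obtain ⟨t, t1, t2⟩ := h.repl (z := z) (by grind) (fun h3 => hz1 (h3.mono (subset_insert _ _))) t0
  have t3 : t ≠ i := by
    rintro rfl
    rcases t1 with t1 | t1
    · exact ht0 t1.symm
    · exact hz1 t1
  exact h1 _ (self_mem_img φ t) (h.e.inj.ne t3) (h.upd_del (by grind) t2.e)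

lemma triad_con (h3 : M.Conn3) (h4 : 4 ≤ M.E.card) {a b e : α} (hb : b ∈ M.E) (he : e ∈ M.E)
    (ab : a ≠ b) (ae : a ≠ e) (be : b ≠ e) (hr : M.r (M.E \ {a, b, e}) < M.r M.E)
    (h : M.HasCD rW ∅ {a}) : M.HasCD rW {b} ∅ := by
  have ha := h.memD
  have r1 := (h3.pair h4 ha he ae).2
  refine (((h.to_res (F := M.E.erase a) (D2 := ∅) (by grind) (by simp)).ser nice_rW (a := e) (b := b)
    (by grind [res_E]) (by grind [res_E]) be.symm ?_).of_res (erase_subset _ _)).mono Subset.rfl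
    (empty_subset _)
  have q1 : M.E.erase a \ {e, b} = M.E \ {a, b, e} := by grind
  have q2 : M.E.erase a \ {e} = M.E \ {a, e} := by grind
  simp only [res_E, res_r, q1, q2]
  omega

lemma NU.three_del (h : M.NU C φ) (h3 : M.Conn3) (hT : M.Tw) (h5 : 5 ≤ M.E.card) {a b e : α}
    (ha : a ∈ img φ) (hb : b ∈ img φ) (he : e ∈ img φ) (ab : a ≠ b) (ae : a ≠ e) (be : b ≠ e)
    (da : M.HasCD rW ∅ {a}) (db : M.HasCD rW ∅ {b}) (de : M.HasCD rW ∅ {e}) : False := by
  have c4 := h.e.card_img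
  have c3 : ({a, b, e} : Finset α).card = 3 := card_eq_three.2 ⟨a, b, e, ab, ae, be, rfl⟩
  have s1 : ({a, b, e} : Finset α) ⊆ img φ := by grind
  have s2 := h.e.img_sub
  obtain ⟨u, hu, hu1⟩ := not_subset.1 (show ¬ img φ ⊆ {a, b, e} from fun h1 => by
    have := card_le_card h1
    omega)
  have q : (img φ).erase u = {a, b, e} := (eq_of_subset_of_card_le (by grind) (by
    rw [card_erase_of_mem hu]; omega)).symm
  have mem : ∀ x ∈ img φ, x ≠ u → x = a ∨ x = b ∨ x = e := fun x hx hxu => by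
    have : x ∈ (img φ).erase u := by grind
    rw [q] at this
    simpa using this
  have r1 := h.triad hu fun x hx hxu h1 => by
    rcases mem x hx hxu with rfl | rfl | rfl
    exacts [hT.d _ h1 da, hT.d _ h1 db, hT.d _ h1 de]
  rw [q] at r1
  have cb := triad_con h3 (by omega) (s2 hb) (s2 he) ab ae be r1 da
  have ce := triad_con h3 (by omega) (s2 he) (s2 hb) ae ab be.symm (by rwa [pair_comm e b]) da
  have ca := triad_con h3 (by omega) (s2 ha) (s2 he) ab.symm be ae (by rwa [insert_comm b a]) db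
  obtain ⟨ψ, h', hψ⟩ := h.dual
  have r2 := h'.triad (u := u) (hψ ▸ hu) fun x hx hxu h1 => by
    rcases mem x (hψ ▸ hx) hxu with rfl | rfl | rfl
    exacts [hT.c _ (h1.of_dual nice_rU) ca, hT.c _ (h1.of_dual nice_rU) cb,
      hT.c _ (h1.of_dual nice_rU) ce]
  rw [hψ, q, dual_E, M.dual_r_compl (s1.trans s2), dual_r_E] at r2
  have r3 := h3.2 {a, b, e} (s1.trans s2) (by omega) (by
    have := card_sdiff_add_card_eq_card (s1.trans s2)
    omega)
  omega

lemma NU.three_con (h : M.NU C φ) (h3 : M.Conn3) (hT : M.Tw) (h5 : 5 ≤ M.E.card) {a b e : α}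
    (ha : a ∈ img φ) (hb : b ∈ img φ) (he : e ∈ img φ) (ab : a ≠ b) (ae : a ≠ e) (be : b ≠ e)
    (da : M.HasCD rW {a} ∅) (db : M.HasCD rW {b} ∅) (de : M.HasCD rW {e} ∅) : False := by
  obtain ⟨ψ, h', hψ⟩ := h.dual
  exact h'.three_del h3.dual hT.dual h5 (hψ ▸ ha) (hψ ▸ hb) (hψ ▸ he) ab ae be (da.dual nice_rW)
    (db.dual nice_rW) (de.dual nice_rW)

lemma NU.con_mem (h : M.NU C φ) (hT : M.Tw) {x : α} (hx : M.HasCD rW {x} ∅) : x ∉ C :=
  fun h1 => hT.c x (h.e.hasC h1) hx

lemma NU.del_mem (h : M.NU C φ) (hT : M.Tw) {x : α} (hx : M.HasCD rW ∅ {x}) :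
    x ∈ C ∨ x ∈ img φ := by
  by_contra h1
  push Not at h1
  exact hT.d x (h.e.hasD hx.memD h1.1 h1.2) hx

lemma NU.half (h : M.NU C φ) (hT : M.Tw) {R1 R2 Y : Finset α} (s1 : R1 ⊆ img φ) (s2 : R2 ⊆ img φ)
    (s3 : Y ⊆ img φ) (d1 : ∀ x ∈ R1, x ∉ R2) (d2 : ∀ x ∈ R1, x ∉ Y) (d3 : ∀ x ∈ R2, x ∉ Y)
    (hne : (R1 ∪ R2).Nonempty) (hW : M.HasCD rW R1 R2) (hc : R1.card + Y.card = 2)
    (h1 : ∀ x ∈ Y, ¬ M.HasCD rW (insert x R1) R2)
    (h2 : ∀ x ∈ img φ, x ∉ R1 → x ∉ R2 → x ∉ Y → ¬ M.HasCD rW R1 (insert x R2)) :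
    M.E.card = R1.card + R2.card + 2 * (C.card + Y.card) := by
  have s0 := h.e.img_sub
  have s4 := h.e.sub
  have n0 := @h.e.not_img
  have a1 : R1 ⊆ M.E := s1.trans s0
  have a2 : M.E \ (R1 ∪ R2) ⊆ M.E \ R1 := by grind
  have hB := h.pair (Y := R1 ∪ Y) (by grind)
    (by rw [card_union_of_disjoint (disjoint_left.2 d2), hc])
  have c1 : (C ∪ Y).card = C.card + Y.card := card_union_of_disjoint (disjoint_left.2 (by grind))
  have c2 : (R1 ∪ R2).card = R1.card + R2.card := card_union_of_disjoint (disjoint_left.2 d1)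
  have c3 := card_sdiff_add_card_eq_card (show R1 ∪ R2 ⊆ M.E by grind)
  have i1 : M.Ind R1 := hB.ind.subset (by grind)
  have i2 := h.i
  have r0 := h.r
  have r1 := hB.sp
  have q : C ∪ (R1 ∪ Y) = C ∪ Y ∪ R1 := by grind
  rw [q] at r1
  have r2 := M.mono (S := C ∪ Y ∪ R1) (T := M.E \ (R1 ∪ R2) ∪ R1) (by grind)
  have r3 := M.mono (S := M.E \ (R1 ∪ R2) ∪ R1) (T := M.E) (by grind)
  have key := card_eq_two_mul _ ((M.con R1).res (M.E \ (R1 ∪ R2))) (C ∪ Y) rfl
    (hT.free a1 a2 (by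
      obtain ⟨x, hx⟩ := hne
      rcases mem_union.1 hx with hx | hx
      · exact Or.inl ⟨x, hx, hW.mono (by simpa using hx) (empty_subset _)⟩
      · exact Or.inr ⟨x, by grind, by grind, hW.mono (empty_subset _) (by simpa using hx)⟩))
    ⟨by grind [res_E], by unfold Ind at *; simp only [res_r, con_r]; omega,
      by simp only [res_E, res_r, con_r]; omega⟩
    ⟨fun x hx h3 => by
      have h4 := (hx.of_res a2).of_con a1
      rcases mem_union.1 h3 with h3 | h3
      · exact h.con_mem hT (h4.mono subset_union_left (empty_subset _)) h3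
      · exact h1 x h3 (h4.mono (by clear * -; grind) (by clear * - d1 s2 s0; grind [con_E])),
     fun x hx => by
      have h3 := hx.memD
      have h4 := (hx.of_res a2).of_con a1
      rcases h.del_mem hT (h4.mono (empty_subset _) subset_union_left) with h5 | h5
      · exact mem_union_left _ h5
      · by_contra h6
        rw [res_E] at h3
        exact h2 x h5 (by clear * - h3; grind) (by clear * - h3; grind) (by clear * - h6; grind)
          (h4.mono (by simp) (by clear * - d1 s2 s0; grind [con_E]))⟩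
    (((hW.to_con Subset.rfl).to_res (D2 := ∅) (by clear * -; grind [con_E]) (by simp)).mono (by simp)
      Subset.rfl)
  rw [res_E] at key
  omega

lemma NU.no_double (h : M.NU C φ) (h3 : M.Conn3) (hT : M.Tw) (h5 : 5 ≤ M.E.card) {a : α}
    (ca : M.HasCD rW {a} ∅) (da : M.HasCD rW ∅ {a}) : False := by
  have inI : ∀ x, M.HasCD rW {x} ∅ → M.HasCD rW ∅ {x} → x ∈ img φ := fun x h1 h2 =>
    (h.del_mem hT h2).resolve_left (h.con_mem hT h1)
  have ha := inI a ca da
  have c4 := h.e.card_img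
  have td := fun {b e : α} hb he ab ae be => h.three_del h3 hT h5 (b := b) (e := e) ha hb he ab ae be da
  have tc := fun {b e : α} hb he ab ae be => h.three_con h3 hT h5 (b := b) (e := e) ha hb he ab ae be ca
  have rest : ∀ b ∈ img φ, b ≠ a → ∃ e u, e ≠ u ∧ ((img φ).erase a).erase b = {e, u} := by
    intro b hb hba
    refine card_eq_two.1 ?_
    rw [card_erase_of_mem (by grind), card_erase_of_mem ha, c4]
  have both : ∀ b, b ≠ a → M.HasCD rW {b} ∅ → M.HasCD rW ∅ {b} → ∃ e u, e ≠ u ∧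
      ((img φ).erase a).erase b = {e, u} ∧ b ∈ img φ ∧ ∀ x ∈ img φ, x ≠ a → x ≠ b →
        ¬ M.HasCD rW {x} ∅ ∧ ¬ M.HasCD rW ∅ {x} := by
    intro b hba cb db
    have hb := inI b cb db
    obtain ⟨e, u, h1, h2⟩ := rest b hb hba
    exact ⟨e, u, h1, h2, hb, fun x hx xa xb => ⟨tc hb hx hba.symm xa.symm xb.symm cb,
      td hb hx hba.symm xa.symm xb.symm db⟩⟩
  by_cases h1 : ∃ b, b ≠ a ∧ M.HasCD rW {b, a} ∅ ∧ M.HasCD rW {a} {b}
  · obtain ⟨b, hba, b1, b2⟩ := h1
    obtain ⟨e, u, eu, q, hb, hn⟩ := both b hba (b1.mono (by simp) Subset.rfl)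
      (b2.mono (by simp) Subset.rfl)
    have he : e ∈ ((img φ).erase a).erase b := by simp [q]
    simp only [mem_erase] at he
    clear td tc rest both inI
    have k1 := h.half hT (R1 := {b, a}) (R2 := ∅) (Y := ∅) (by grind) (by simp) (by simp) (by simp)
      (by simp) (by simp) (by simp) b1 (by simp [card_pair hba]) (by simp)
      fun x hx x1 _ _ h2 => (hn x hx (by grind) (by grind)).2 (h2.mono (by simp) (by simp))
    have k2 := h.half hT (R1 := {a}) (R2 := {b}) (Y := {e}) (by grind) (by grind) (by grind)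
      (by grind) (by grind) (by grind) (by simp) b2 (by simp)
      (fun x hx h2 => (hn x (by grind) (by grind) (by grind)).1 (h2.mono (by simp) (by simp)))
      fun x hx x1 x2 _ h2 => (hn x hx (by grind) (by grind)).2 (h2.mono (by simp) (by simp))
    simp only [card_pair hba, card_empty, card_singleton] at k1 k2
    omega
  by_cases h2 : ∃ b, b ≠ a ∧ M.HasCD rW {b} {a} ∧ M.HasCD rW ∅ {b, a}
  · obtain ⟨b, hba, b1, b2⟩ := h2
    obtain ⟨e, u, eu, q, hb, hn⟩ := both b hba (b1.mono Subset.rfl (by simp))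
      (b2.mono Subset.rfl (by simp))
    have he : e ∈ ((img φ).erase a).erase b := by simp [q]
    have hu : u ∈ ((img φ).erase a).erase b := by simp [q]
    simp only [mem_erase] at he hu
    clear td tc rest both inI h1
    have k1 := h.half hT (R1 := {b}) (R2 := {a}) (Y := {e}) (by grind) (by grind) (by grind)
      (by grind) (by grind) (by grind) (by simp) b1 (by simp)
      (fun x hx h2 => (hn x (by grind) (by grind) (by grind)).1 (h2.mono (by simp) (by simp)))
      fun x hx x1 x2 _ h2 => (hn x hx (by grind) (by grind)).2 (h2.mono (by simp) (by simp))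
    have k2 := h.half hT (R1 := ∅) (R2 := {b, a}) (Y := {e, u}) (by simp) (by grind) (by grind)
      (by simp) (by simp) (by grind) (by simp) b2 (by simp [card_pair eu])
      (fun x hx h2 => (hn x (by grind) (by grind) (by grind)).1 (h2.mono (by simp) (by simp)))
      fun x hx x1 x2 _ h2 => (hn x hx (by grind) (by grind)).2 (h2.mono (by simp) (by simp))
    simp only [card_pair hba, card_pair eu, card_empty, card_singleton] at k1 k2
    omega
  push Not at h1 h2
  obtain ⟨b, e, u, be, bu, eu, q⟩ := card_eq_three.1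
    (show ((img φ).erase a).card = 3 by rw [card_erase_of_mem ha, c4])
  have hb : b ∈ (img φ).erase a := by simp [q]
  have he : e ∈ (img φ).erase a := by simp [q]
  simp only [mem_erase] at hb he
  obtain ⟨y, y1, y2, y3, y4⟩ : ∃ y ∈ img φ, y ≠ a ∧ ¬ M.HasCD rW {y, a} ∅ ∧
      ∀ x ∈ img φ, x ≠ a → x ≠ y → ¬ M.HasCD rW {a} {x} := by
    by_cases h4 : ∃ y ∈ img φ, y ≠ a ∧ M.HasCD rW {a} {y}
    · obtain ⟨y, y1, y2, y3⟩ := h4
      exact ⟨y, y1, y2, fun h6 => h1 y y2 h6 y3, fun x hx xa xy h6 => td y1 hx y2.symm xa.symm xy.symm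
        (y3.mono (by simp) Subset.rfl) (h6.mono (by simp) Subset.rfl)⟩
    · push Not at h4
      by_cases h6 : M.HasCD rW {b, a} ∅
      · exact ⟨e, he.2, he.1, fun h7 => tc hb.2 he.2 hb.1.symm he.1.symm be
          (h6.mono (by simp) Subset.rfl) (h7.mono (by simp) Subset.rfl), fun x hx xa _ => h4 x hx xa⟩
      · exact ⟨b, hb.2, hb.1, h6, fun x hx xa _ => h4 x hx xa⟩
  obtain ⟨z, z1, z2, z3, z4⟩ : ∃ z ∈ img φ, z ≠ a ∧ ¬ M.HasCD rW ∅ {z, a} ∧
      ∀ x ∈ img φ, x ≠ a → x ≠ z → ¬ M.HasCD rW {x} {a} := by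
    by_cases h4 : ∃ y ∈ img φ, y ≠ a ∧ M.HasCD rW {y} {a}
    · obtain ⟨y, y1, y2, y3⟩ := h4
      exact ⟨y, y1, y2, h2 y y2 y3, fun x hx xa xy h6 => tc y1 hx y2.symm xa.symm xy.symm
        (y3.mono Subset.rfl (by simp)) (h6.mono Subset.rfl (by simp))⟩
    · push Not at h4
      by_cases h6 : M.HasCD rW ∅ {b, a}
      · exact ⟨e, he.2, he.1, fun h7 => td hb.2 he.2 hb.1.symm he.1.symm be
          (h6.mono Subset.rfl (by simp)) (h7.mono Subset.rfl (by simp)), fun x hx xa _ => h4 x hx xa⟩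
      · exact ⟨b, hb.2, hb.1, h6, fun x hx xa _ => h4 x hx xa⟩
  have c2 : (((img φ).erase a).erase z).card = 2 := by
    rw [card_erase_of_mem (by clear * - z1 z2; grind), card_erase_of_mem ha, c4]
  clear td tc rest both inI h1 h2 q hb he
  have k1 := h.half hT (R1 := {a}) (R2 := ∅) (Y := {y}) (by grind) (by simp) (by grind) (by simp)
    (by grind) (by simp) (by simp) ca (by simp) (by simpa using y3)
    fun x hx x1 _ x3 => by simpa using y4 x hx (by grind) (by grind)
  have k2 := h.half hT (R1 := ∅) (R2 := {a}) (Y := ((img φ).erase a).erase z) (by simp) (by grind)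
    (by grind) (by simp) (by simp) (by grind) (by simp) da (by simp [c2])
    (fun x hx => by simpa using z4 x (by grind) (by grind) (by grind))
    fun x hx _ x2 x3 => by rwa [show x = z by grind]
  simp only [c2, card_empty, card_singleton] at k1 k2
  omega

lemma NU.exists_Z (h : M.NU C φ) (h3 : M.Conn3) (hT : M.Tw) (h5 : 5 ≤ M.E.card) :
    ∃ Z, M.Basis Z ∧ M.NR Z := by
  classical
  have c4 := h.e.card_img
  have c1 : ((img φ).filter fun x => M.HasCD rW ∅ {x}).card ≤ 2 := by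
    by_contra h1
    obtain ⟨a, b, e, ha, hb, he, ab, ae, be⟩ := two_lt_card_iff.1 (not_le.1 h1)
    simp only [mem_filter] at ha hb he
    exact h.three_del h3 hT h5 ha.1 hb.1 he.1 ab ae be ha.2 hb.2 he.2
  have c2 : ((img φ).filter fun x => M.HasCD rW {x} ∅).card ≤ 2 := by
    by_contra h1
    obtain ⟨a, b, e, ha, hb, he, ab, ae, be⟩ := two_lt_card_iff.1 (not_le.1 h1)
    simp only [mem_filter] at ha hb he
    exact h.three_con h3 hT h5 ha.1 hb.1 he.1 ab ae be ha.2 hb.2 he.2
  have c3 := card_filter_add_card_filter_not (s := img φ) (fun x => M.HasCD rW {x} ∅)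
  obtain ⟨Y, y1, y2, y3⟩ := exists_subsuperset_card_eq
    (s := (img φ).filter fun x => M.HasCD rW ∅ {x})
    (t := (img φ).filter fun x => ¬ M.HasCD rW {x} ∅) (n := 2)
    (fun x hx => mem_filter.2 ⟨(mem_filter.1 hx).1,
      fun h1 => h.no_double h3 hT h5 h1 (mem_filter.1 hx).2⟩) c1 (by omega)
  refine ⟨C ∪ Y, h.pair (y2.trans (filter_subset _ _)) y3, fun x hx h1 => ?_, fun x hx => ?_⟩
  · rcases mem_union.1 h1 with h1 | h1
    · exact h.con_mem hT hx h1
    · exact (mem_filter.1 (y2 h1)).2 hx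
  · rcases h.del_mem hT hx with h1 | h1
    · exact mem_union_left _ h1
    · exact mem_union_right _ (y1 (mem_filter.2 ⟨h1, hx⟩))

lemma Move.dual {Z : Finset α} {c d : α} (m : M.Move Z c d) (hZ : M.Basis Z) :
    M.dual.Move (M.E \ Z) d c := by
  have a1 := m.mc
  have a2 := m.nc
  have a3 := m.md
  have a4 := hZ.sub
  have hc : c ∈ M.E \ Z := by grind
  refine ⟨a4 a3, by grind, hc, (hZ.dual.adj hc).1 ?_, m.has.dual nice_rW⟩
  rw [← (m.basis hZ).dual.sp]
  congr 1
  grind

lemma small_circuit (h3 : M.Conn3) (hT : M.Tw) (h10 : 10 ≤ M.E.card) {Z : Finset α}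
    (hZ : M.Basis Z) (hN : M.NR Z) {c d : α} (m : M.Move Z c d) :
    ∃ K ⊆ Z, K.card ≤ 4 ∧ M.sp K c ∧ ∀ x ∈ K, M.HasCD rW ∅ {x} := by
  have a1 := m.mc
  have a2 := m.nc
  have a3 := m.md
  have a4 := hZ.sub
  have hd := m.has.mono (empty_subset _) Subset.rfl
  have hc := m.has.mono Subset.rfl (empty_subset _)
  have a5 : ({c, d} : Finset α) ⊆ M.E := by grind
  have a6 : (M.E \ {c, d}).card + 2 = M.E.card := by
    rw [← card_pair (show c ≠ d by grind)]; exact card_sdiff_add_card_eq_card a5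
  have a7 : M.E \ {c, d} ⊆ (M.con {c}).E := by grind [con_E]
  have a8 : ({c} : Finset α) ⊆ M.E := by grind
  have a9 : (M.con {c}).Free := hT.free a8 Subset.rfl (Or.inl ⟨c, by simp, hc⟩)
  have a10 := card_eq_two_mul _ ((M.con {c}).res (M.E \ {c, d})) (Z.erase d) rfl
    (a9.res a7) ((m.basis_con hZ).res (by grind) a7)
    (((hN.con a8).res a7).congr (by grind [res_E]))
    (((m.has.to_con Subset.rfl).to_res (D2 := ∅) (by grind [con_E]) (by simp)).mono (by simp)
      Subset.rfl)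
  rw [res_E] at a10
  rcases Nat.lt_or_ge 10 M.E.card with h11 | h11
  · have h1 := m.has.to_con Subset.rfl
    rw [Finset.sdiff_self] at h1
    have a11 := card_sdiff_add_card_eq_card a8
    obtain ⟨x, hx, hs⟩ := ss_all ((Z.erase d).card - 5) (M.con {c}) (Z.erase d) d a9
      (by rw [con_E]; rw [card_singleton] at a11; omega) (by simp) (m.basis_con hZ) h1
      ((hN.con a8).congr (by grind))
    rw [con1_sp] at hs
    have b1 : M.sp {d, x} c := hs.exch (hZ.ind.not_sp a3 (by grind) (by grind))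
    have b2 : ¬ M.sp {d} c := by
      have := (h3.pair (by omega) a1 (a4 a3) (by grind)).1
      have := M.single_le d
      unfold sp; omega
    have b3 : M.sp {c, d} x := by
      rw [pair_comm d x] at b1
      exact b1.exch b2
    refine ⟨{d, x}, by grind, le_trans card_le_two (by omega), b1, fun y hy => ?_⟩
    rcases mem_insert.1 hy with rfl | hy
    · exact hd
    · rw [mem_singleton.1 hy]
      exact (((h1.mono Subset.rfl (empty_subset _)).par nice_rW (a := d) (b := x) (by grind [con_E])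
        (by grind [con_E]) (by grind) (con1_sp.2 b3)).of_con a8).mono (by simp) Subset.rfl
  · obtain ⟨C, φ, e, m4, m5⟩ := m.has
    have b1 := e.img_sub
    have b2 := @e.not_img
    have b3 := e.sub
    simp only [singleton_subset_iff] at m4 m5
    have b4 : insert c (insert d (img φ)) = M.E := eq_of_subset_of_card_le (by grind) (by
      rw [card_insert_of_notMem (by grind), card_insert_of_notMem (by grind), e.card_img]; omega)
    have b5 : C = {c} := by
      refine eq_singleton_iff_unique_mem.2 ⟨m4, fun x hx => ?_⟩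
      have u1 := b3 hx
      have u2 := b2 hx
      rw [← b4] at u1
      clear * - u1 u2 hx m5
      grind
    subst b5
    obtain ⟨K, k1, k2, k3, k4⟩ := exists_K hN e m5 (hT.loc h10 _ _ _ e m5)
    have k5 : ∀ x ∈ K, M.HasCD rW ∅ {x} := fun x hx => (k4 x hx).mono (empty_subset _) Subset.rfl
    have k6 : K ⊆ Z := fun x hx => hN.2 x (k5 x hx)
    rw [union_comm, ← insert_eq] at k3
    refine ⟨insert d K, insert_subset a3 k6, le_trans (card_insert_le _ _) (by omega),
      k3.exch (hZ.ind.not_sp a3 k6 (by clear * - k1 m5; grind)), fun y hy => ?_⟩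
    rcases mem_insert.1 hy with rfl | hy
    · exact hd
    · exact k5 y hy

lemma NU.two_in (h : M.NU C φ) (hT : M.Tw) {K : Finset α} (hK : ∀ x ∈ K, M.HasCD rW ∅ {x})
    {c : α} (hc : M.HasCD rW {c} ∅) (hcK : c ∉ K) (hs : M.sp K c) : 2 ≤ (K ∩ img φ).card := by
  by_contra h1
  have h2 : ¬ M.sp C c := fun h2 => by
    refine hT.c c ((h.e.add_loop hc.memC (fun h3 => ?_) h2).hasC (by simp)) hc
    obtain ⟨i, rfl⟩ := mem_img.1 h3
    exact h.e.not_sp1 nice_rU i h2
  have h3 := fun x hx => h.del_mem hT (hK x hx)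
  rcases (K ∩ img φ).eq_empty_or_nonempty with h4 | ⟨x, hx⟩
  · exact h2 (hs.mono fun x hx => (h3 x hx).resolve_right fun h5 =>
      notMem_empty x (h4 ▸ mem_inter.2 ⟨hx, h5⟩))
  · obtain ⟨i, rfl⟩ := mem_img.1 (mem_inter.1 hx).2
    have h4 := card_le_one.1 (show (K ∩ img φ).card ≤ 1 by omega) _ hx
    have h5 : M.sp (insert (φ i) C) c := hs.mono fun x hx => (h3 x hx).elim mem_insert_of_mem
      fun h5 => h4 x (mem_inter.2 ⟨hx, h5⟩) ▸ mem_insert_self _ _
    have h6 : c ∉ img φ := fun h6 => by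
      obtain ⟨j, rfl⟩ := mem_img.1 h6
      exact h.e.not_sp2 nice_rU (i := j) (j := i) (by grind) h5
    exact hT.d _ (h.upd_del h6 (h.e.swap i hc.memC (h.con_mem hT hc) h6 h5 (h5.exch h2)))
      (hK _ (mem_inter.1 hx).1)

lemma NU.rest (h : M.NU C φ) (hT : M.Tw) {K W : Finset α} (hK : ∀ x ∈ K, M.HasCD rW ∅ {x})
    (hW : W ⊆ M.E) (hWK : ∀ x ∈ W, x ∉ K) (h1 : ∀ C φ, M.NU C φ → ∀ x ∈ W, x ∉ img φ) :
    M.r W ≤ (C \ K).card := by
  refine le_trans (r_le_of_sp fun g hg => ?_) (M.le_card _)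
  by_cases hgC : g ∈ C
  · exact sp_of_mem (mem_sdiff.2 ⟨hgC, hWK g hg⟩)
  have h2 : M.sp C g := by
    by_contra h2
    obtain ⟨t, -, t2⟩ := h.repl (hW hg) h2 0
    exact h1 _ _ t2 g hg (mem_img.2 ⟨t, by simp⟩)
  refine sp_sdiff h.i h2 fun x hx => ?_
  by_cases hxC : x ∈ C
  · by_contra h3
    have h4 : M.sp (insert g (C.erase x)) x := sp.exch (by rwa [insert_erase hxC]) h3
    have h5 := h1 _ _ h g hg
    have e := h.e.of_cl (C' := insert g (C.erase x)) (insert_subset (hW hg)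
      ((erase_subset _ _).trans h.e.sub)) (fun i => by
        have := h.e.nmem i
        have := self_mem_img φ i
        grind) (fun y hy => by
        by_cases hyx : y = x
        · exact hyx ▸ h4
        · exact sp_of_mem (by grind)) fun y hy => by
        rcases mem_insert.1 hy with rfl | hy
        · exact h2
        · exact sp_of_mem (mem_of_mem_erase hy)
    exact hT.d x (e.hasD (h.e.sub hxC) (by grind) (h.e.not_img hxC)) (hK x hx)
  · rwa [erase_eq_of_notMem hxC]

theorem twine_false (h3 : M.Conn3) (hT : M.Tw) (hU : M.HasCD rU ∅ ∅) (hW : M.HasCD rW ∅ ∅)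
    (h10 : 10 ≤ M.E.card) : False := by
  obtain ⟨C, φ, h⟩ := exists_NU hU
  obtain ⟨Z, hZ, hN⟩ := h.exists_Z h3 hT (by omega)
  obtain ⟨c, d, m⟩ := exists_move (hT.loc h10) (hT.dual.loc h10) hZ hN hW (by omega)
  obtain ⟨K, k1, k2, k3, k4⟩ := small_circuit h3 hT h10 hZ hN m
  obtain ⟨L, l1, l2, l3, l4⟩ := small_circuit h3.dual hT.dual h10 hZ.dual hN.dual (m.dual hZ)
  have hc := m.has.mono Subset.rfl (empty_subset _)
  have hd := (m.has.dual nice_rW).mono Subset.rfl (empty_subset _)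
  have cK : c ∉ K := fun h1 => m.nc (k1 h1)
  have dL : d ∉ L := fun h1 => (mem_sdiff.1 (l1 h1)).2 m.md
  have cover : ∀ C φ, M.NU C φ → ∀ x ∈ M.E \ (K ∪ L), x ∉ img φ := by
    intro C φ h x hx hx1
    obtain ⟨ψ, h', hψ⟩ := h.dual
    have t1 := h.two_in hT k4 hc cK k3
    have t2 := h'.two_in hT.dual l4 hd dL l3
    rw [hψ] at t2
    have t3 : (K ∩ img φ ∪ L ∩ img φ).card = (K ∩ img φ).card + (L ∩ img φ).card :=
      card_union_of_disjoint (disjoint_left.2 (by clear * - k1 l1; grind))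
    have t4 : (K ∩ img φ ∪ L ∩ img φ).card ≤ ((img φ).erase x).card :=
      card_le_card (by clear * - hx; grind)
    have t5 := card_erase_add_one hx1
    have t6 := h.e.card_img
    omega
  obtain ⟨ψ, h', hψ⟩ := h.dual
  have r1 := h.rest hT k4 (W := M.E \ (K ∪ L)) sdiff_subset (by clear * -; grind) cover
  have r2 := h'.rest hT.dual l4 (W := M.E \ (K ∪ L)) sdiff_subset (by clear * -; grind)
    fun C φ h x hx => by
      obtain ⟨ψ, h', hψ⟩ := h.dual
      exact hψ ▸ cover _ _ (h'.congr M.dual_dual) x hx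
  have t1 := h.two_in hT k4 hc cK k3
  have s1 := cover _ _ h
  have s2 : ∀ x ∈ L, x ∉ C := fun x hx => h.con_mem hT ((l4 x hx).of_dual nice_rW)
  have s3 := fun x hx => h.del_mem hT (k4 x hx)
  have s4 := h.e.sub
  have s5 := hZ.sub
  clear cover k4 l4
  have c1 : (C \ K ∪ (M.E \ (C ∪ img φ)) \ L).card = (C \ K).card + ((M.E \ (C ∪ img φ)) \ L).card :=
    card_union_of_disjoint (disjoint_left.2 (by grind))
  have c2 : (C \ K ∪ (M.E \ (C ∪ img φ)) \ L).card ≤ (M.E \ (K ∪ L)).card := card_le_card (by grind)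
  rw [M.dual_r sdiff_subset] at r2
  have c3 : (M.E \ (K ∪ L)).Nonempty := by
    rw [← card_pos]
    have := card_union_le K L
    have := le_card_sdiff (K ∪ L) M.E
    omega
  obtain ⟨x, hx⟩ := card_pos.1 (show 0 < (K ∩ img φ).card by omega)
  have := h3.1 _ sdiff_subset c3 ⟨x, by grind⟩
  omega

theorem exists_nine (k : ℕ) : ∀ M : RM α, M.E.card = k → M.Good rW →
    ∃ C F, C ⊆ M.E ∧ F ⊆ M.E \ C ∧ F.card = 9 ∧ ((M.con C).res F).Good rW := by
  induction k using Nat.strong_induction_on with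
  | _ k ih =>
    intro M hk hg
    by_cases hm : M.Min rW
    · have hT : M.Tw := ⟨fun f => not_both_con nice_rW hg.1 hm, fun f => not_both_del nice_rW hg.1 hm⟩
      have h1 : ¬ 10 ≤ M.E.card := twine_false hg.1 hT hg.2.1 hg.2.2
      have h2 : ¬ M.E.card ≤ 8 := by
        intro h2
        obtain ⟨C, φ, e, -⟩ := hg.2.2
        have a1 : img φ = M.E := eq_of_subset_of_card_le e.img_sub (by rw [e.card_img]; exact h2)
        have a2 : C = ∅ := by
          have := e.sub
          have := @e.not_img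
          grind
        subst a2
        refine Rep.free (v := fun x => ∑ i ∈ univ.filter (fun i => φ i = x), xn (wv i))
          XN.add_self (fun S hS => ?_) hg.2.1
        rw [← a1] at hS
        obtain ⟨S', -, rfl⟩ := subset_image_iff.1 hS
        have a3 : M.Ind (S'.image φ) ↔ wheel.Ind S' := by
          have := e.rk S'
          rw [union_empty, M.r_empty, zero_add] at this
          unfold Ind
          rw [this, card_image_of_injective _ e.inj]
          rfl
        have a4 : ∀ T : Finset (Fin 8), ∑ x ∈ T.image φ, ∑ i ∈ univ.filter (fun i => φ i = x),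
            xn (wv i) = ∑ i ∈ T, xn (wv i) := fun T => by
          rw [sum_image fun _ _ _ _ h => e.inj h]
          refine sum_congr rfl fun j _ => ?_
          simp [e.inj.eq_iff, filter_eq']
        rw [a3, wheel_ind]
        constructor
        · intro h T hT hT1
          obtain ⟨T', hT', rfl⟩ := subset_image_iff.1 hT
          rw [a4, and_self]
          exact h T' hT' (image_nonempty.1 hT1)
        · intro h T hT hT1
          rw [← a4]
          exact (h _ (image_subset_image hT) (hT1.image _)).1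
      exact ⟨∅, M.E, empty_subset _, by simp, by omega,
        hg.congr ⟨rfl, fun S _ => by simp [M.r_empty]⟩⟩
    · unfold Min at hm
      push Not at hm
      obtain ⟨C, F, h1, h2, h3, h4⟩ := hm
      obtain ⟨C', F', g1, g2, g3, g4⟩ := ih F.card
        (hk ▸ card_lt_card ⟨h2.trans sdiff_subset, fun h5 =>
          h3 (Subset.antisymm (h2.trans sdiff_subset) h5)⟩) _ rfl h4
      simp only [res_E] at g1 g2
      refine ⟨C' ∪ C, F', by grind, by grind, g3, g4.congr ⟨rfl, fun S _ => ?_⟩⟩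
      simp only [res_r, con_r, union_assoc]
      omega

end RM

end Pool.Agent.Work.MP_6b71e5_co
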