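import Pool.Agent.Work.MP_6b71e5_co.Graph
import Pool.Agent.Work.MP_6b71e5_co.Top
import Mathlib.LinearAlgebra.LinearIndependent.Basic
import Mathlib.Algebra.Field.ZMod

/-! Translation between Mathlib matroids and integer rank functions. -/

namespace Pool.Agent.Work.MP_6b71e5_co

open scoped Matroid

variable {α : Type*} [DecidableEq α]

/-- the rank function `P` models the matroid `M` -/
structure Mod (M : Matroid α) (P : RM α) : Prop where
  gr : (P.E : Set α) = M.E
  ind : ∀ S ⊆ P.E, P.Ind S ↔ M.Indep (S : Set α)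

variable {M : Matroid α} {P : RM α}

lemma Mod.mem (h : Mod M P) {x : α} : x ∈ P.E ↔ x ∈ M.E := by rw [← h.gr, Finset.mem_coe]

lemma Mod.fin (h : Mod M P) {X : Set α} (hX : X ⊆ M.E) : ∃ S : Finset α, S ⊆ P.E ∧ (S : Set α) = X := by
  rw [← h.gr] at hX
  have hf : X.Finite := P.E.finite_toSet.subset hX
  exact ⟨hf.toFinset, fun x hx => hX (hf.mem_toFinset.1 hx), hf.coe_toFinset⟩

lemma Mod.rk (h : Mod M P) {S : Finset α} (hS : S ⊆ P.E) :
    ∃ k : ℕ, M.eRk S = k ∧ P.r S = k := by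
  obtain ⟨B, -, h1, h2, h3⟩ := RM.exists_basis (M := P) (S := S) RM.ind_empty (Finset.empty_subset _)
  refine ⟨B.card, le_antisymm (Matroid.eRk_le_iff.2 fun I hI hI2 => ?_) ?_, h3 ▸ h2⟩
  · obtain ⟨T, hT, rfl⟩ := h.fin hI2.subset_ground
    have h4 := (h.ind T hT).2 hI2
    have h5 := P.mono (Finset.coe_subset.1 hI)
    unfold RM.Ind at h4 h2
    rw [Set.encard_coe_eq_coe_finsetCard, Nat.cast_le]
    omega
  · rw [← Set.encard_coe_eq_coe_finsetCard]
    exact ((h.ind B (h1.trans hS)).1 h2).encard_le_eRk_of_subset (Finset.coe_subset.2 h1)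

lemma exists_mod (M : Matroid α) [M.Finite] : ∃ P, Mod M P := by
  have key : ∀ S : Finset α, ∃ k : ℕ, M.eRk S = k := fun S =>
    (ENat.ne_top_iff_exists.1 (ne_top_of_le_ne_top S.finite_toSet.encard_lt_top.ne
      (M.eRk_le_encard S))).imp fun _ h => h.symm
  choose k hk using key
  refine ⟨⟨M.ground_finite.toFinset, fun S => k S, ?_, fun S T h => ?_, fun S e => ?_,
    fun S T => ?_⟩, M.ground_finite.coe_toFinset, fun S _ => ?_⟩
  · have := hk ∅
    rw [Finset.coe_empty, Matroid.eRk_empty] at this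
    exact_mod_cast this.symm
  · have := M.eRk_mono (Finset.coe_subset.2 h)
    rw [hk, hk] at this
    exact_mod_cast this
  · have := M.eRk_insert_le_add_one e S
    rw [← Finset.coe_insert, hk, hk] at this
    exact_mod_cast this
  · have := M.eRk_inter_add_eRk_union_le S T
    rw [← Finset.coe_inter, ← Finset.coe_union, hk, hk, hk, hk, add_comm] at this
    exact_mod_cast this
  · show ((k S : ℤ) = S.card) ↔ _
    rw [Matroid.indep_iff_eRk_eq_encard_of_finite S.finite_toSet, hk,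
      Set.encard_coe_eq_coe_finsetCard]
    norm_cast

lemma Mod.minor (h : Mod M P) {C F : Finset α} {D : Set α} (hC : C ⊆ P.E)
    (hF : (F : Set α) = (M.E \ C) \ D) : Mod (M ／ C ＼ D) ((P.con C).res F) := by
  refine ⟨hF, fun S hS => ?_⟩
  have hS' : (S : Set α) ⊆ (M.E \ C) \ D := hF ▸ Finset.coe_subset.2 hS
  obtain ⟨B, -, h1, h2, h3⟩ := RM.exists_basis (M := P) (S := C) RM.ind_empty (Finset.empty_subset _)
  have hB : M.IsBasis' B C := by
    refine ((h.ind B (h1.trans hC)).1 h2).isBasis'_of_eRk_ge B.finite_toSet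
      (Finset.coe_subset.2 h1) ?_
    obtain ⟨a, a1, a2⟩ := h.rk hC
    obtain ⟨b, b1, b2⟩ := h.rk (h1.trans hC)
    rw [a1, b1, Nat.cast_le]
    omega
  have hSE : S ⊆ P.E := fun x hx => h.mem.2 (hS' hx).1.1
  have hSC : Disjoint S C := Finset.disjoint_left.2 fun x hx => (hS' hx).1.2
  rw [Matroid.delete_indep_iff, hB.contract_indep_iff, ← Finset.coe_union,
    ← h.ind _ (Finset.union_subset hSE (h1.trans hC)),
    and_iff_left (Set.disjoint_left.2 fun x hx => (hS' hx).2),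
    and_iff_left (Finset.disjoint_coe.2 hSC.symm)]
  have h4 : P.r (S ∪ B ∪ C) = P.r (S ∪ B) :=
    RM.r_union_of_sp fun e he => (RM.sp_of_r_le h1 he h3.ge).mono Finset.subset_union_right
  rw [Finset.union_assoc, Finset.union_eq_right.2 h1] at h4
  unfold RM.Ind at *
  rw [RM.res_r, RM.con_r, Finset.card_union_of_disjoint (hSC.mono_right h1)]
  push_cast
  omega

lemma Mod.sep (h : Mod M P) (k : ℕ) : (∀ X Y, ¬ IsSeparation M k X Y) ↔
    ∀ A ⊆ P.E, k ≤ A.card → k ≤ (P.E \ A).card → P.r P.E + k ≤ P.r A + P.r (P.E \ A) := by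
  obtain ⟨c, c1, c2⟩ := h.rk Finset.Subset.rfl
  rw [h.gr, Matroid.eRk_ground] at c1
  constructor
  · intro hs A hA h1 h2
    obtain ⟨a, a1, a2⟩ := h.rk hA
    obtain ⟨b, b1, b2⟩ := h.rk (Finset.sdiff_subset (s := P.E) (t := A))
    by_contra hc
    refine hs A (P.E \ A : Finset α) ⟨Finset.disjoint_coe.2 Finset.disjoint_sdiff, ?_, ?_, ?_, ?_⟩
    · rw [← Finset.coe_union, Finset.union_sdiff_of_subset hA, h.gr]
    · rw [Set.encard_coe_eq_coe_finsetCard]; exact_mod_cast h1
    · rw [Set.encard_coe_eq_coe_finsetCard]; exact_mod_cast h2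
    · rw [a1, b1, c1]
      norm_cast
      omega
  · rintro hs X Y ⟨h1, h2, h3, h4, h5⟩
    obtain ⟨A, hA, rfl⟩ := h.fin (h2 ▸ Set.subset_union_left : X ⊆ M.E)
    have hY : Y = (P.E \ A : Finset α) := by
      rw [Finset.coe_sdiff, h.gr, ← h2, Set.union_sdiff_cancel_left h1.le_bot]
    subst hY
    obtain ⟨a, a1, a2⟩ := h.rk hA
    obtain ⟨b, b1, b2⟩ := h.rk (Finset.sdiff_subset (s := P.E) (t := A))
    rw [Set.encard_coe_eq_coe_finsetCard, Nat.cast_le] at h3 h4
    have := hs A hA h3 h4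
    rw [a1, b1, c1] at h5
    norm_cast at h5
    omega

lemma Mod.three (h : Mod M P) : IsThreeConnected M ↔ P.Conn3 := by
  constructor
  · intro h3
    exact ⟨fun A hA h1 h2 => (h.sep 1).1 (h3 1 (Or.inl rfl)) A hA h1.card_pos h2.card_pos,
      (h.sep 2).1 (h3 2 (Or.inr rfl))⟩
  · rintro ⟨h1, h2⟩ k (rfl | rfl)
    · exact (h.sep 1).2 fun A hA a b => h1 A hA (Finset.card_pos.1 a) (Finset.card_pos.1 b)
    · exact (h.sep 2).2 h2

lemma li_iff {V : Type*} [AddCommGroup V] [Module (ZMod 2) V] (v : α → V) (S : Finset α) :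
    LinearIndepOn (ZMod 2) v S ↔ ∀ T ⊆ S, T.Nonempty → ∑ e ∈ T, v e ≠ 0 := by
  rw [linearIndepOn_finset_iff]
  constructor
  · rintro h T hT ⟨t, ht⟩ h0
    have := h (fun e => if e ∈ T then 1 else 0) (by
      simp only [ite_smul, one_smul, zero_smul]
      rw [Finset.sum_ite_mem, Finset.inter_eq_right.2 hT, h0]) t (hT ht)
    simp [ht] at this
  · intro h f hf i hi
    by_contra h1
    refine h (S.filter fun e => f e = 1) (Finset.filter_subset _ _)
      ⟨i, Finset.mem_filter.2 ⟨hi, (RM.zmod2_cases _).resolve_left h1⟩⟩ ?_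
    rw [← hf, Finset.sum_filter]
    refine Finset.sum_congr rfl fun e _ => ?_
    rcases RM.zmod2_cases (f e) with h2 | h2 <;> simp [h2]

lemma Mod.binary (h : Mod M P) : IsBinary M ↔ P.Free := by
  constructor
  · rintro ⟨n, v, hv⟩
    refine RM.Rep.free (v := v) (fun a => funext fun i => CharTwo.add_self_eq_zero (a i))
      fun S hS => ?_
    rw [h.ind S hS, hv _ (h.gr ▸ Finset.coe_subset.2 hS), li_iff]
    simp only [and_self]
  · intro hF
    obtain ⟨X, hX, -⟩ := RM.exists_Basis (M := P) RM.ind_empty (Finset.empty_subset _)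
    refine ⟨X.card, fun e i => P.co X (X.equivFin.symm i) e, fun I hI => ?_⟩
    obtain ⟨S, hS, rfl⟩ := h.fin hI
    rw [← h.ind S hS, li_iff, RM.ind_iff_cyc hF hX hS]
    refine forall_congr' fun T => forall_congr' fun _ => forall_congr' fun _ => not_congr ?_
    rw [funext_iff]
    simp only [Finset.sum_apply, Pi.zero_apply]
    exact ⟨fun h1 i => h1 _ (X.equivFin.symm i).2,
      fun h1 x hx => by simpa using h1 (X.equivFin ⟨x, hx⟩)⟩

lemma Mod.isWheel (h : Mod M P) : IsWheel4 M ↔ ∃ φ, P.Emb rW ∅ φ ∧ img φ = P.E := by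
  constructor
  · rintro ⟨f, hf⟩
    have hφ : Function.Injective fun i => (f (edge i) : α) :=
      Subtype.val_injective.comp (f.injective.comp edge_bij.1)
    have hE : ∀ i, (f (edge i) : α) ∈ P.E := fun i => h.mem.2 (f (edge i)).2
    refine ⟨_, ⟨hφ, hE, by simp, by simp, fun S => ?_⟩, ?_⟩
    · rw [Finset.union_empty, P.r_empty, zero_add]
      refine RM.r_eq_of_ind (N := wheel) _ hφ (fun S => ?_) S
      rw [h.ind _ (Finset.image_subset_iff.2 fun i _ => hE i), ← acyclic_iff, MP_6b71e5_co.gr, ← hf,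
        Finset.coe_image, Set.image_image]
    · refine Finset.Subset.antisymm (Finset.image_subset_iff.2 fun i _ => hE i) fun x hx => ?_
      obtain ⟨i, hi⟩ := edge_bij.2 (f.symm ⟨x, h.mem.1 hx⟩)
      exact mem_img.2 ⟨i, by simp [hi]⟩
  · rintro ⟨φ, e, hφ⟩
    have hb : Function.Bijective fun i => (⟨φ i, h.mem.1 (e.mem i)⟩ : M.E) := by
      refine ⟨fun i j hij => e.inj (congrArg Subtype.val hij), fun x => ?_⟩
      obtain ⟨i, hi⟩ := mem_img.1 (hφ.ge (h.mem.2 x.2))
      exact ⟨i, Subtype.ext hi⟩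
    refine ⟨(Equiv.ofBijective _ edge_bij).symm.trans (Equiv.ofBijective _ hb), fun S => ?_⟩
    obtain ⟨T, rfl⟩ : ∃ T : Finset (Fin 8), S = edge '' T :=
      ⟨(Set.toFinite (edge ⁻¹' S)).toFinset, by
        rw [Set.Finite.coe_toFinset, Set.image_preimage_eq _ edge_bij.2]⟩
    have h1 : (fun x => (((Equiv.ofBijective _ edge_bij).symm.trans (Equiv.ofBijective _ hb)) x : α))
        '' (edge '' T) = (T.image φ : Finset α) := by
      rw [Set.image_image, Finset.coe_image]
      refine Set.image_congr fun i _ => ?_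
      have : (Equiv.ofBijective _ edge_bij).symm (edge i) = i :=
        (Equiv.ofBijective _ edge_bij).symm_apply_apply i
      simp [this]
    rw [h1, ← h.ind _ ((image_sub_img φ T).trans e.img_sub)]
    refine Iff.trans ?_ (acyclic_iff T).symm
    have h2 := e.rk T
    rw [Finset.union_empty, P.r_empty, zero_add] at h2
    unfold RM.Ind
    rw [h2, Finset.card_image_of_injective _ e.inj]
    rfl

lemma Mod.wheel (h : Mod M P) : HasWheel4Minor M ↔ P.HasCD rW ∅ ∅ := by
  constructor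
  · rintro ⟨N, hN, hW⟩
    obtain ⟨C, D, hC, -, -, rfl⟩ := hN.exists_eq_contract_delete_disjoint
    obtain ⟨C, hC', rfl⟩ := h.fin hC
    obtain ⟨F, hF, hF'⟩ := h.fin (X := (M.E \ C) \ D) (Set.sdiff_subset.trans Set.sdiff_subset)
    obtain ⟨φ, e, -⟩ := (h.minor hC' hF').isWheel.1 hW
    refine ((e.of_res fun x hx => Finset.mem_sdiff.2 ⟨hF hx, ?_⟩).of_con hC').has
    exact (hF' ▸ Finset.mem_coe.2 hx : x ∈ (M.E \ C) \ D).1.2
  · rintro ⟨C, φ, e, -⟩
    have hF : (img φ : Set α) = (M.E \ C) \ (img φ : Set α)ᶜ := by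
      rw [Set.sdiff_compl]
      refine (Set.inter_eq_right.2 fun x hx => ?_).symm
      exact ⟨h.mem.1 (e.img_sub hx), fun h1 => e.not_img h1 hx⟩
    refine ⟨_, Matroid.contract_delete_isMinor _ _ _, (h.minor e.sub hF).isWheel.2 ⟨φ, ?_, rfl⟩⟩
    have := (e.to_con Finset.Subset.rfl).to_res (F := img φ) (by simp) (self_mem_img φ)
    rwa [Finset.sdiff_self] at this

theorem nine {α : Type*} (M : Matroid α) [M.Finite] (h3 : IsThreeConnected M) (hb : ¬ IsBinary M)
    (hw : HasWheel4Minor M) :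
    ∃ N, N ≤m M ∧ N.E.encard = 9 ∧ IsThreeConnected N ∧ ¬ IsBinary N ∧ HasWheel4Minor N := by
  classical
  obtain ⟨P, h⟩ := exists_mod M
  obtain ⟨C, F, hC, hF, h9, g1, g2, g3⟩ := RM.exists_nine _ P rfl
    ⟨h.three.1 h3, not_not.1 fun h1 => hb (h.binary.2 h1), h.wheel.1 hw⟩
  have hF' : (F : Set α) = (M.E \ C) \ (F : Set α)ᶜ := by
    rw [Set.sdiff_compl, ← h.gr, ← Finset.coe_sdiff]
    exact (Set.inter_eq_right.2 (Finset.coe_subset.2 hF)).symm
  have h' := h.minor hC hF'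
  refine ⟨_, Matroid.contract_delete_isMinor _ _ _, ?_, h'.three.2 g1,
    fun h1 => h'.binary.1 h1 g2, h'.wheel.2 g3⟩
  rw [← h'.gr, Set.encard_coe_eq_coe_finsetCard, RM.res_E, h9]
  rfl

end Pool.Agent.Work.MP_6b71e5_co
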