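import Pool.Agent.Work.MP_6b71e5_co.Conn

/-! In a minimal good matroid no element can be contracted keeping each of the two minors. -/

namespace Pool.Agent.Work.MP_6b71e5_co

open Finset

variable {α : Type*} [DecidableEq α] {n m : ℕ}

namespace RM

variable {M : RM α} {ρ : Finset (Fin n) → ℤ} {τ : Finset (Fin m) → ℤ}

lemma con1_sp {f x : α} {S : Finset α} : (M.con {f}).sp S x ↔ M.sp (insert f S) x := by
  unfold sp
  rw [con1_r, con1_r, insert_comm]
  omega

lemma Emb.sep1 {C : Finset α} {φ : Fin m → α} (h : M.Emb τ C φ) (hτ : Nice τ) {f : α} (hf : f ∈ C)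
    (h1 : M.r {f} = 1) {X : Finset α} (hfX : f ∉ X)
    (hl : M.r (insert f X) + M.r (M.E \ X) ≤ M.r M.E + 2) :
    cnt φ X ≤ 1 ∨ cnt φ (M.E \ X) ≤ 1 := by
  have hfE := h.sub hf
  refine (h.to_con (C0 := {f}) (by simpa using hf)).sep hτ (by grind [con_E]) ?_ (by grind)
  have e1 : insert f (M.E \ {f}) = M.E := by grind
  have e2 : insert f (M.E \ X) = M.E \ X := by grind
  simp only [con_E, con1_r, e1, e2]
  omega

lemma Emb.move_con1 {C : Finset α} {φ : Fin m → α} (h : M.Emb τ C φ) (hτ : Nice τ) {f : α}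
    (hf : f ∈ C) (h1 : M.r {f} = 1) {X : Finset α} (hX : X ⊆ M.E) (hfX : f ∉ X)
    (hl : M.r (insert f X) + M.r (M.E \ X) ≤ M.r M.E + 2) (hc : cnt φ X ≤ 1) {x : α} (hx : x ∈ X)
    (hs : ¬ M.sp (M.E \ X) x) : ∃ C' φ', M.Emb τ C' φ' ∧ x ∈ C' ∧ cnt φ' X ≤ 1 := by
  have hfE := h.sub hf
  have e1 : insert f (M.E \ {f}) = M.E := by grind
  have e2 : insert f ((M.E \ {f}) \ X) = M.E \ X := by grind
  obtain ⟨C', φ', h2, h3, h4⟩ := (h.to_con (C0 := {f}) (by simpa using hf)).move_con hτ (A := X)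
    (by grind [con_E]) (by simp only [con_E, con1_r, e1, e2]; omega) hc hx
    (by rw [con1_sp, con_E, e2]; exact hs)
  exact ⟨_, φ', h2.of_con (by simpa using hfE), by grind, h4⟩

lemma Emb.move_del1 {C : Finset α} {φ : Fin m → α} (h : M.Emb τ C φ) (hτ : Nice τ) {f : α}
    (hf : f ∈ C) (h1 : M.r {f} = 1) {X : Finset α} (hX : X ⊆ M.E) (hfX : f ∉ X)
    (hl : M.r (insert f X) + M.r (M.E \ X) ≤ M.r M.E + 2) (hc : cnt φ X ≤ 1) {x : α} (hx : x ∈ X)
    (hs : M.sp (insert f (X.erase x)) x) : M.HasCD τ ∅ {x} := by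
  have hfE := h.sub hf
  have e1 : insert f (M.E \ {f}) = M.E := by grind
  have e2 : insert f ((M.E \ {f}) \ X) = M.E \ X := by grind
  exact (((h.to_con (C0 := {f}) (by simpa using hf)).move_del hτ (A := X)
    (by grind [con_E]) (by simp only [con_E, con1_r, e1, e2]; omega) hc hx
    (con1_sp.2 hs)).of_con (by simpa using hfE)).mono (by simp) Subset.rfl

lemma not_four (hρ : Nice ρ) (h3 : M.Conn3) (hm : M.Min ρ) {x : α} (h1 : M.HasCD rU {x} ∅)
    (h2 : M.HasCD ρ {x} ∅) (h4 : M.HasCD rU ∅ {x}) (h5 : M.HasCD ρ ∅ {x}) : False := by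
  obtain ⟨A, hA⟩ := exists_vert hρ h3 hm h1 h2
  obtain ⟨A', hA'⟩ := exists_vert hρ h3.dual (hm.dual hρ) (h4.dual nice_rU) (h5.dual hρ)
  exact bixby h3 (h1.mono (empty_subset _) Subset.rfl).card hA hA'

/-- both minors on the same side of a vertical separation -/
lemma same_side (hρ : Nice ρ) (h3 : M.Conn3) (hm : M.Min ρ) {f : α} {X C1 C2 : Finset α}
    {φ1 : Fin 4 → α} {φ2 : Fin n → α} (hV : M.Vert f X) (e1 : M.Emb rU C1 φ1) (f1 : f ∈ C1)
    (c1 : cnt φ1 X ≤ 1) (e2 : M.Emb ρ C2 φ2) (f2 : f ∈ C2) (c2 : cnt φ2 X ≤ 1) : False := by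
  have h4 := e1.has.card
  have hf := hV.mem
  have hX := hV.sub
  have hfX := hV.nmem
  have hl := hV.l
  have hs := hV.s
  have h1 := (h3.1.single (by omega) hf).1
  obtain ⟨x, hx, hx1⟩ := exists_not_sp (M := M) (S := M.E \ X) (T := M.E) (by omega)
  have hxX : x ∈ X := by
    by_contra h
    exact hx1 (sp_of_mem (by grind))
  have h2 := (h3.1.single (by omega) hx).2
  obtain ⟨y, hy, hy1⟩ := exists_not_sp (M := M) (S := M.E \ X) (T := M.E \ {x}) (by omega)
  have hyX : y ∈ X := by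
    by_contra h
    exact hy1 (sp_of_mem (by grind))
  have hxy : x ≠ y := by grind
  have key : ∀ z ∈ X, ¬ M.sp (M.E \ X) z → ¬ M.sp (insert f (X.erase z)) z := fun z hz hz1 hz2 => by
    obtain ⟨C', φ', t1, t2, -⟩ := e1.move_con1 nice_rU f1 h1 hX hfX hs c1 hz hz1
    obtain ⟨C'', φ'', t3, t4, -⟩ := e2.move_con1 hρ f2 h1 hX hfX hs c2 hz hz1
    exact not_four hρ h3 hm (t1.hasC t2) (t3.hasC t4) (e1.move_del1 nice_rU f1 h1 hX hfX hs c1 hz hz2)
      (e2.move_del1 hρ f2 h1 hX hfX hs c2 hz hz2)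
  have k1 := not_sp (key x hxX hx1)
  have k2 := not_sp (S := insert f ((X.erase x).erase y)) (e := y)
    fun h => key y hyX hy1 (h.mono (by grind))
  have q1 : insert x (insert f (X.erase x)) = insert f X := by grind
  have q2 : insert y (insert f ((X.erase x).erase y)) = insert f (X.erase x) := by grind
  rw [q1] at k1
  rw [q2] at k2
  have k3 := (h3.pair h4 hx (y := y) (by grind) hxy).2
  have k4 := M.sub (insert f ((X.erase x).erase y)) (M.E \ X) (M.E \ {x, y}) {f} (by grind) (by grind)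
  omega

/-- the two minors on opposite sides of a 2-separation of the contraction of `f` -/
structure Cfg (M : RM α) (ρ : Finset (Fin n) → ℤ) (f : α) (X : Finset α) : Prop where
  mem : f ∈ M.E
  sub : X ⊆ M.E
  nmem : f ∉ X
  s : M.r (insert f X) + M.r (M.E \ X) ≤ M.r M.E + 2
  u : ∃ C1 φ1, M.Emb rU C1 φ1 ∧ f ∈ C1 ∧ cnt φ1 (M.E \ X) ≤ 1
  w : ∃ C2 φ2, M.Emb ρ C2 φ2 ∧ f ∈ C2 ∧ cnt φ2 X ≤ 1

lemma big_side (h3 : M.Conn3) {i : α} {B : Finset α} (hB : B ⊆ M.E) (h1 : 2 ≤ B.card)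
    (h2 : 2 ≤ (M.E \ B).card) (hs : ¬ M.sp B i) :
    M.r M.E + 3 ≤ M.r (M.E \ B) + M.r (insert i B) := by
  have := h3.2 B hB h1 h2
  have := not_sp hs
  omega

lemma uncross (h3 : M.Conn3) {f i : α} {X A : Finset α} (hX : X ⊆ M.E) (hi : i ∈ X)
    (hiA : i ∉ A) (hX2 : 2 ≤ X.card)
    (s1 : M.r (insert f X) + M.r (M.E \ X) ≤ M.r M.E + 2)
    (s2 : M.r (insert i A) + M.r (M.E \ A) ≤ M.r M.E + 2) (hs : ¬ M.sp (M.E \ X) i)
    (hB : 2 ≤ (M.E \ (insert i A ∪ X)).card) :
    M.r (insert i (A ∩ X)) + M.r (M.E \ (A ∩ X)) ≤ M.r M.E + 2 := by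
  have k1 := big_side h3 (i := i) (B := M.E \ (insert i A ∪ X)) sdiff_subset hB
    (le_trans hX2 (card_le_card (by grind))) (fun h => hs (h.mono (by grind)))
  have k2 := M.sub (insert i A) X (M.E \ (M.E \ (insert i A ∪ X))) (insert i (A ∩ X)) (by grind)
    (by grind)
  have k3 := M.sub (M.E \ A) (insert i (M.E \ X)) (M.E \ (A ∩ X))
    (insert i (M.E \ (insert i A ∪ X))) (by grind) (by grind)
  have k4 := M.r_ins (M.E \ X) i
  have k5 := M.ins_ge X f
  omega

section Minimal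

variable (hρ : Nice ρ) (h3 : M.Conn3) (hm : M.Min ρ) {f : α} {X : Finset α} (hc : M.Cfg ρ f X)
  (hmin : ∀ g Y, Y.card < X.card → ¬ M.Cfg ρ g Y)

include hc in
lemma Cfg.three : 3 ≤ X.card := by
  obtain ⟨C1, φ1, e1, -, c1⟩ := hc.u
  have := cnt_cover φ1 X (M.E \ X) (fun i => by have := e1.mem i; grind)
  have := cnt_le_card e1.inj X
  omega

include h3 hc hmin in
lemma cfg_closed {x : α} (hx : x ∈ X) : ¬ M.sp (M.E \ X) x := by
  intro hs
  obtain ⟨C1, φ1, e1, f1, c1⟩ := hc.u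
  obtain ⟨C2, φ2, e2, f2, c2⟩ := hc.w
  have hX := hc.sub
  have hfX := hc.nmem
  have s := hc.s
  have h4 := e1.has.card
  have h1 := (h3.1.single (by omega) hc.mem).1
  have q : M.E \ X.erase x = insert x (M.E \ X) := by grind
  have s' : M.r (insert f (X.erase x)) + M.r (M.E \ X.erase x) ≤ M.r M.E + 2 := by
    have := M.mono (S := insert f (X.erase x)) (T := insert f X) (by grind)
    unfold sp at hs
    rw [q]; omega
  refine hmin f (X.erase x) (card_erase_lt_of_mem hx) ⟨hc.mem, by grind, by grind, s',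
    ⟨C1, φ1, e1, f1, ?_⟩, C2, φ2, e2, f2, le_trans (cnt_mono _ (by grind)) c2⟩
  have k1 := cnt_cover φ1 (X.erase x) (M.E \ X.erase x) (fun i => by have := e1.mem i; grind)
  have k2 := cnt_union φ1 {x} (M.E \ X) (M.E \ X.erase x) (by grind)
  have k3 := cnt_le_card e1.inj {x}
  have k4 := e1.sep1 nice_rU f1 h1 (X := X.erase x) (by grind) s'
  rw [card_singleton] at k3
  omega

include hρ h3 hm hc hmin in
lemma cfg_step {i : α} (hi : i ∈ X) {C1 : Finset α} {φ1 : Fin 4 → α} (e1 : M.Emb rU C1 φ1)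
    (i1 : i ∈ C1) : ∃ A, M.Vert i A ∧ cnt φ1 (M.E \ A) ≤ 1 ∧ cnt φ1 (A ∩ X) ≤ 1 ∧
      2 ≤ (M.E \ (insert i A ∪ X)).card ∧ M.r X ≤ 3 := by
  obtain ⟨C, φ, e, f2, c⟩ := hc.w
  have hX := hc.sub
  have h4 := e1.has.card
  have hn := hρ.four
  have hX3 := hc.three
  have h1 := (h3.1.single (by omega) hc.mem).1
  have h1' := (h3.1.single (by omega) (hX hi)).1
  have hs := cfg_closed h3 hc hmin hi
  obtain ⟨C2, φ2, e2, i2, c2⟩ := e.move_con1 hρ f2 h1 hX hc.nmem hc.s c hi hs
  obtain ⟨A, hV, c1⟩ : ∃ A, M.Vert i A ∧ cnt φ1 (M.E \ A) ≤ 1 := by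
    obtain ⟨A, hV⟩ := exists_vert hρ h3 hm (e1.hasC i1) (e2.hasC i2)
    rcases e1.sep1 nice_rU i1 h1' hV.nmem hV.s with h | h
    · refine ⟨_, hV.symm, le_trans (cnt_mono _ fun j => ?_) h⟩
      have := e1.nmem j
      grind
    · exact ⟨A, hV, h⟩
  have hA := hV.sub
  have hiA := hV.nmem
  have c3 : cnt φ2 A ≤ 1 := by
    rcases e2.sep1 hρ i2 h1' hV.nmem hV.s with h | h
    · exact h
    · exact (same_side hρ h3 hm hV.symm e1 i1 (le_trans (cnt_mono _ (by grind)) c1) e2 i2
        (le_trans (cnt_mono _ (by grind)) h)).elim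
  have hB : 2 ≤ (M.E \ (insert i A ∪ X)).card := by
    have k1 := cnt_cover φ2 (A ∪ X) (M.E \ (insert i A ∪ X)) (fun j => by
      have := e2.mem j; grind)
    have k2 := cnt_union φ2 A X (A ∪ X) (by grind)
    have k3 := cnt_le_card e2.inj (M.E \ (insert i A ∪ X))
    omega
  have s1 := uncross h3 hX hi hiA (by omega) hc.s hV.s hs hB
  have c4 : cnt φ1 (A ∩ X) ≤ 1 := by
    rcases e1.sep1 nice_rU i1 h1' (X := A ∩ X) (by grind) s1 with h | h
    · exact h
    · exact (hmin i (A ∩ X) (card_lt_card ⟨inter_subset_right, by grind⟩)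
        ⟨hX hi, by grind, by grind, s1, ⟨C1, φ1, e1, i1, h⟩, C2, φ2, e2, i2,
          le_trans (cnt_mono _ (by grind)) c2⟩).elim
  have r1 : M.r (insert i (A ∩ X)) ≤ 2 := by
    by_contra h
    exact same_side hρ h3 hm (X := A ∩ X) ⟨hX hi, by grind, by grind, by omega,
      le_trans hV.r (M.mono (by grind)), s1⟩ e1 i1 c4 e2 i2 (le_trans (cnt_mono _ (by grind)) c2)
  have hB2 : 2 ≤ (M.E \ (insert i (M.E \ insert i A) ∪ X)).card := by
    have k1 := cnt_cover φ1 (A ∩ X ∪ M.E \ A) (M.E \ (insert i (M.E \ insert i A) ∪ X)) (fun j => by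
      have := e1.mem j; grind)
    have k2 := cnt_union φ1 (A ∩ X) (M.E \ A) (A ∩ X ∪ M.E \ A) (by grind)
    have k3 := cnt_le_card e1.inj (M.E \ (insert i (M.E \ insert i A) ∪ X))
    omega
  have s2 := uncross h3 hX hi hV.symm.nmem (by omega) hc.s hV.symm.s hs hB2
  have r2 : M.r (insert i ((M.E \ insert i A) ∩ X)) ≤ 2 := by
    by_contra h
    exact same_side hρ h3 hm (X := (M.E \ insert i A) ∩ X) ⟨hX hi, by grind, by grind, by omega,
      le_trans hV.l (M.mono (by grind)), s2⟩ e1 i1 (le_trans (cnt_mono _ (by grind)) c1) e2 i2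
      (le_trans (cnt_mono _ (by grind)) c2)
  have r3 := M.sub (insert i (A ∩ X)) (insert i ((M.E \ insert i A) ∩ X)) X {i} (by grind) (by grind)
  exact ⟨A, hV, c1, c4, hB, by omega⟩

include h3 hc in
lemma cfg_rank (hρ : Nice ρ) : M.r M.E + 2 ≤ M.r X + M.r (M.E \ X) := by
  obtain ⟨C, φ, e, -, c⟩ := hc.w
  have k1 := cnt_cover φ X (M.E \ X) (fun i => by have := e.mem i; grind)
  have k2 := cnt_le_card e.inj (M.E \ X)
  have := hρ.four
  have := hc.three
  exact h3.2 X hc.sub (by omega) (by omega)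

/-- rank four case: an element in general position is contractible -/
lemma rank4_emb {f : α} {X : Finset α} (hf : f ∈ M.E) (hX : X ⊆ M.E) (hfX : f ∉ X)
    (h1 : M.r {f} = 1) (r1 : M.r (insert f X) = 4) (r2 : M.r (M.E \ X) + 2 = M.r M.E)
    {a b c d : α} (ha : a ∈ X) (hb : b ∈ X) (hc : c ∈ X) (hd : d ∈ X)
    (ab : M.r (insert a (insert b (M.E \ X))) = M.r M.E)
    (ac : M.r (insert a (insert c (M.E \ X))) = M.r M.E)
    (ad : M.r (insert a (insert d (M.E \ X))) = M.r M.E)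
    (abc : 4 ≤ M.r {f, a, b, c}) (abd : 4 ≤ M.r {f, a, b, d}) (acd : 4 ≤ M.r {f, a, c, d}) :
    ∃ C φ, M.Emb rU C φ ∧ a ∈ C := by
  set P := M.con {f} with hP
  set Y := (M.E \ {f}) \ X with hY
  have hXE : X ⊆ P.E := by rw [hP, con_E]; grind
  have hYE : Y ⊆ P.E := sdiff_subset
  have q1 : insert f Y = M.E \ X := by grind
  have q2 : insert f (X ∪ Y) = M.E := by grind
  have q3 : insert f (Y ∪ X) = M.E := by grind
  have p1 : P.r X = 3 := by rw [hP, con1_r]; omega
  have p2 : P.r Y + 3 = M.r M.E := by rw [hP, con1_r, q1]; omega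
  have p3 : P.r (X ∪ Y) + 1 = M.r M.E := by rw [hP, con1_r, q2]; omega
  have p4 : P.r (Y ∪ X) + 1 = M.r M.E := by rw [hP, con1_r, q3]; omega
  obtain ⟨T, y, -, t2, t3, t4, t5, t6, t7⟩ := exists_jump (M := P) (B := X) (A0 := ∅) (A1 := Y)
    (empty_subset _) (by simp [P.r_empty]) (by omega)
  have k0 := fun S hS => skew0 (M := P) (S := S) t5 hS
  have k1 := fun S hS => skew1 (M := P) (A := Y) (B := X) (S := S) (T := insert y T) (by omega)
    (insert_subset t3 t2) t7 hS
  have ra : P.r {a} = 1 := by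
    have := M.ins_le (S := {f, a, b}) (T := {f, a, b, c}) c (by clear * -; grind)
    have := M.ins_le (S := {f, a}) (T := {f, a, b}) b (by clear * -; grind)
    have := M.pair_le f a
    rw [hP, con1_r]; omega
  have rC : P.r (insert a T) = 1 + P.r T := by
    have := k0 {a} (by simpa using ha)
    rw [← insert_eq] at this
    omega
  have g1 : ∀ z ∈ X, M.r (insert a (insert z (M.E \ X))) = M.r M.E →
      P.r (insert a T) + 2 ≤ P.r (insert y (insert z (insert a T))) := fun z hz h => by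
    have e1 := k1 {a, z} (by clear * - ha hz; grind)
    have e2 : P.r ({a, z} ∪ Y) + 1 = M.r M.E := by
      rw [hP, con1_r, ← h, h1, sub_add_cancel, ← q1]; congr 1; clear * -; grind
    have e3 : ({a, z} : Finset α) ∪ insert y T = insert y (insert z (insert a T)) := by
      clear * -; grind
    rw [e3] at e1
    omega
  have g2 : ∀ z ∈ X, ∀ w ∈ X, 4 ≤ M.r {f, a, z, w} →
      P.r (insert a T) + 2 ≤ P.r (insert z (insert w (insert a T))) := fun z hz w hw h => by
    have e1 := k0 {a, z, w} (by clear * - ha hz hw; grind)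
    have e2 : 3 ≤ P.r {a, z, w} := by rw [hP, con1_r]; omega
    have e3 : ({a, z, w} : Finset α) ∪ T = insert z (insert w (insert a T)) := by
      clear * -; grind
    rw [e3] at e1
    omega
  have e := emb_U4 (M := P) (C := insert a T) (a := y) (b := b) (c := c) (d := d)
    (insert_subset (hXE ha) (t2.trans hYE)) (hYE t3) (hXE hb) (hXE hc) (hXE hd) (g1 b hb ab) (g1 c hc ac) (g1 d hd ad)
    (g2 b hb c hc abc) (g2 b hb d hd abd) (g2 c hc d hd acd) (by
      have e1 := k1 X Subset.rfl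
      have e2 := P.mono (S := insert y (insert b (insert c (insert d (insert a T)))))
        (T := X ∪ insert y T) (by clear * - ha hb hc hd; grind)
      omega)
  exact ⟨_, _, e.of_con (by simpa using hf), by simp⟩

include hρ h3 hm hc hmin in
lemma cfg_rank3 : M.r (insert f X) ≤ 3 := by
  by_contra hr
  have hf := hc.mem
  have hX := hc.sub
  have hfX := hc.nmem
  have s := hc.s
  have r0 := cfg_rank h3 hc hρ
  have key : ∀ i ∈ X, ∀ C φ, M.Emb rU C φ → i ∉ C := fun i hi C φ e hiC => by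
    obtain ⟨A, -, -, -, -, h⟩ := cfg_step hρ h3 hm hc hmin hi e hiC
    omega
  obtain ⟨C1, φ, e1, f1, -⟩ := hc.u
  have h4 := e1.has.card
  have h1 := (h3.1.single (by omega) hf).1
  obtain ⟨C', e2, -, n2⟩ := (e1.to_con (C0 := {f}) (by simpa using f1)).norm
  have e3 := e2.of_con (by simpa using hf)
  have n3 : M.r (C' ∪ {f}) + 2 = M.r M.E := by
    have k1 := e3.rk_univ
    have k2 : rU univ = 2 := by decide
    have q : M.E \ {f} ∪ {f} = M.E := by grind
    simp only [con_r, con_E, union_assoc, q] at n2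
    omega
  have c3 : C' ∪ {f} ⊆ M.E \ X := fun x hx => by
    exact mem_sdiff.2 ⟨e3.sub hx, fun h => key x h _ _ e3 hx⟩
  have m1 := M.mono c3
  have sp1 : ∀ x ∈ M.E \ X, M.sp (C' ∪ {f}) x := fun x hx => sp_of_r_le c3 hx (by omega)
  have hφ : ∀ i, φ i ∉ M.E \ X := fun i hi => e3.not_sp1 nice_rU i (sp1 _ hi)
  have hφ' : ∀ i, φ i ∈ X := fun i => by
    by_contra h
    exact hφ i (mem_sdiff.2 ⟨e3.mem i, h⟩)
  have e4 : M.Emb rU (M.E \ X) φ := e3.of_cl sdiff_subset hφ (fun x hx => sp_of_mem (c3 hx)) sp1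
  have p1 : ∀ i j, i ≠ j → M.r (insert (φ i) (insert (φ j) (M.E \ X))) = M.r M.E := fun i j hij => by
    have := e4.rk2 i j
    have := nice_rU.two i j hij
    omega
  have p2 : ∀ i j, i ≠ j → 3 ≤ M.r {f, φ i, φ j} := fun i j hij => by
    have := p1 i j hij
    have := M.sub {f, φ i, φ j} (M.E \ X) (insert (φ i) (insert (φ j) (M.E \ X))) {f}
      (by clear * -; grind) (by clear * - hf hfX; grind)
    omega
  have a0 := hφ' 0
  have a1 := hφ' 1
  have a2 := hφ' 2
  have a3 := hφ' 3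
  by_cases hl : M.r {f, φ 0, φ 1, φ 2, φ 3} ≤ 3
  · obtain ⟨z, hz, hz1⟩ := exists_not_sp (M := M) (S := {f, φ 0, φ 1, φ 2, φ 3}) (T := insert f X)
      (by omega)
    have hzX : z ∈ X := by
      rcases mem_insert.1 hz with rfl | h
      · exact absurd (sp_of_mem (by simp)) hz1
      · exact h
    have z1 := M.pair_le z f
    have g : ∀ i j, i ≠ j → M.r {z, f} + 2 ≤ M.r (insert (φ i) (insert (φ j) {z, f})) := by
      intro i j hij
      have k1 := p2 i j hij
      have k2 := not_sp (S := {f, φ i, φ j}) (e := z) fun h => hz1 (h.mono (by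
        fin_cases i <;> fin_cases j <;> simp [subset_iff]))
      have k3 := M.mono (S := insert z {f, φ i, φ j}) (T := insert (φ i) (insert (φ j) {z, f}))
        (by clear * -; grind)
      omega
    have z2 := (h3.pair h4 (hX hzX) hf (by clear * - hzX hfX; grind)).1
    have e5 := emb_U (M := M) (C := {z, f}) (φ := φ) (by clear * - hzX hX hf; grind) e3.mem g (by
      have := M.mono (S := img φ ∪ {z, f}) (T := insert f X) (by
        intro x hx
        rcases mem_union.1 hx with hx | hx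
        · obtain ⟨i, rfl⟩ := mem_img.1 hx
          exact mem_insert_of_mem (hφ' i)
        · clear * - hx hzX; grind)
      omega)
    exact key z hzX _ _ e5 (by simp)
  · have two : ∀ a b c d : α, ({f, φ 0, φ 1, φ 2, φ 3} : Finset α) ⊆ {f, a, b, c, d} →
        3 ≤ M.r {f, a, b} → 4 ≤ M.r {f, a, b, c} ∨ 4 ≤ M.r {f, a, b, d} := by
      intro a b c d h5 h6
      have := M.sub {f, a, b, c} {f, a, b, d} {f, φ 0, φ 1, φ 2, φ 3} {f, a, b}
        (by clear * - h5; grind) (by clear * -; grind)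
      omega
    have fin : ∀ i j k l : Fin 4, i ≠ j → i ≠ k → i ≠ l → 4 ≤ M.r {f, φ i, φ j, φ k} →
        4 ≤ M.r {f, φ i, φ j, φ l} → 4 ≤ M.r {f, φ i, φ k, φ l} → False := by
      intro i j k l ij ik il t1 t2 t3
      obtain ⟨C, ψ, e, h⟩ := rank4_emb hf hX hfX h1 (by omega) (by omega) (hφ' i) (hφ' j) (hφ' k)
        (hφ' l) (p1 i j ij) (p1 i k ik) (p1 i l il) t1 t2 t3
      exact key _ (hφ' i) _ _ e h
    have t01 := two (φ 0) (φ 1) (φ 2) (φ 3) (by clear * -; grind) (p2 0 1 (by decide))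
    have t02 := two (φ 0) (φ 2) (φ 1) (φ 3) (by clear * -; grind) (p2 0 2 (by decide))
    have t03 := two (φ 0) (φ 3) (φ 1) (φ 2) (by clear * -; grind) (p2 0 3 (by decide))
    have t12 := two (φ 1) (φ 2) (φ 0) (φ 3) (by clear * -; grind) (p2 1 2 (by decide))
    have t13 := two (φ 1) (φ 3) (φ 0) (φ 2) (by clear * -; grind) (p2 1 3 (by decide))
    have t23 := two (φ 2) (φ 3) (φ 0) (φ 1) (by clear * -; grind) (p2 2 3 (by decide))
    have u1 : ({f, φ 0, φ 2, φ 1} : Finset α) = {f, φ 0, φ 1, φ 2} := by clear * -; grind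
    have u2 : ({f, φ 0, φ 3, φ 1} : Finset α) = {f, φ 0, φ 1, φ 3} := by clear * -; grind
    have u3 : ({f, φ 0, φ 3, φ 2} : Finset α) = {f, φ 0, φ 2, φ 3} := by clear * -; grind
    have u4 : ({f, φ 1, φ 2, φ 0} : Finset α) = {f, φ 0, φ 1, φ 2} := by clear * -; grind
    have u5 : ({f, φ 1, φ 3, φ 0} : Finset α) = {f, φ 0, φ 1, φ 3} := by clear * -; grind
    have u6 : ({f, φ 1, φ 3, φ 2} : Finset α) = {f, φ 1, φ 2, φ 3} := by clear * -; grind
    have u7 : ({f, φ 2, φ 3, φ 0} : Finset α) = {f, φ 0, φ 2, φ 3} := by clear * -; grind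
    have u8 : ({f, φ 2, φ 3, φ 1} : Finset α) = {f, φ 1, φ 2, φ 3} := by clear * -; grind
    have u9 : ({f, φ 3, φ 0, φ 1} : Finset α) = {f, φ 0, φ 1, φ 3} := by clear * -; grind
    have u10 : ({f, φ 3, φ 0, φ 2} : Finset α) = {f, φ 0, φ 2, φ 3} := by clear * -; grind
    have u11 : ({f, φ 3, φ 1, φ 2} : Finset α) = {f, φ 1, φ 2, φ 3} := by clear * -; grind
    have u12 : ({f, φ 2, φ 0, φ 1} : Finset α) = {f, φ 0, φ 1, φ 2} := by clear * -; grind
    have f0 := fin 0 1 2 3 (by decide) (by decide) (by decide)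
    have f1 := fin 1 2 3 0 (by decide) (by decide) (by decide)
    have f2 := fin 2 3 0 1 (by decide) (by decide) (by decide)
    have f3 := fin 3 0 1 2 (by decide) (by decide) (by decide)
    simp only [u1, u2, u3, u4, u5, u6, u7, u8, u9, u10, u11, u12] at t02 t03 t12 t13 t23 f1 f2 f3
    clear * - t01 t02 t03 t12 t13 t23 f0 f1 f2 f3
    generalize M.r {f, φ 0, φ 1, φ 2} = a at *
    generalize M.r {f, φ 0, φ 1, φ 3} = b at *
    generalize M.r {f, φ 0, φ 2, φ 3} = c at *
    generalize M.r {f, φ 1, φ 2, φ 3} = d at *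
    by_cases ha : 4 ≤ a <;> by_cases hb : 4 ≤ b <;> by_cases hc : 4 ≤ c <;> by_cases hd : 4 ≤ d <;>
      first
      | exact f0 ha hb hc
      | exact f1 hd ha hb
      | exact f2 hc hd ha
      | exact f3 hb hc hd
      | omega

include hρ h3 hm hc hmin in
lemma cfg_last {i g p q : α} (hi : i ∈ X) (hp : p ∈ X) (hq : q ∈ X) {C1 : Finset α}
    (e1 : M.Emb rU C1 ![f, g, p, q]) (i1 : i ∈ C1) : False := by
  obtain ⟨A, hV, c1, c2, hB, -⟩ := cfg_step hρ h3 hm hc hmin hi e1 i1
  have r3 := cfg_rank3 hρ h3 hm hc hmin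
  have hX := hc.sub
  have hA := hV.sub
  have hX3 := hc.three
  have h4 := e1.has.card
  have h1' := (h3.1.single (by omega) (hX hi)).1
  have key : ∀ j : Fin 4, j ≠ 0 → ![f, g, p, q] j ∈ X → ![f, g, p, q] j ∈ A → f ∈ A → False := by
    intro j hj j1 j2 hfA
    have k1 := e1.rk2 0 j
    have k2 := nice_rU.two 0 j hj.symm
    generalize ![f, g, p, q] j = x at *
    simp only [Matrix.cons_val_zero] at k1
    have k3 := M.sub {i, f, x} C1 (insert f (insert x C1)) {i} (by clear * -; grind)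
      (by clear * - i1; grind)
    have k4 : M.r (insert i A ∪ X) = M.r (insert i A) := r_union_of_sp fun y hy =>
      (sp_of_r_le (S := {i, f, x}) (T := insert f X) (by grind) (by grind) (by omega)).mono (by grind)
    have k5 := big_side h3 (i := i) (B := M.E \ (insert i A ∪ X)) sdiff_subset hB
      (le_trans (by omega : 2 ≤ X.card) (card_le_card (by grind)))
      (fun h => cfg_closed h3 hc hmin hi (h.mono (by grind)))
    have k6 := M.mono (S := insert i (M.E \ (insert i A ∪ X))) (T := M.E \ A)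
      (by have := hV.nmem; grind)
    have k7 : M.E \ (M.E \ (insert i A ∪ X)) = insert i A ∪ X := by grind
    have k8 := hV.s
    rw [k7] at k5
    omega
  have d1 := fun h1 h2 => cnt_two c1 (i := 0) (j := 2) h1 h2
  have d2 := fun h1 h2 => cnt_two c1 (i := 0) (j := 3) h1 h2
  have d3 := fun h1 h2 => cnt_two c1 (i := 2) (j := 3) h1 h2
  have d4 := fun h1 h2 => cnt_two c2 (i := 2) (j := 3) h1 h2
  have k2 := key 2 (by decide)
  have k3 := key 3 (by decide)
  have hf := hc.mem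
  simp at d1 d2 d3 d4 k2 k3
  grind

include hρ h3 hm hc hmin in
lemma cfg_false : False := by
  have r3 := cfg_rank3 hρ h3 hm hc hmin
  have r0 := cfg_rank h3 hc hρ
  have hf := hc.mem
  have hX := hc.sub
  have hfX := hc.nmem
  have s := hc.s
  obtain ⟨C1, φ, e1, f1, c1⟩ := hc.u
  have h4 := e1.has.card
  have h1 := (h3.1.single (by omega) hf).1
  have p2 : ∀ i j, i ≠ j → 3 ≤ M.r {f, φ i, φ j} := fun i j hij => by
    have := e1.rk2 i j
    have := nice_rU.two i j hij
    have := M.sub {f, φ i, φ j} C1 (insert (φ i) (insert (φ j) C1)) {f} (by clear * -; grind)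
      (by clear * - f1; grind)
    omega
  obtain ⟨p, hp, q, hq, t, ht, pqt, pq, pt, qt⟩ : ∃ p ∈ X, ∃ q ∈ X, ∃ t ∈ X, 3 ≤ M.r {p, q, t} ∧
      3 ≤ M.r {f, p, q} ∧ 3 ≤ M.r {f, p, t} ∧ 3 ≤ M.r {f, q, t} := by
    have k1 := cnt_cover φ X (M.E \ X) (fun i => by have := e1.mem i; grind)
    obtain ⟨i, j, k, hi, hj, hk, ij, ik, jk⟩ := two_lt_card_iff.1 (show 2 < cnt φ X by omega)
    simp only [mem_filter, mem_univ, true_and] at hi hj hk
    have b1 := p2 i j ij
    have b2 := p2 i k ik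
    have b3 := p2 j k jk
    by_cases hl : 3 ≤ M.r {φ i, φ j, φ k}
    · exact ⟨_, hi, _, hj, _, hk, hl, b1, b2, b3⟩
    have m0 := M.mono (S := {f, φ i, φ j}) (T := insert f X) (by clear * - hi hj; grind)
    obtain ⟨z, hz, hz1⟩ := exists_not_sp (M := M) (S := {φ i, φ j, φ k}) (T := X) (by omega)
    have zf := (h3.pair h4 hf (hX hz) (by clear * - hz hfX; grind)).1
    have g1 : ∀ a b : α, 3 ≤ M.r {f, a, b} → 3 ≤ M.r {f, a, z} ∨ 3 ≤ M.r {f, b, z} := fun a b h => by
      have := M.sub {f, a, z} {f, b, z} {f, a, b} {f, z} (by clear * -; grind) (by clear * -; grind)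
      omega
    have g2 : ∀ a b : α, 3 ≤ M.r {f, a, b} → ({a, b} : Finset α) ⊆ {φ i, φ j, φ k} →
        3 ≤ M.r {a, b, z} := fun a b h h' => by
      have := M.r_ins {a, b} f
      have := not_sp (S := {a, b}) (e := z) fun h'' => hz1 (h''.mono h')
      have := M.mono (S := {z, a, b}) (T := {a, b, z}) (by clear * -; grind)
      omega
    have y1 := g1 _ _ b1
    have y2 := g1 _ _ b2
    have y3 := g1 _ _ b3
    by_cases x1 : 3 ≤ M.r {f, φ i, z}
    · by_cases x2 : 3 ≤ M.r {f, φ j, z}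
      · exact ⟨_, hi, _, hj, _, hz, g2 _ _ b1 (by clear * -; grind), b1, x1, x2⟩
      · exact ⟨_, hi, _, hk, _, hz, g2 _ _ b2 (by clear * -; grind), b2, x1, by omega⟩
    · exact ⟨_, hj, _, hk, _, hz, g2 _ _ b3 (by clear * -; grind), b3, by omega, by omega⟩
  clear p2
  have hT : ({p, q, t} : Finset α) ⊆ insert f X := by grind
  have cT : ({p, q, t} : Finset α).card ≤ 3 := card_le_three
  have iT : M.Ind {p, q, t} := by
    have := M.le_card {p, q, t}
    unfold Ind; omega
  obtain ⟨J, j1, j2, j3, j4⟩ := exists_basis (M := M) (S := {p, q, t} ∪ M.E \ X) iT subset_union_left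
  have j5 : M.r M.E ≤ M.r ({p, q, t} ∪ M.E \ X) := r_le_of_sp fun x hx => by
    by_cases hxX : x ∈ X
    · exact (sp_of_r_le hT (by grind) (by omega)).mono subset_union_left
    · exact sp_of_mem (by grind)
  set I := J \ {p, q, t} with hI
  have i1 : I ⊆ M.E \ X := by grind
  have i2 : M.Ind I := j3.subset sdiff_subset
  have i3 : I.card + ({p, q, t} : Finset α).card = J.card := card_sdiff_add_card_eq_card j1
  have i4 := M.mono (S := J) (T := insert f X ∪ I) (by grind)
  have i5 := M.mono (S := {p, q, t} ∪ M.E \ X) (T := M.E) (by grind)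
  have i6 : M.r I + 3 = M.r M.E := by unfold Ind at *; omega
  have y1 := not_sp (cfg_closed h3 hc hmin hp)
  have y2 := M.mono (S := insert p (M.E \ X)) (T := M.E) (by grind)
  have hIE : I ⊆ M.E := i1.trans sdiff_subset
  clear_value I
  have k0 := fun S hS => skew0 (M := M) (B := insert f X) (T := I) (S := S) (by omega) hS
  have y3 := M.ins_ge X f
  have y4 := M.r_ins I f
  obtain ⟨g, hg, hg1⟩ := exists_not_sp (M := M) (S := insert f I) (T := M.E \ X) (by omega)
  have y5 := not_sp hg1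
  have hgE : g ∈ M.E := (mem_sdiff.1 hg).1
  have y6 := k0 {f} (by simp)
  rw [← insert_eq] at y6
  have y7 : ∀ x ∈ X, M.r (insert f (insert g (insert x I))) = M.r M.E := fun x hx => by
    have e1 := not_sp (S := insert g (insert f I)) (e := x)
      fun h => cfg_closed h3 hc hmin hx (h.mono (by clear * - hg hf hfX i1; grind))
    have e2 : insert x (insert g (insert f I)) = insert f (insert g (insert x I)) := by
      clear * -; grind
    rw [e2] at e1
    omega
  have main : ∀ a ∈ X, ∀ b ∈ X, ∀ c ∈ X, 3 ≤ M.r {a, b, c} → 3 ≤ M.r {f, a, b} →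
      3 ≤ M.r {f, a, c} → M.r M.E ≤ M.r (insert g (insert a (insert b I))) →
      M.r M.E ≤ M.r (insert g (insert a (insert c I))) → False := by
    intro a ha b hb c hc' abc ab ac gb gc
    have w1 := M.r_ins I a
    have w2 := y7 a ha
    have w3 := k0 {f, a, b} (by clear * - ha hb; grind)
    have w4 := k0 {f, a, c} (by clear * - ha hc'; grind)
    have w5 := k0 {a, b, c} (by clear * - ha hb hc'; grind)
    have w6 := k0 {a} (by clear * - ha; grind)
    have w7 := (h3.1.single (by omega) (hX ha)).1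
    rw [← insert_eq] at w6
    have q3 : ({f, a, b} : Finset α) ∪ I = insert f (insert b (insert a I)) := by clear * -; grind
    have q4 : ({f, a, c} : Finset α) ∪ I = insert f (insert c (insert a I)) := by clear * -; grind
    have q5 : ({a, b, c} : Finset α) ∪ I = insert b (insert c (insert a I)) := by clear * -; grind
    rw [q3] at w3
    rw [q4] at w4
    rw [q5] at w5
    rw [insert_comm a b] at gb
    rw [insert_comm a c] at gc
    have w8 := M.mono (S := insert f (insert g (insert b (insert c (insert a I))))) (T := M.E)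
      (by clear * - hf hgE ha hb hc' hX hIE; grind)
    exact cfg_last hρ h3 hm hc hmin ha hb hc' (emb_U4 (C := insert a I) (b := g)
      (insert_subset (hX ha) hIE) hf hgE (hX hb) (hX hc') (by omega) (by omega) (by omega) (by omega) (by omega) (by omega)
      (by omega)) (by simp)
  have two : ∀ a ∈ X, ∀ b c, 3 ≤ M.r {a, b, c} → ({a, b, c} : Finset α) ⊆ insert f X →
      M.r M.E ≤ M.r (insert g (insert a (insert b I))) ∨
      M.r M.E ≤ M.r (insert g (insert a (insert c I))) := by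
    intro a ha b c abc hs
    have w1 := y7 a ha
    have w2 := M.r_ins (insert g (insert a I)) f
    have w3 := k0 {a, b, c} hs
    have w4 := M.sub (insert g (insert a (insert b I))) (insert g (insert a (insert c I)))
      ({a, b, c} ∪ I) (insert g (insert a I)) (by clear * -; grind) (by clear * -; grind)
    omega
  have u1 : ({q, p, t} : Finset α) = {p, q, t} := by clear * -; grind
  have u2 : ({t, p, q} : Finset α) = {p, q, t} := by clear * -; grind
  have u3 : ({f, q, p} : Finset α) = {f, p, q} := by clear * -; grind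
  have u4 : ({f, t, p} : Finset α) = {f, p, t} := by clear * -; grind
  have u5 : ({f, t, q} : Finset α) = {f, q, t} := by clear * -; grind
  have m1 := main p hp q hq t ht pqt pq pt
  have m2 := main q hq p hp t ht (u1 ▸ pqt) (u3 ▸ pq) qt
  have m3 := main t ht p hp q hq (u2 ▸ pqt) (u4 ▸ pt) (u5 ▸ qt)
  have n1 := two p hp q t pqt hT
  have n2 := two q hq p t (u1 ▸ pqt) (u1 ▸ hT)
  have n3 := two t ht p q (u2 ▸ pqt) (u2 ▸ hT)
  rw [insert_comm q p] at m2 n2
  rw [insert_comm t p, insert_comm t q] at m3 n3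
  rcases n1 with a | a
  · rcases n3 with b | b
    · exact m1 a b
    · exact m2 a b
  · rcases n2 with b | b
    · exact m1 b a
    · exact m3 a b

end Minimal

lemma no_cfg (hρ : Nice ρ) (h3 : M.Conn3) (hm : M.Min ρ) (k : ℕ) :
    ∀ f X, X.card = k → ¬ M.Cfg ρ f X := by
  induction k using Nat.strong_induction_on with
  | _ k ih =>
    intro f X hk hc
    exact cfg_false hρ h3 hm hc fun g Y hY => ih Y.card (hk ▸ hY) g Y rfl

theorem not_both_con (hρ : Nice ρ) (h3 : M.Conn3) (hm : M.Min ρ) {f : α} (hU : M.HasCD rU {f} ∅)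
    (hN : M.HasCD ρ {f} ∅) : False := by
  obtain ⟨A, hV⟩ := exists_vert hρ h3 hm hU hN
  obtain ⟨C1, φ1, e1, f1, -⟩ := hU
  obtain ⟨C2, φ2, e2, f2, -⟩ := hN
  rw [singleton_subset_iff] at f1 f2
  have h4 := e1.has.card
  have h1 := (h3.1.single (by omega) hV.mem).1
  have hA := hV.sub
  have n1 := e1.nmem
  have n2 := e2.nmem
  rcases e1.sep1 nice_rU f1 h1 hV.nmem hV.s with a | a <;>
    rcases e2.sep1 hρ f2 h1 hV.nmem hV.s with b | b
  · exact same_side hρ h3 hm hV e1 f1 a e2 f2 b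
  · exact no_cfg hρ h3 hm _ f _ rfl ⟨hV.mem, hV.symm.sub, hV.symm.nmem, hV.symm.s,
      ⟨C1, φ1, e1, f1, le_trans (cnt_mono _ (by grind)) a⟩, C2, φ2, e2, f2,
      le_trans (cnt_mono _ (by grind)) b⟩
  · exact no_cfg hρ h3 hm _ f _ rfl ⟨hV.mem, hA, hV.nmem, hV.s, ⟨C1, φ1, e1, f1, a⟩, C2, φ2, e2, f2, b⟩
  · exact same_side hρ h3 hm hV.symm e1 f1 (le_trans (cnt_mono _ (by grind)) a) e2 f2
      (le_trans (cnt_mono _ (by grind)) b)

theorem not_both_del (hρ : Nice ρ) (h3 : M.Conn3) (hm : M.Min ρ) {f : α} (hU : M.HasCD rU ∅ {f})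
    (hN : M.HasCD ρ ∅ {f}) : False :=
  not_both_con hρ h3.dual (hm.dual hρ) (hU.dual nice_rU) (hN.dual hρ)

end RM

end Pool.Agent.Work.MP_6b71e5_co
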