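import Pool.Agent.Work.MP_6b71e5_co.Bin

/-! Finite certificates: wheel minors in the one and two element extensions of the wheel. -/

namespace Pool.Agent.Work.MP_6b71e5_co

open Finset

def idx (z k : ℕ) : ℕ := (z >>> (4 * k)) % 16

def vec (V i : ℕ) : ℕ := (V >>> (5 * i)) % 32

/-- the four vectors stay independent modulo `c` -/
def Fr (s0 s1 s2 s3 c : ℕ) : Prop :=
  ∀ m < 16, m ≠ 0 → comb s0 s1 s2 s3 m ≠ 0 ∧ comb s0 s1 s2 s3 m ≠ c

instance (s0 s1 s2 s3 c : ℕ) : Decidable (Fr s0 s1 s2 s3 c) := by unfold Fr; infer_instance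

def CertOK (n V z c : ℕ) : Prop :=
  (∀ i : Fin 8, idx z i < n) ∧ (∀ i j : Fin 8, idx z i = idx z j → i = j) ∧
  Fr (vec V (idx z 0)) (vec V (idx z 1)) (vec V (idx z 2)) (vec V (idx z 3)) c ∧
  ∀ i : Fin 8, vec V (idx z i) =
      comb (vec V (idx z 0)) (vec V (idx z 1)) (vec V (idx z 2)) (vec V (idx z 3)) (wv i) ∨
    vec V (idx z i) =
      comb (vec V (idx z 0)) (vec V (idx z 1)) (vec V (idx z 2)) (vec V (idx z 3)) (wv i) ^^^ c

instance (n V z c : ℕ) : Decidable (CertOK n V z c) := by unfold CertOK; infer_instance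

def CertC (n V z : ℕ) : Prop :=
  idx z 8 < n ∧ idx z 9 < n ∧ idx z 9 ≠ idx z 8 ∧ vec V (idx z 8) ≠ 0 ∧
  (∀ i : Fin 8, idx z i ≠ idx z 8 ∧ idx z i ≠ idx z 9) ∧ CertOK n V z (vec V (idx z 8))

instance (n V z : ℕ) : Decidable (CertC n V z) := by unfold CertC; infer_instance

/-- packed vectors of the wheel, the contracted element, and two further elements -/
def vnum (u a b : ℕ) : ℕ :=
  1 + 2 * 32 + 4 * 32 ^ 2 + 8 * 32 ^ 3 + (3 + 16 * (u % 2)) * 32 ^ 4 +
    (6 + 16 * (u / 2 % 2)) * 32 ^ 5 + (12 + 16 * (u / 4 % 2)) * 32 ^ 6 +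
    (9 + 16 * (u / 8 % 2)) * 32 ^ 7 + 16 * 32 ^ 8 + a * 32 ^ 9 + b * 32 ^ 10

def St2 (u a q L : ℕ) : Prop :=
  ∀ b < 32, b = 0 ∨ b = a ∨ (∃ k : Fin 4, vec (vnum u a 0) (idx q k) = b) ∨
    (CertC 11 (vnum u a b) ((L >>> (40 * b)) % 2 ^ 40) ∧
      ((q >>> 16).testBit (idx ((L >>> (40 * b)) % 2 ^ 40) 8) = true ∨
        (q >>> 16).testBit (idx ((L >>> (40 * b)) % 2 ^ 40) 9) = false))

instance (u a q L : ℕ) : Decidable (St2 u a q L) := by unfold St2; infer_instance

def quads : List ℕ := [101659152, 102187536, 102449936, 102581024, 102646561, 103240208, 103502608, 103633696,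
  103699233, 104027152, 104158240, 104223777, 104420400, 104485937, 104617010, 105341456,
  105603856, 105734944, 105800481, 106128400, 106259488, 106325025, 106521648, 106587185,
  106718258, 107177232, 107308320, 107373857, 107570480, 107636017, 107767090, 108094784,
  108160321, 108291394, 108553539, 109539856, 109802256, 109933344, 109998881, 110326800,
  110457888, 110523425, 110720048, 110785585, 110916658, 111375632, 111506720, 111572257,
  111768880, 111834417, 111965490, 112293184, 112358721, 112489794, 112751939, 113473040,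
  113604128, 113669665, 113866288, 113931825, 114062898, 114390592, 114456129, 114587202,
  114849347, 115439184, 115504721, 115635794, 115897939, 116422228]

def St1 (u a : ℕ) (e : List ℕ × ℕ) : Prop :=
  (∀ z ∈ e.1, CertC 10 (vnum u a 0) z) ∧
  ∀ q ∈ quads, (∀ z ∈ e.1, (q >>> 16).testBit (idx z 8) = false ∧
      (q >>> 16).testBit (idx z 9) = true) → a ≠ 0 →
    Fr (vec (vnum u a 0) (idx q 0)) (vec (vnum u a 0) (idx q 1)) (vec (vnum u a 0) (idx q 2))
      (vec (vnum u a 0) (idx q 3)) a → St2 u a q e.2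

instance (u a : ℕ) (e : List ℕ × ℕ) : Decidable (St1 u a e) := by unfold St1; infer_instance

/-! A strict Boolean test for `St1`. -/

noncomputable def qF (n : ℕ) (f : ℕ → Bool) : Bool := Nat.rec (f 0) (fun k _ => f k.succ) n

lemma qF_eq (n : ℕ) (f : ℕ → Bool) : qF n f = f n := by cases n <;> rfl

def qX (a b c d : ℕ) : ℕ := Nat.xor (Nat.xor (Nat.xor a b) c) d

def qN (c x : ℕ) : Bool := !(Nat.beq x 0 || Nat.beq x c)

def qFr (a b c d e : ℕ) : Bool :=
  qN e (qX a 0 0 0) && (qN e (qX 0 b 0 0) && (qN e (qX a b 0 0) && (qN e (qX 0 0 c 0) &&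
  (qN e (qX a 0 c 0) && (qN e (qX 0 b c 0) && (qN e (qX a b c 0) && (qN e (qX 0 0 0 d) &&
  (qN e (qX a 0 0 d) && (qN e (qX 0 b 0 d) && (qN e (qX a b 0 d) && (qN e (qX 0 0 c d) &&
  (qN e (qX a 0 c d) && (qN e (qX 0 b c d) && (qN e (qX a b c d) && true))))))))))))))

lemma qFr_iff (a b c d e : ℕ) : qFr a b c d e = true ↔ Fr a b c d e := by
  have h : qFr a b c d e = (List.range' 1 15).all fun m => qN e (comb a b c d m) := rfl
  have k : ∀ x, qN e x = true ↔ x ≠ 0 ∧ x ≠ e := fun x => by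
    rw [qN, Bool.not_eq_true', ← Bool.not_eq_true, Bool.or_eq_true, Nat.beq_eq, Nat.beq_eq, not_or]
  simp only [h, List.all_eq_true, k, List.mem_range'_1, Fr]
  exact ⟨fun h m h1 h2 => h m (by omega), fun h m h1 => h m (by omega) (by omega)⟩

noncomputable def qD (n : ℕ) (L : List ℕ) : ℕ → Bool :=
  List.rec (fun _ => true) (fun x _ ih m => Nat.blt x n && (Nat.beq (Nat.land m (Nat.pow 2 x)) 0 &&
    qF (Nat.lor m (Nat.pow 2 x)) ih)) L

lemma qD_spec (n : ℕ) (L : List ℕ) : ∀ m, qD n L m = true →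
    (∀ x ∈ L, x < n ∧ m.testBit x = false) ∧ L.Nodup := by
  induction L with
  | nil => exact fun _ _ => ⟨fun _ h => absurd h List.not_mem_nil, List.nodup_nil⟩
  | cons x L ih =>
    intro m h
    have e : qD n (x :: L) m = (Nat.blt x n && (Nat.beq (m &&& 2 ^ x) 0 &&
      qF (m ||| 2 ^ x) (qD n L))) := rfl
    rw [e, qF_eq, Bool.and_eq_true, Bool.and_eq_true, Nat.blt_eq, Nat.beq_eq] at h
    obtain ⟨h1, h2⟩ := ih _ h.2.2
    have h3 := congrArg (·.testBit x) h.2.1
    simp only [Nat.testBit_and, Nat.testBit_two_pow_self, Bool.and_true, Nat.zero_testBit] at h3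
    simp only [Nat.testBit_or, Bool.or_eq_false_iff] at h1
    refine ⟨List.forall_mem_cons.2 ⟨⟨h.1, h3⟩, fun y hy => ⟨(h1 y hy).1, (h1 y hy).2.1⟩⟩,
      List.nodup_cons.2 ⟨fun hx => ?_, h2⟩⟩
    simpa using (h1 x hx).2.2

def qE (v x c : ℕ) : Bool := Nat.beq v x || Nat.beq v (Nat.xor x c)

noncomputable def qC (n V z : ℕ) : Bool :=
  qF V fun V => qF z fun z => qF (idx z 0) fun i0 => qF (idx z 1) fun i1 =>
  qF (idx z 2) fun i2 => qF (idx z 3) fun i3 => qF (idx z 4) fun i4 => qF (idx z 5) fun i5 =>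
  qF (idx z 6) fun i6 => qF (idx z 7) fun i7 => qF (idx z 8) fun i8 =>
  qD n [i0, i1, i2, i3, i4, i5, i6, i7, i8, idx z 9] 0 &&
  qF (vec V i0) fun a => qF (vec V i1) fun b => qF (vec V i2) fun c => qF (vec V i3) fun d =>
  qF (vec V i8) fun e => !Nat.beq e 0 && (qFr a b c d e && (qE (vec V i4) (qX a b 0 0) e &&
    (qE (vec V i5) (qX 0 b c 0) e && (qE (vec V i6) (qX 0 0 c d) e &&
      qE (vec V i7) (qX a 0 0 d) e))))

lemma qC_sound {n V z : ℕ} (h : qC n V z = true) : CertC n V z := by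
  simp only [qC, qF_eq, Bool.and_eq_true, qFr_iff, qE, Bool.or_eq_true, Nat.beq_eq,
    Bool.not_eq_true', ← Bool.not_eq_true] at h
  obtain ⟨h1, h2, h3, h4, h5, h6, h7⟩ := h
  obtain ⟨k1, k2⟩ := qD_spec n (List.ofFn fun i : Fin 10 => idx z i) 0 h1
  have k3 : ∀ i : Fin 10, idx z i < n := fun i => (k1 _ (List.mem_ofFn.2 ⟨i, rfl⟩)).1
  have k4 : ∀ i j : Fin 10, idx z i = idx z j → i.1 = j.1 := fun i j e =>
    congrArg Fin.val (List.nodup_ofFn.1 k2 e)
  refine ⟨k3 8, k3 9, fun e => absurd (k4 9 8 e) (by decide), h2, fun i =>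
    ⟨fun e => absurd (k4 (i.castLE (by decide)) 8 e) (show i.1 ≠ 8 by omega),
      fun e => absurd (k4 (i.castLE (by decide)) 9 e) (show i.1 ≠ 9 by omega)⟩,
    fun i => k3 (i.castLE (by decide)),
    fun i j e => Fin.ext (k4 (i.castLE (by decide)) (j.castLE (by decide)) e), h3, fun i => ?_⟩
  have k5 : ∀ x, x = qX x 0 0 0 ∧ x = qX 0 x 0 0 ∧ x = qX 0 0 x 0 ∧ x = qX 0 0 0 x := fun x => by
    simp [qX]
  fin_cases i
  exacts [.inl (k5 _).1, .inl (k5 _).2.1, .inl (k5 _).2.2.1, .inl (k5 _).2.2.2, h4, h5, h6, h7]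

noncomputable def qS (u a : ℕ) (e : List ℕ × ℕ) : Bool :=
  qF (vnum u a 0) fun V => e.1.all (qC 10 V) && (Nat.beq a 0 || quads.all fun q =>
    qF (q >>> 16) fun r => (e.1.any fun z => r.testBit (idx z 8) || !r.testBit (idx z 9)) ||
      qF (vec V (idx q 0)) fun s0 => qF (vec V (idx q 1)) fun s1 => qF (vec V (idx q 2)) fun s2 =>
      qF (vec V (idx q 3)) fun s3 => !qFr s0 s1 s2 s3 a || (List.range 32).all fun b =>
        Nat.beq b 0 || (Nat.beq b a || (Nat.beq s0 b || (Nat.beq s1 b || (Nat.beq s2 b ||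
          (Nat.beq s3 b || qF ((e.2 >>> (40 * b)) % 2 ^ 40) fun w =>
            qC 11 (vnum u a b) w && (r.testBit (idx w 8) || !r.testBit (idx w 9))))))))

lemma qS_sound {u a : ℕ} {e : List ℕ × ℕ} (h : qS u a e = true) : St1 u a e := by
  simp only [qS, qF_eq, Bool.and_eq_true, Bool.or_eq_true, Nat.beq_eq, List.all_eq_true,
    List.any_eq_true, Bool.not_eq_true', List.mem_range] at h
  refine ⟨fun z hz => qC_sound (h.1 z hz), fun q hq h1 h2 h3 b hb => ?_⟩
  rcases (h.2.resolve_left h2) q hq with ⟨z, hz, k⟩ | k | k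
  · rw [(h1 z hz).1, (h1 z hz).2] at k
    exact absurd k (by decide)
  · rw [(qFr_iff ..).2 h3] at k
    exact absurd k (by decide)
  rcases k b hb with k | k | k | k | k | k | k
  exacts [.inl k, .inr (.inl k), .inr (.inr (.inl ⟨0, k⟩)), .inr (.inr (.inl ⟨1, k⟩)),
    .inr (.inr (.inl ⟨2, k⟩)), .inr (.inr (.inl ⟨3, k⟩)), .inr (.inr (.inr ⟨qC_sound k.1, k.2⟩))]

lemma qS_all {u : ℕ} {t : List (List ℕ × ℕ)}
    (h : ((List.range 32).all fun a => qS u a (t.getD a ([], 0))) = true) :
    ∀ a < 32, St1 u a (t.getD a ([], 0)) :=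
  fun a ha => qS_sound (List.all_eq_true.1 h a (List.mem_range.2 ha))

lemma quads_spec : ∀ S : Finset (Fin 8), S.card = 4 → ∃ q ∈ quads,
    (∀ i : Fin 8, (q >>> 16).testBit i = true ↔ i ∈ S) ∧ (q >>> 16).testBit 8 = false ∧
    (q >>> 16).testBit 9 = true ∧ (q >>> 16).testBit 10 = true ∧
    (∀ k : Fin 4, idx q k < 8 ∧ (q >>> 16).testBit (idx q k) = true) ∧
    ∀ k l : Fin 4, idx q k = idx q l → k = l := by decide +kernel

def tabK : List (Finset (Fin 8)) := [∅, {0}, {1}, {4}, {2}, {0, 2}, {5}, {1, 4, 5}, {3}, {7}, {1, 3}, {0, 4, 7}, {6}, {3, 6, 7}, {2, 5, 6}, {4, 6}]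

def tabF : ℕ := 53327776246460489178377139598387093797911959215260943314184141585077151465586548378156224772159630413775418107305634555250019635687011078330727926405193091008903019951446555577896337480985094133324049232300653515474126265049380108426507412717198327446078753822939901445159158052991972644862939990856182187804584571183695608689828010301802013573076399826380926449334597660618733456037373700669236668310142729753026789570665368104559278078908643613355926093125853000125712267845266864978528549561685853361710367615301391604140608919006352166573958830172973058421013315330392604014368749434792200672611695446520401273311066063490591190273154856925719402774690986275675964854075689569927988949259602969568993226022070467251287033022407726881957390471593866715598990598986175858727966005904746350593434713103626587443547901998345185930407278722754751323405155092483724879193293347110314987612834833721826448725644047004431605279510783892725973819074373890966468663015788452576423420184715593809213498977745468763941012107958026161310342187656779916257306211834888264002626811315763809230620179427343062498843512594491809121234151056555763739201586658309481226467316629498862971687241376666370074266911941887873067354033259282432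

lemma one_ext : ∀ a < 16, (tabK.getD a ∅).card ≤ 3 ∧ rW (tabK.getD a ∅) = (tabK.getD a ∅).card ∧
    ∑ i ∈ tabK.getD a ∅, xn (wv i) = xn a ∧ ∀ x ∈ tabK.getD a ∅,
      CertOK 9 (vnum 0 0 0 % 32 ^ 8 + a * 32 ^ 8) ((tabF >>> (32 * (8 * a + x))) % 2 ^ 32) 0 ∧
      ∀ i : Fin 8, idx ((tabF >>> (32 * (8 * a + x))) % 2 ^ 32) i ≠ x := by decide +kernel

end Pool.Agent.Work.MP_6b71e5_co
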