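import Pool.Agent.Work.MP_6b71e5_co.Emb
import Mathlib.Data.Fintype.Powerset
import Mathlib.Data.Fin.VecNotation
import Mathlib.Tactic.FinCases

/-! Three-connectivity, minimal counterexamples, vertical separations and Bixby's lemma. -/

namespace Pool.Agent.Work.MP_6b71e5_co

open Finset

variable {α : Type*} [DecidableEq α] {n : ℕ}

/-- rank function of the four point line -/
def rU (S : Finset (Fin 4)) : ℤ := min S.card 2

lemma nice_rU : Nice rU where
  four := le_rfl
  conn := by decide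
  one := by decide
  two := by decide
  co := by decide
  sd := ⟨Equiv.refl _, by decide⟩

namespace RM

variable {M : RM α} {ρ : Finset (Fin n) → ℤ}

lemma emb_U {C : Finset α} {φ : Fin 4 → α} (hC : C ⊆ M.E) (hφ : ∀ i, φ i ∈ M.E)
    (h2 : ∀ i j, i ≠ j → M.r C + 2 ≤ M.r (insert (φ i) (insert (φ j) C)))
    (h4 : M.r (img φ ∪ C) ≤ M.r C + 2) : M.Emb rU C φ := by
  have h1 : ∀ i, M.r (insert (φ i) C) = M.r C + 1 := fun i => by
    obtain ⟨j, hj⟩ := exists_ne i
    have := h2 j i hj
    have := M.r_ins (insert (φ i) C) (φ j)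
    have := M.r_ins C (φ i)
    omega
  refine ⟨fun i j hij => ?_, hφ, fun i hi => ?_, hC, fun S => ?_⟩
  · by_contra hne
    have e1 := h2 i j hne
    have e2 := h1 j
    rw [hij, insert_idem] at e1
    omega
  · have := h1 i
    rw [insert_eq_of_mem hi] at this
    omega
  · unfold rU
    rcases Nat.lt_or_ge 1 S.card with hS | hS
    · obtain ⟨i, hi, j, hj, hij⟩ := one_lt_card.1 hS
      have e0 := image_sub_img φ S
      have e1 := h2 i j hij
      have e2 := M.mono (S := insert (φ i) (insert (φ j) C)) (T := S.image φ ∪ C) (by grind)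
      have e3 := M.mono (S := S.image φ ∪ C) (T := img φ ∪ C) (by grind)
      omega
    · rcases S.eq_empty_or_nonempty with rfl | ⟨i, hi⟩
      · simp
      · have : S = {i} := eq_singleton_iff_unique_mem.2 ⟨hi, fun j hj => card_le_one.1 hS j hj i hi⟩
        subst this
        simpa using h1 i

lemma emb_U4 {C : Finset α} {a b c d : α} (hC : C ⊆ M.E) (ha : a ∈ M.E) (hb : b ∈ M.E)
    (hc : c ∈ M.E) (hd : d ∈ M.E)
    (hab : M.r C + 2 ≤ M.r (insert a (insert b C))) (hac : M.r C + 2 ≤ M.r (insert a (insert c C)))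
    (had : M.r C + 2 ≤ M.r (insert a (insert d C))) (hbc : M.r C + 2 ≤ M.r (insert b (insert c C)))
    (hbd : M.r C + 2 ≤ M.r (insert b (insert d C))) (hcd : M.r C + 2 ≤ M.r (insert c (insert d C)))
    (h4 : M.r (insert a (insert b (insert c (insert d C)))) ≤ M.r C + 2) :
    M.Emb rU C ![a, b, c, d] := by
  refine emb_U hC (fun i => by fin_cases i <;> simpa) (fun i j hij => ?_) ?_
  · fin_cases i <;> fin_cases j <;>
      first
      | exact absurd rfl hij
      | simpa
      | (rw [insert_comm]; simpa)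
  · refine le_trans (M.mono ?_) h4
    intro x hx
    rcases mem_union.1 hx with hx | hx
    · obtain ⟨i, rfl⟩ := mem_img.1 hx
      fin_cases i <;> simp
    · simp [hx]

def Conn2 (M : RM α) : Prop :=
  ∀ A ⊆ M.E, A.Nonempty → (M.E \ A).Nonempty → M.r M.E + 1 ≤ M.r A + M.r (M.E \ A)

def Conn3 (M : RM α) : Prop :=
  M.Conn2 ∧ ∀ A ⊆ M.E, 2 ≤ A.card → 2 ≤ (M.E \ A).card → M.r M.E + 2 ≤ M.r A + M.r (M.E \ A)

lemma Conn3.congr {M' : RM α} (h : M.Conn3) (hM : M.Eqv M') : M'.Conn3 := by
  obtain ⟨hE, hr⟩ := hM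
  constructor
  · intro A hA h1 h2
    rw [← hE] at *
    rw [← hr _ hA, ← hr _ Subset.rfl, ← hr _ sdiff_subset]
    exact h.1 A hA h1 h2
  · intro A hA h1 h2
    rw [← hE] at *
    rw [← hr _ hA, ← hr _ Subset.rfl, ← hr _ sdiff_subset]
    exact h.2 A hA h1 h2

lemma Conn3.dual (h : M.Conn3) : M.dual.Conn3 := by
  constructor
  · intro A hA h1 h2
    have := h.1 A hA h1 h2
    rw [dual_E, M.dual_r hA, M.dual_r_compl hA, dual_r_E]
    omega
  · intro A hA h1 h2
    have := h.2 A hA h1 h2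
    rw [dual_E, M.dual_r hA, M.dual_r_compl hA, dual_r_E]
    omega

lemma Conn2.single (h : M.Conn2) (h2 : 2 ≤ M.E.card) {x : α} (hx : x ∈ M.E) :
    M.r {x} = 1 ∧ M.r (M.E \ {x}) = M.r M.E := by
  have h1 : (M.E \ {x}).Nonempty := by
    rw [← card_pos, card_sdiff_of_subset (by simpa using hx), card_singleton]; omega
  have := h {x} (by simpa using hx) (by simp) h1
  have := M.single_le x
  have := M.mono (sdiff_subset (s := M.E) (t := {x}))
  omega

lemma Conn3.pair (h : M.Conn3) (h4 : 4 ≤ M.E.card) {x y : α} (hx : x ∈ M.E) (hy : y ∈ M.E)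
    (hxy : x ≠ y) : M.r {x, y} = 2 ∧ M.r (M.E \ {x, y}) = M.r M.E := by
  have h0 : ({x, y} : Finset α) ⊆ M.E := by grind
  have := h.2 {x, y} h0 (by rw [card_pair hxy]) (by rw [card_sdiff_of_subset h0, card_pair hxy]; omega)
  have := M.pair_le x y
  have := M.mono (sdiff_subset (s := M.E) (t := {x, y}))
  omega

lemma HasCD.card (h : M.HasCD ρ ∅ ∅) : n ≤ M.E.card := by
  obtain ⟨C, φ, h, -⟩ := h
  rw [← h.card_img]
  exact card_le_card h.img_sub

def Good (M : RM α) (ρ : Finset (Fin n) → ℤ) : Prop :=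
  M.Conn3 ∧ M.HasCD rU ∅ ∅ ∧ M.HasCD ρ ∅ ∅

lemma Good.congr {M' : RM α} (h : M.Good ρ) (hM : M.Eqv M') : M'.Good ρ :=
  ⟨h.1.congr hM, h.2.1.congr hM, h.2.2.congr hM⟩

lemma Good.dual (h : M.Good ρ) (hρ : Nice ρ) : M.dual.Good ρ :=
  ⟨h.1.dual, h.2.1.dual nice_rU, h.2.2.dual hρ⟩

/-- no proper minor is good -/
def Min (M : RM α) (ρ : Finset (Fin n) → ℤ) : Prop :=
  ∀ C F, C ⊆ M.E → F ⊆ M.E \ C → F ≠ M.E → ¬ ((M.con C).res F).Good ρ

lemma Min.dual (h : M.Min ρ) (hρ : Nice ρ) : M.dual.Min ρ := by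
  intro C F hC hF hne hg
  rw [dual_E] at hC hF hne
  refine h (M.E \ (C ∪ F)) F sdiff_subset (by grind) hne ((hg.dual hρ).congr ⟨rfl, fun S hS => ?_⟩)
  have hS' : S ⊆ F := hS
  rw [dual_r _ hS']
  simp only [res_E, res_r, con_r]
  rw [M.dual_r hC, M.dual_r (S := F \ S ∪ C) (by grind), M.dual_r (S := F ∪ C) (by grind)]
  have e1 : M.E \ (F \ S ∪ C) = S ∪ M.E \ (C ∪ F) := by grind
  have e2 : M.E \ (F ∪ C) = M.E \ (C ∪ F) := by grind
  have e3 : (F \ S ∪ C).card = (F \ S).card + C.card :=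
    card_union_of_disjoint (disjoint_left.2 (by grind))
  have e4 : (F ∪ C).card = F.card + C.card := card_union_of_disjoint (disjoint_left.2 (by grind))
  have e5 := card_sdiff_add_card_eq_card hS'
  rw [e1, e2]
  omega

lemma exists_good (hρ : Nice ρ) (k : ℕ) : ∀ P : RM α, P.E.card = k → P.Conn2 →
    (∀ A ⊆ P.E, 2 ≤ P.r A → 2 ≤ P.r (P.E \ A) → P.r P.E + 2 ≤ P.r A + P.r (P.E \ A)) →
    P.HasCD rU ∅ ∅ → P.HasCD ρ ∅ ∅ → ∃ F ⊆ P.E, (P.res F).Good ρ := by
  induction k with
  | zero =>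
    intro P hk _ _ hU _
    have := hU.card
    omega
  | succ k ih =>
    intro P hk h2 hv hU hN
    have h4 := hU.card
    by_cases hp : ∃ a ∈ P.E, ∃ b ∈ P.E, a ≠ b ∧ P.sp {a} b
    · obtain ⟨a, ha, b, hb, hab, hs⟩ := hp
      have key : ∀ A : Finset α, a ∈ A → P.r (insert b A) = P.r A := fun A hA =>
        hs.mono (by grind)
      have hE : P.r (P.E.erase b) = P.r P.E := by
        rw [← key _ (by grind), insert_erase hb]
      have key2 : ∀ A ⊆ P.E.erase b, ∃ A' ⊆ P.E, A ⊆ A' ∧ P.E.erase b \ A ⊆ P.E \ A' ∧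
          P.r A' = P.r A ∧ P.r (P.E \ A') = P.r (P.E.erase b \ A) := fun A hA => by
        clear * - hA key ha hb hab
        by_cases haA : a ∈ A
        · refine ⟨insert b A, by grind, by grind, by grind, key A haA, ?_⟩
          congr 1; grind
        · refine ⟨A, by grind, by grind, by grind, rfl, ?_⟩
          rw [← key (P.E.erase b \ A) (by grind)]
          congr 1; grind
      obtain ⟨F, hF, hg⟩ := ih (P.res (P.E.erase b)) (by simp [card_erase_of_mem hb, hk])
        (fun A hA h1 h3 => by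
          obtain ⟨A', e1, e2, e3, e4, e5⟩ := key2 A hA
          have := h2 A' e1 (h1.mono e2) (h3.mono e3)
          simp only [res_E, res_r]
          omega)
        (fun A hA h1 h3 => by
          obtain ⟨A', e1, e2, e3, e4, e5⟩ := key2 A hA
          simp only [res_E, res_r] at *
          have := hv A' e1 (by omega) (by omega)
          omega)
        ((hU.par nice_rU ha hb hab hs).to_res (by clear * -; grind) (by simp))
        ((hN.par hρ ha hb hab hs).to_res (by clear * -; grind) (by simp))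
      exact ⟨F, hF.trans (erase_subset _ _), hg⟩
    · push Not at hp
      have key : ∀ A ⊆ P.E, 2 ≤ A.card → 2 ≤ P.r A := fun A hA h1 => by
        obtain ⟨a, ha, b, hb, hab⟩ := one_lt_card.1 h1
        have e1 := not_sp (hp a (hA ha) b (hA hb) hab)
        have e2 := (h2.single (by omega) (hA ha)).1
        have e3 := P.mono (S := {b, a}) (T := A) (by grind)
        omega
      exact ⟨P.E, Subset.rfl, ⟨h2, fun A hA h1 h3 => hv A hA (key A hA h1) (key _ sdiff_subset h3)⟩,
        hU, hN⟩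

/-- `A` is one side of a vertical 2-separation of the contraction of `x` -/
structure Vert (M : RM α) (x : α) (A : Finset α) : Prop where
  mem : x ∈ M.E
  sub : A ⊆ M.E
  nmem : x ∉ A
  l : 3 ≤ M.r (insert x A)
  r : 3 ≤ M.r (M.E \ A)
  s : M.r (insert x A) + M.r (M.E \ A) ≤ M.r M.E + 2

lemma Vert.symm {x : α} {A : Finset α} (h : M.Vert x A) : M.Vert x (M.E \ insert x A) := by
  have h1 := h.mem
  have h2 := h.sub
  have h3 := h.nmem
  have e1 : insert x (M.E \ insert x A) = M.E \ A := by grind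
  have e2 : M.E \ (M.E \ insert x A) = insert x A := by grind
  refine ⟨h1, sdiff_subset, by simp, ?_, ?_, ?_⟩
  · rw [e1]; exact h.r
  · rw [e2]; exact h.l
  · rw [e1, e2, add_comm]; exact h.s

lemma HasCD.memC {x : α} {D : Finset α} (h : M.HasCD ρ {x} D) : x ∈ M.E := by
  obtain ⟨C, φ, h1, h2, -⟩ := h
  exact h1.sub (h2 (mem_singleton_self _))

lemma HasCD.memD {x : α} {C : Finset α} (h : M.HasCD ρ C {x}) : x ∈ M.E := by
  obtain ⟨C, φ, h1, -, h2⟩ := h
  exact (mem_sdiff.1 (h2 (mem_singleton_self _))).1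

lemma exists_vert (hρ : Nice ρ) (h3 : M.Conn3) (hm : M.Min ρ) {x : α} (hU : M.HasCD rU {x} ∅)
    (hN : M.HasCD ρ {x} ∅) : ∃ A, M.Vert x A := by
  by_contra hc
  push Not at hc
  have hx := hU.memC
  have h4 := (hU.mono (empty_subset _) Subset.rfl).card
  have h1 := (h3.1.single (by omega) hx).1
  have hE : insert x (M.E \ {x}) = M.E := by grind
  obtain ⟨F, hF, hg⟩ := exists_good hρ _ (M.con {x}) rfl
    (fun A hA e1 e2 => by
      rw [con_E] at hA e2
      have e3 : insert x ((M.E \ {x}) \ A) = M.E \ A := by grind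
      simp only [con_E, con1_r, hE, e3]
      obtain ⟨a, ha⟩ := e1
      obtain ⟨b, hb⟩ := e2
      rcases Nat.lt_or_ge 1 A.card with e4 | e4
      · have := h3.2 A (by grind) e4 (one_lt_card.2 ⟨x, by grind, b, by grind, by grind⟩)
        have := M.ins_ge A x
        omega
      · have e5 : A = {a} := eq_singleton_iff_unique_mem.2 ⟨ha, fun j hj => card_le_one.1 e4 j hj a ha⟩
        subst e5
        have := (h3.pair h4 hx (y := a) (by grind) (by grind)).1
        have := (h3.1.single (by omega) (x := a) (by grind)).2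
        omega)
    (fun A hA e1 e2 => by
      rw [con_E] at hA e2
      have e3 : insert x ((M.E \ {x}) \ A) = M.E \ A := by grind
      simp only [con_E, con1_r, hE, e3] at e1 e2 ⊢
      by_contra e4
      exact hc A ⟨hx, by grind, by grind, by omega, by omega, by omega⟩)
    ((hU.to_con Subset.rfl).mono (by simp) Subset.rfl)
    ((hN.to_con Subset.rfl).mono (by simp) Subset.rfl)
  exact hm {x} F (by simpa using hx) hF (by grind [con_E]) hg

lemma two_le_card_of_r {x : α} {A : Finset α} (h : 3 ≤ M.r (insert x A)) : 2 ≤ A.card := by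
  have := M.r_ins A x
  have := M.le_card A
  omega

lemma bixby_aux (h3 : M.Conn3) {x : α} {A B A' B' : Finset α}
    (hA : ∀ y, y ∈ A ∨ y ∈ B ↔ y ∈ M.E ∧ y ≠ x) (hAB : ∀ y ∈ A, y ∉ B)
    (hA' : ∀ y, y ∈ A' ∨ y ∈ B' ↔ y ∈ M.E ∧ y ≠ x)
    (h1 : M.r (insert x A) + M.r (insert x B) ≤ M.r M.E + 2) (h2 : M.r A' + M.r B' ≤ M.r M.E + 1)
    (cA : 2 ≤ A.card) (cB : 2 ≤ B.card) : (A ∩ A').card ≤ 1 ∨ (B ∩ B').card ≤ 1 := by
  by_contra hc
  push Not at hc
  have e1 := h3.2 (A ∩ A') (by grind) hc.1 (le_trans cB (card_le_card (by grind)))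
  have e2 := h3.2 (B ∩ B') (by grind) hc.2 (le_trans cA (card_le_card (by grind)))
  have e3 := M.sub (insert x A) A' (M.E \ (B ∩ B')) (A ∩ A') (by grind) (by grind)
  have e4 := M.sub (insert x B) B' (M.E \ (A ∩ A')) (B ∩ B') (by grind) (by grind)
  omega

lemma Vert.three (h3 : M.Conn3) (h4 : 4 ≤ M.E.card) {x : α} {A : Finset α} (h : M.Vert x A) :
    3 ≤ A.card := by
  by_contra hc
  obtain ⟨a, b, hab, rfl⟩ := card_eq_two.1 (show A.card = 2 by have := two_le_card_of_r h.l; omega)
  have := h.sub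
  have := (h3.pair h4 (x := a) (y := b) (by grind) (by grind) hab).2
  have := h.l
  have := h.s
  omega

lemma bixby (h3 : M.Conn3) (h4 : 4 ≤ M.E.card) {x : α} {A A' : Finset α} (h : M.Vert x A)
    (h' : M.dual.Vert x A') : False := by
  have c1 := h.three h3 h4
  have c2 := h.symm.three h3 h4
  have c3 := h'.three h3.dual h4
  have c4 := h'.symm.three h3.dual h4
  have hx := h.mem
  have a1 := h.sub
  have a2 := h.nmem
  have a3 : A' ⊆ M.E := h'.sub
  have a4 := h'.nmem
  have s1 := h.s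
  have s2 := h'.s
  rw [dual_E] at c4
  rw [dual_E, M.dual_r (by grind), M.dual_r_compl a3, dual_r_E, card_insert_of_notMem a4] at s2
  set B := M.E \ insert x A with hB
  set B' := M.E \ insert x A' with hB'
  have e1 : M.E \ A = insert x B := by grind
  rw [e1] at s1
  have b1 := bixby_aux h3 (x := x) (A := A) (B := B) (A' := A') (B' := B') (by grind) (by grind)
    (by grind) s1 (by omega) (by omega) (by omega)
  have b2 := bixby_aux h3 (x := x) (A := A) (B := B) (A' := B') (B' := A') (by grind) (by grind)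
    (by grind) s1 (by omega) (by omega) (by omega)
  have d1 : A.card ≤ (A ∩ A').card + (A ∩ B').card :=
    le_trans (card_le_card (by grind)) (card_union_le _ _)
  have d2 : B.card ≤ (B ∩ A').card + (B ∩ B').card :=
    le_trans (card_le_card (by grind)) (card_union_le _ _)
  have d3 : A'.card ≤ (A ∩ A').card + (B ∩ A').card :=
    le_trans (card_le_card (by grind)) (card_union_le _ _)
  have d4 : B'.card ≤ (A ∩ B').card + (B ∩ B').card :=
    le_trans (card_le_card (by grind)) (card_union_le _ _)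
  omega

end RM

end Pool.Agent.Work.MP_6b71e5_co
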