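import Mathlib.Combinatorics.Matroid.Minor.Order
import Mathlib.Combinatorics.Matroid.Rank.ENat
import Mathlib.Combinatorics.SimpleGraph.Acyclic
import Mathlib.LinearAlgebra.LinearIndependent.Defs
import Mathlib.Data.ZMod.Basic

/-! Definitions used in the statement. -/

namespace Pool.Agent.Work.MP_6b71e5_co

open scoped Matroid

variable {α : Type*}

/-- `M` is representable over `GF(2)`: its elements can be labelled by vectors of some `GF(2)^n`
so that a subset of the ground set is independent exactly when its family of vectors is linearly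
independent. -/
def IsBinary (M : Matroid α) : Prop :=
  ∃ (n : ℕ) (v : α → Fin n → ZMod 2), ∀ I ⊆ M.E, (M.Indep I ↔ LinearIndepOn (ZMod 2) v I)

/-- `(X, Y)` is a `k`-separation: a partition of the ground set with `|X|, |Y| ≥ k` and
`r(X) + r(Y) - r(M) ≤ k - 1`. -/
def IsSeparation (M : Matroid α) (k : ℕ) (X Y : Set α) : Prop :=
  Disjoint X Y ∧ X ∪ Y = M.E ∧ (k : ℕ∞) ≤ X.encard ∧ (k : ℕ∞) ≤ Y.encard ∧
    M.eRk X + M.eRk Y + 1 ≤ M.eRank + k

/-- Tutte 3-connectivity: no `k`-separation for `k = 1, 2`. -/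
def IsThreeConnected (M : Matroid α) : Prop :=
  ∀ k, k = 1 ∨ k = 2 → ∀ X Y, ¬ IsSeparation M k X Y

/-- The wheel with four spokes: rim `0 1 2 3` (a 4-cycle) and hub `4`. -/
def W4 : SimpleGraph (Fin 5) :=
  SimpleGraph.fromRel fun a b => b = 4 ∨ (a ≠ 4 ∧ b.val = (a.val + 1) % 4)

/-- `N` is isomorphic to the cycle matroid of `W4`: a bijection from the edges of `W4` onto the
ground set matches the acyclic edge sets with the independent sets. -/
def IsWheel4 (N : Matroid α) : Prop :=
  ∃ f : W4.edgeSet ≃ N.E, ∀ S : Set W4.edgeSet,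
    N.Indep ((fun e => (f e : α)) '' S) ↔ (SimpleGraph.fromEdgeSet (Subtype.val '' S)).IsAcyclic

/-- `M` has a minor isomorphic to the cycle matroid of `W4`. -/
def HasWheel4Minor (M : Matroid α) : Prop := ∃ N, N ≤m M ∧ IsWheel4 N

end Pool.Agent.Work.MP_6b71e5_co
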