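import Pool.Agent.Work.MP_6b71e5_co.Basic

/-! Embeddings of a fixed small rank function as a minor. -/

namespace Pool.Agent.Work.MP_6b71e5_co

open Finset

variable {α : Type*} [DecidableEq α] {n : ℕ}

def img (φ : Fin n → α) : Finset α := univ.image φ

lemma mem_img {φ : Fin n → α} {x : α} : x ∈ img φ ↔ ∃ i, φ i = x := by simp [img]

lemma self_mem_img (φ : Fin n → α) (i : Fin n) : φ i ∈ img φ := mem_img.2 ⟨i, rfl⟩

lemma image_sub_img (φ : Fin n → α) (S : Finset (Fin n)) : S.image φ ⊆ img φ :=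
  image_subset_image (subset_univ _)

/-- number of indices mapped into `A` -/
def cnt (φ : Fin n → α) (A : Finset α) : ℕ := (univ.filter (fun i => φ i ∈ A)).card

lemma cnt_mono (φ : Fin n → α) {A B : Finset α} (h : ∀ i, φ i ∈ A → φ i ∈ B) :
    cnt φ A ≤ cnt φ B := card_le_card (by grind)

lemma cnt_union (φ : Fin n → α) (A B C : Finset α) (h : ∀ i, φ i ∈ C → φ i ∈ A ∨ φ i ∈ B) :
    cnt φ C ≤ cnt φ A + cnt φ B := by
  unfold cnt
  refine le_trans (card_le_card ?_) (card_union_le _ _)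
  grind

lemma cnt_le_card {φ : Fin n → α} (hφ : Function.Injective φ) (A : Finset α) :
    cnt φ A ≤ A.card := by
  unfold cnt
  rw [← card_image_of_injective _ hφ]
  exact card_le_card (by grind)

lemma cnt_cover (φ : Fin n → α) (A B : Finset α) (h : ∀ i, φ i ∈ A ∨ φ i ∈ B) :
    n ≤ cnt φ A + cnt φ B := by
  unfold cnt
  refine le_trans ?_ (card_union_le _ _)
  refine le_trans (by simp) (card_le_card (s := univ) ?_)
  grind

lemma cnt_two {φ : Fin n → α} {A : Finset α} (h : cnt φ A ≤ 1) {i j : Fin n} (hi : φ i ∈ A)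
    (hj : φ j ∈ A) : i = j :=
  card_le_one.1 h i (by simpa using hi) j (by simpa using hj)

structure Nice (ρ : Finset (Fin n) → ℤ) : Prop where
  four : 4 ≤ n
  conn : ∀ S : Finset (Fin n), 2 ≤ S.card → 2 ≤ Sᶜ.card → ρ univ + 2 ≤ ρ S + ρ Sᶜ
  one : ∀ i, ρ {i} = 1
  two : ∀ i j, i ≠ j → ρ {i, j} = 2
  co : ∀ i, ρ (univ.erase i) = ρ univ
  sd : ∃ σ : Equiv.Perm (Fin n), ∀ S : Finset (Fin n),
    (S.card : ℤ) + ρ (S.image σ)ᶜ - ρ univ = ρ S

namespace RM

structure Emb (M : RM α) (ρ : Finset (Fin n) → ℤ) (C : Finset α) (φ : Fin n → α) : Prop where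
  inj : Function.Injective φ
  mem : ∀ i, φ i ∈ M.E
  nmem : ∀ i, φ i ∉ C
  sub : C ⊆ M.E
  rk : ∀ S : Finset (Fin n), M.r (S.image φ ∪ C) = M.r C + ρ S

/-- a minor with rank function `ρ` in which `C0` is contracted and `D0` is deleted -/
def HasCD (M : RM α) (ρ : Finset (Fin n) → ℤ) (C0 D0 : Finset α) : Prop :=
  ∃ C φ, M.Emb ρ C φ ∧ C0 ⊆ C ∧ D0 ⊆ M.E \ (C ∪ img φ)

variable {M : RM α} {ρ : Finset (Fin n) → ℤ} {C : Finset α} {φ : Fin n → α}

lemma Emb.img_sub (h : M.Emb ρ C φ) : img φ ⊆ M.E := by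
  intro x hx; obtain ⟨i, rfl⟩ := mem_img.1 hx; exact h.mem i

lemma Emb.not_img (h : M.Emb ρ C φ) {x : α} (hx : x ∈ C) : x ∉ img φ := by
  intro hx'; obtain ⟨i, rfl⟩ := mem_img.1 hx'; exact h.nmem i hx

lemma Emb.card_img (h : M.Emb ρ C φ) : (img φ).card = n := by
  unfold img; rw [card_image_of_injective _ h.inj]; simp

lemma Emb.rk_univ (h : M.Emb ρ C φ) : M.r (img φ ∪ C) = M.r C + ρ univ := h.rk univ

lemma Emb.rk1 (h : M.Emb ρ C φ) (i : Fin n) : M.r (insert (φ i) C) = M.r C + ρ {i} := by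
  simpa using h.rk {i}

lemma Emb.rk2 (h : M.Emb ρ C φ) (i j : Fin n) :
    M.r (insert (φ i) (insert (φ j) C)) = M.r C + ρ {i, j} := by
  simpa using h.rk {i, j}

lemma Emb.not_sp1 (h : M.Emb ρ C φ) (hρ : Nice ρ) (i : Fin n) : ¬ M.sp C (φ i) := by
  have := h.rk1 i
  have := hρ.one i
  unfold sp; omega

lemma Emb.not_sp2 (h : M.Emb ρ C φ) (hρ : Nice ρ) {i j : Fin n} (hij : i ≠ j) :
    ¬ M.sp (insert (φ j) C) (φ i) := by
  have := h.rk1 j
  have := h.rk2 i j
  have := hρ.one j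
  have := hρ.two i j hij
  unfold sp; omega

lemma Emb.congr {M' : RM α} (h : M.Emb ρ C φ) (hM : M.Eqv M') : M'.Emb ρ C φ where
  inj := h.inj
  mem i := hM.1 ▸ h.mem i
  nmem := h.nmem
  sub := hM.1 ▸ h.sub
  rk S := by
    rw [← hM.2 _ h.sub, ← hM.2 _ (union_subset ((image_sub_img φ S).trans h.img_sub) h.sub)]
    exact h.rk S

lemma HasCD.congr {M' : RM α} {C0 D0 : Finset α} (h : M.HasCD ρ C0 D0) (hM : M.Eqv M') :
    M'.HasCD ρ C0 D0 := by
  obtain ⟨C, φ, h1, h2, h3⟩ := h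
  exact ⟨C, φ, h1.congr hM, h2, hM.1 ▸ h3⟩

lemma HasCD.mono {C0 D0 C1 D1 : Finset α} (h : M.HasCD ρ C0 D0) (hC : C1 ⊆ C0) (hD : D1 ⊆ D0) :
    M.HasCD ρ C1 D1 := by
  obtain ⟨C, φ, h1, h2, h3⟩ := h
  exact ⟨C, φ, h1, hC.trans h2, hD.trans h3⟩

lemma Emb.has (h : M.Emb ρ C φ) : M.HasCD ρ ∅ ∅ := ⟨C, φ, h, by simp, by simp⟩

lemma Emb.hasC (h : M.Emb ρ C φ) {x : α} (hx : x ∈ C) : M.HasCD ρ {x} ∅ :=
  ⟨C, φ, h, by simpa using hx, by simp⟩

lemma Emb.hasD (h : M.Emb ρ C φ) {x : α} (hx : x ∈ M.E) (h1 : x ∉ C) (h2 : x ∉ img φ) :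
    M.HasCD ρ ∅ {x} :=
  ⟨C, φ, h, by simp, by simp [hx, h1, h2]⟩

lemma Emb.dual (h : M.Emb ρ C φ) (hρ : Nice ρ) :
    ∃ ψ, M.dual.Emb ρ (M.E \ (C ∪ img φ)) ψ ∧ img ψ = img φ := by
  obtain ⟨σ, hσ⟩ := hρ.sd
  have hi : img (φ ∘ σ) = img φ := by
    unfold img; rw [← image_image]; simp
  have h0 := h.img_sub
  have h1 := h.sub
  refine ⟨φ ∘ σ, ⟨h.inj.comp σ.injective, fun i => h.mem _, fun i => ?_, sdiff_subset, fun S => ?_⟩, hi⟩
  · simp [self_mem_img]
  · have h2 : S.image (φ ∘ σ) ⊆ img φ := hi ▸ image_sub_img _ S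
    rw [M.dual_r (by grind), M.dual_r sdiff_subset, card_union_of_disjoint (disjoint_left.2 (by grind)),
      card_image_of_injective _ (h.inj.comp σ.injective)]
    have h3 : M.E \ (S.image (φ ∘ σ) ∪ M.E \ (C ∪ img φ)) = ((S.image σ)ᶜ).image φ ∪ C := by
      ext x
      by_cases hx : x ∈ img φ
      · obtain ⟨i, rfl⟩ := mem_img.1 hx
        have e1 : φ i ∈ S.image (φ ∘ σ) ↔ i ∈ S.image σ := by
          rw [← image_image, h.inj.mem_finset_image]
        have e2 : φ i ∈ ((S.image σ)ᶜ).image φ ↔ i ∉ S.image σ := by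
          rw [h.inj.mem_finset_image, mem_compl]
        have e3 := h.nmem i
        have e4 := h.mem i
        simp only [mem_sdiff, mem_union, e1, e2]
        tauto
      · have e1 := image_sub_img φ (S.image σ)ᶜ
        grind
    have h4 : M.E \ (M.E \ (C ∪ img φ)) = img φ ∪ C := by grind
    rw [h3, h4, h.rk, h.rk_univ]
    have := hσ S
    push_cast
    omega

lemma HasCD.dual {C0 D0 : Finset α} (h : M.HasCD ρ C0 D0) (hρ : Nice ρ) :
    M.dual.HasCD ρ D0 C0 := by
  obtain ⟨C, φ, h1, h2, h3⟩ := h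
  obtain ⟨ψ, h4, h5⟩ := h1.dual hρ
  refine ⟨_, ψ, h4, h3, ?_⟩
  have := h1.sub
  have := @h1.not_img
  rw [h5, dual_E]
  grind

lemma HasCD.of_dual {C0 D0 : Finset α} (h : M.dual.HasCD ρ C0 D0) (hρ : Nice ρ) :
    M.HasCD ρ D0 C0 := (h.dual hρ).congr M.dual_dual

lemma Emb.of_con {C0 : Finset α} (h : (M.con C0).Emb ρ C φ) (h0 : C0 ⊆ M.E) :
    M.Emb ρ (C ∪ C0) φ where
  inj := h.inj
  mem i := (mem_sdiff.1 (h.mem i)).1
  nmem i := by
    have := h.mem i
    have := h.nmem i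
    grind [con_E]
  sub := union_subset (h.sub.trans sdiff_subset) h0
  rk S := by
    have := h.rk S
    simp only [con_r, union_assoc] at this ⊢
    omega

lemma Emb.to_con {C0 : Finset α} (h : M.Emb ρ C φ) (h0 : C0 ⊆ C) :
    (M.con C0).Emb ρ (C \ C0) φ where
  inj := h.inj
  mem i := by
    have := h.mem i
    have := h.nmem i
    grind [con_E]
  nmem i := by
    have := h.nmem i
    grind
  sub := sdiff_subset_sdiff h.sub Subset.rfl
  rk S := by
    have := h.rk S
    simp only [con_r, union_assoc, sdiff_union_of_subset h0]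
    omega

lemma Emb.to_res {F : Finset α} (h : M.Emb ρ C φ) (h0 : C ⊆ F) (h1 : ∀ i, φ i ∈ F) :
    (M.res F).Emb ρ C φ := ⟨h.inj, h1, h.nmem, h0, h.rk⟩

lemma Emb.of_res {F : Finset α} (h : (M.res F).Emb ρ C φ) (h0 : F ⊆ M.E) : M.Emb ρ C φ :=
  ⟨h.inj, fun i => h0 (h.mem i), h.nmem, h.sub.trans h0, h.rk⟩

lemma HasCD.of_con {C0 C1 D1 : Finset α} (h : (M.con C0).HasCD ρ C1 D1) (h0 : C0 ⊆ M.E) :
    M.HasCD ρ (C1 ∪ C0) D1 := by
  obtain ⟨C, φ, h1, h2, h3⟩ := h
  exact ⟨_, φ, h1.of_con h0, by grind, by grind [con_E]⟩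

lemma HasCD.to_con {C0 C1 D1 : Finset α} (h : M.HasCD ρ C1 D1) (h0 : C0 ⊆ C1) :
    (M.con C0).HasCD ρ (C1 \ C0) D1 := by
  obtain ⟨C, φ, h1, h2, h3⟩ := h
  exact ⟨_, φ, h1.to_con (h0.trans h2), by grind, by grind [con_E]⟩

lemma HasCD.of_res {F C1 D1 : Finset α} (h : (M.res F).HasCD ρ C1 D1) (h0 : F ⊆ M.E) :
    M.HasCD ρ C1 (D1 ∪ M.E \ F) := by
  obtain ⟨C, φ, h1, h2, h3⟩ := h
  have := h1.sub
  have := h1.img_sub
  exact ⟨_, φ, h1.of_res h0, h2, by grind [res_E]⟩

lemma HasCD.to_res {F C1 D1 D2 : Finset α} (h : M.HasCD ρ C1 D1)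
    (h0 : ∀ x ∈ M.E, x ∉ F → x ∈ D1) (h2 : D2 ⊆ D1 ∩ F) : (M.res F).HasCD ρ C1 D2 := by
  obtain ⟨C, φ, h1, h3, h4⟩ := h
  have := h1.sub
  have := h1.img_sub
  refine ⟨_, φ, h1.to_res (by grind) (fun i => ?_), h3, by grind [res_E]⟩
  have := self_mem_img φ i
  grind

lemma Emb.of_cl {C' : Finset α} (h : M.Emb ρ C φ) (h0 : C' ⊆ M.E) (h1 : ∀ i, φ i ∉ C')
    (h2 : ∀ x ∈ C, M.sp C' x) (h3 : ∀ x ∈ C', M.sp C x) : M.Emb ρ C' φ where
  inj := h.inj
  mem := h.mem
  nmem := h1
  sub := h0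
  rk S := by
    have e1 := r_le_of_sp h2
    have e2 := r_le_of_sp h3
    have e3 : M.r (S.image φ ∪ C) ≤ M.r (S.image φ ∪ C') := r_le_of_sp fun x hx => by
      rcases mem_union.1 hx with hx | hx
      · exact sp_of_mem (mem_union_left _ hx)
      · exact (h2 x hx).mono subset_union_right
    have e4 : M.r (S.image φ ∪ C') ≤ M.r (S.image φ ∪ C) := r_le_of_sp fun x hx => by
      rcases mem_union.1 hx with hx | hx
      · exact sp_of_mem (mem_union_left _ hx)
      · exact (h3 x hx).mono subset_union_right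
    have := h.rk S
    omega

lemma Emb.add_free (h : M.Emb ρ C φ) {e : α} (he : e ∈ M.E) (hs : ¬ M.sp (C ∪ img φ) e) :
    M.Emb ρ (insert e C) φ where
  inj := h.inj
  mem := h.mem
  nmem i := by
    have := h.nmem i
    have : φ i ≠ e := fun h1 => hs (sp_of_mem (h1 ▸ mem_union_right _ (self_mem_img φ i)))
    grind
  sub := insert_subset he h.sub
  rk S := by
    have e0 := image_sub_img φ S
    have e1 := not_sp (S := C) (e := e) fun h1 => hs (h1.mono subset_union_left)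
    have e2 := not_sp (S := S.image φ ∪ C) (e := e) fun h1 => hs (h1.mono (by grind))
    have := h.rk S
    rw [union_insert]
    omega

lemma Emb.add_loop (h : M.Emb ρ C φ) {e : α} (he : e ∈ M.E) (h1 : e ∉ img φ) (hs : M.sp C e) :
    M.Emb ρ (insert e C) φ := by
  refine h.of_cl (insert_subset he h.sub) (fun i => ?_) (fun x hx => sp_of_mem (by grind))
    fun x hx => ?_
  · have := h.nmem i
    have := self_mem_img φ i
    grind
  · rcases mem_insert.1 hx with rfl | hx
    · exact hs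
    · exact sp_of_mem hx

lemma Emb.erase_loop (h : M.Emb ρ C φ) {e : α} (hs : M.sp (C.erase e) e) :
    M.Emb ρ (C.erase e) φ := by
  refine h.of_cl ((erase_subset _ _).trans h.sub) (fun i => ?_) (fun x hx => ?_)
    fun x hx => sp_of_mem (by grind)
  · have := h.nmem i
    grind
  · by_cases hxe : x = e
    · exact hxe ▸ hs
    · exact sp_of_mem (by grind)

lemma image_update_mem (φ : Fin n → α) (i : Fin n) (b : α) {S : Finset (Fin n)} (hi : i ∈ S) :
    S.image (Function.update φ i b) = insert b ((S.erase i).image φ) := by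
  conv_lhs => rw [← insert_erase hi, image_insert]
  congr 1
  · simp
  · exact image_congr fun j hj => Function.update_of_ne (ne_of_mem_erase hj) _ _

lemma image_update_notMem (φ : Fin n → α) (i : Fin n) (b : α) {S : Finset (Fin n)} (hi : i ∉ S) :
    S.image (Function.update φ i b) = S.image φ :=
  image_congr fun j hj => Function.update_of_ne (fun h : j = i => hi (h ▸ hj)) _ _

omit [DecidableEq α] in
lemma update_inj {φ : Fin n → α} (h : Function.Injective φ) (i : Fin n) {b : α}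
    (hb : ∀ j, j ≠ i → φ j ≠ b) : Function.Injective (Function.update φ i b) := by
  intro j k hjk
  by_cases hj : j = i <;> by_cases hk : k = i
  · rw [hj, hk]
  · subst hj
    rw [Function.update_self, Function.update_of_ne hk] at hjk
    exact absurd hjk.symm (hb k hk)
  · subst hk
    rw [Function.update_self, Function.update_of_ne hj] at hjk
    exact absurd hjk (hb j hj)
  · rw [Function.update_of_ne hj, Function.update_of_ne hk] at hjk
    exact h hjk

lemma mem_img_update {φ : Fin n → α} {i : Fin n} {b x : α} (h : x ∈ img (Function.update φ i b)) :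
    x = b ∨ ∃ j, j ≠ i ∧ φ j = x := by
  obtain ⟨j, hj⟩ := mem_img.1 h
  by_cases hji : j = i
  · subst hji; left; simpa using hj.symm
  · right; exact ⟨j, hji, by rwa [Function.update_of_ne hji] at hj⟩

lemma Emb.swap (h : M.Emb ρ C φ) (i : Fin n) {b : α} (hb : b ∈ M.E) (h1 : b ∉ C) (h2 : b ∉ img φ)
    (h3 : M.sp (insert (φ i) C) b) (h4 : M.sp (insert b C) (φ i)) :
    M.Emb ρ C (Function.update φ i b) where
  inj := update_inj h.inj i fun j _ hj => h2 (hj ▸ self_mem_img φ j)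
  mem j := by
    by_cases hj : j = i
    · subst hj; simpa using hb
    · rw [Function.update_of_ne hj]; exact h.mem j
  nmem j := by
    by_cases hj : j = i
    · subst hj; simpa using h1
    · rw [Function.update_of_ne hj]; exact h.nmem j
  sub := h.sub
  rk S := by
    by_cases hi : i ∈ S
    · rw [image_update_mem φ i b hi, ← h.rk S]
      conv_rhs => rw [← insert_erase hi, image_insert]
      have e1 := h3.mono (T := insert (φ i) ((S.erase i).image φ ∪ C)) (by grind)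
      have e2 := h4.mono (T := insert b ((S.erase i).image φ ∪ C)) (by grind)
      unfold sp at e1 e2
      rw [insert_comm] at e1
      rw [insert_union, insert_union]
      omega
    · rw [image_update_notMem φ i b hi]; exact h.rk S

/-- an element in the closure of another element can be deleted -/
lemma HasCD.par (h : M.HasCD ρ ∅ ∅) (hρ : Nice ρ) {a b : α} (ha : a ∈ M.E) (hb : b ∈ M.E)
    (hab : a ≠ b) (hs : M.sp {a} b) : M.HasCD ρ ∅ {b} := by
  obtain ⟨C, φ, h, -, -⟩ := h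
  by_cases hbC : b ∈ C
  · by_cases h1 : M.sp (C.erase b) b
    · exact (h.erase_loop h1).hasD hb (by simp) (h.not_img hbC)
    have h2 : M.sp (insert b (C.erase b)) a :=
      sp.exch (hs.mono (by grind)) h1
    rw [insert_erase hbC] at h2
    have h3 : a ∉ img φ := by
      intro h3
      obtain ⟨i, rfl⟩ := mem_img.1 h3
      exact h.not_sp1 hρ i h2
    have h4 := h.add_loop ha h3 h2
    exact (h4.erase_loop (e := b) (hs.mono (by grind))).hasD hb (by simp) (h.not_img hbC)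
  by_cases hbi : b ∈ img φ
  · obtain ⟨i, rfl⟩ := mem_img.1 hbi
    have h1 := h.not_sp1 hρ i
    have h2 : a ∉ C := fun h2 => h1 (hs.mono (by grind))
    have h3 : a ∉ img φ := by
      intro h3
      obtain ⟨j, rfl⟩ := mem_img.1 h3
      exact h.not_sp2 hρ (i := i) (j := j) (fun h4 => hab (by rw [h4])) (hs.mono (by grind))
    have h4 : M.sp (insert a C) (φ i) := hs.mono (by grind)
    refine (h.swap i ha h2 h3 (h4.exch h1) h4).hasD hb hbC fun h5 => ?_
    rcases mem_img_update h5 with h5 | ⟨j, hj, h5⟩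
    · exact hab h5.symm
    · exact hj (h.inj h5)
  exact h.hasD hb hbC hbi

/-- an element in the coclosure of another element can be contracted -/
lemma HasCD.ser (h : M.HasCD ρ ∅ ∅) (hρ : Nice ρ) {a b : α} (ha : a ∈ M.E) (hb : b ∈ M.E)
    (hab : a ≠ b) (hs : M.r (M.E \ {a, b}) < M.r (M.E \ {a})) : M.HasCD ρ {b} ∅ := by
  refine ((h.dual hρ).par hρ ha hb hab (sp_of_le ?_)).of_dual hρ
  rw [M.dual_r (by grind), M.dual_r (by grind), pair_comm b a, card_pair hab, card_singleton]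
  push_cast
  omega

lemma Emb.sep (h : M.Emb ρ C φ) (hρ : Nice ρ) {A B : Finset α} (hE : M.E ⊆ A ∪ B)
    (hl : M.r A + M.r B ≤ M.r M.E + 1) (hd : ∀ i, φ i ∈ A → φ i ∉ B) :
    cnt φ A ≤ 1 ∨ cnt φ B ≤ 1 := by
  by_contra hc
  push Not at hc
  set S := univ.filter (fun i => φ i ∈ A) with hS
  have h0 : univ.filter (fun i => φ i ∈ B) ⊆ Sᶜ := by grind [mem_compl]
  have h1 := hρ.conn S hc.1 (le_trans hc.2 (card_le_card h0))
  have h2 := h.rk S
  have h3 := h.rk Sᶜ
  have h4 := h.rk_univ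
  have h5 : S.image φ ⊆ A := by grind
  have h6 : Sᶜ.image φ ⊆ B := by
    intro x hx
    obtain ⟨i, hi, rfl⟩ := mem_image.1 hx
    have := hE (h.mem i)
    grind [mem_compl]
  have h7 := h.sub
  have h8 := image_sub_img φ S
  have h9 := image_sub_img φ Sᶜ
  have e1 := M.sub (A ∪ C) (img φ ∪ C) (A ∪ C ∪ Sᶜ.image φ) (S.image φ ∪ C) (by grind) (by grind)
  have e2 := M.sub (B ∪ C) (A ∪ C ∪ Sᶜ.image φ) M.E (Sᶜ.image φ ∪ C) (by grind) (by grind)
  have e3 := M.sub A C (A ∪ C) (A ∩ C) (by grind) (by grind)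
  have e4 := M.sub B C (B ∪ C) (B ∩ C) (by grind) (by grind)
  have e5 := M.sub0 (A ∩ C) (B ∩ C) C (by grind)
  omega

lemma skew0 {B T S : Finset α} (h : M.r B + M.r T ≤ M.r (B ∪ T)) (hS : S ⊆ B) :
    M.r (S ∪ T) = M.r S + M.r T := by
  have := M.sub B (S ∪ T) (B ∪ T) S (by grind) (by grind)
  have := M.sub0 S T (S ∪ T) Subset.rfl
  omega

lemma skew1 {A B T S : Finset α} (hl : M.r A + M.r B ≤ M.r (A ∪ B) + 1) (hT : T ⊆ A)
    (h : M.r (B ∪ T) < M.r B + M.r T) (hS : S ⊆ B) :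
    M.r (S ∪ T) + M.r A = M.r (S ∪ A) + M.r T := by
  have := M.sub (S ∪ A) (B ∪ T) (A ∪ B) (S ∪ T) (by grind) (by grind)
  have := M.sub (S ∪ T) A (S ∪ A) T (by grind) (by grind)
  omega

lemma exists_jump {B A0 A1 : Finset α} (h01 : A0 ⊆ A1) (h0 : M.r B + M.r A0 ≤ M.r (B ∪ A0))
    (h1 : M.r (B ∪ A1) < M.r B + M.r A1) :
    ∃ T a, A0 ⊆ T ∧ T ⊆ A1 ∧ a ∈ A1 ∧ a ∉ T ∧ M.r B + M.r T ≤ M.r (B ∪ T) ∧
      M.r (insert a T) = M.r T + 1 ∧ M.r (B ∪ insert a T) < M.r B + M.r (insert a T) := by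
  classical
  obtain ⟨T, hT, hmax⟩ := Finset.exists_max_image
    (A1.powerset.filter (fun T => A0 ⊆ T ∧ M.r B + M.r T ≤ M.r (B ∪ T))) card ⟨A0, by simp [h01, h0]⟩
  simp only [mem_filter, mem_powerset] at hT hmax
  have h2 : ¬ A1 ⊆ T := by
    intro h2
    rw [Subset.antisymm hT.1 h2] at hT
    omega
  obtain ⟨a, ha, haT⟩ := not_subset.1 h2
  have h3 : M.r (B ∪ insert a T) < M.r B + M.r (insert a T) := by
    by_contra h3
    have := hmax (insert a T) ⟨by grind, by grind, by omega⟩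
    rw [card_insert_of_notMem haT] at this
    omega
  have h4 := M.mono (S := B ∪ T) (T := B ∪ insert a T) (by grind)
  have h5 := M.r_ins T a
  exact ⟨T, a, hT.2.1, hT.1, ha, haT, hT.2.2, by omega, h3⟩

/-- moving an embedding across a 2-separation -/
lemma Emb.move (h : M.Emb ρ C φ) (hρ : Nice ρ) {A A0 A1 : Finset α} (hA : A ⊆ M.E)
    (hl : M.r A + M.r (M.E \ A) ≤ M.r M.E + 1) (hc : cnt φ A ≤ 1) (h01 : A0 ⊆ A1) (h1 : A1 ⊆ A)
    (h0 : M.r (M.E \ A) + M.r A0 ≤ M.r (M.E \ A ∪ A0))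
    (h2 : M.r (M.E \ A ∪ A1) + M.r A ≤ M.r M.E + M.r A1) :
    ∃ C' φ', M.Emb ρ C' φ' ∧ A0 ⊆ C' ∧ (∀ x ∈ A, x ∉ A1 → x ∉ C' ∧ x ∉ img φ') ∧
      cnt φ' A ≤ 1 := by
  set B := M.E \ A with hB
  have hAB : A ∪ B = M.E := by grind
  have hl' : M.r A + M.r B ≤ M.r (A ∪ B) + 1 := by rw [hAB]; exact hl
  have hsub := h.sub
  have hC : ∀ S : Finset α, S ∪ C = (S ∪ C \ A) ∪ C ∩ A := by grind
  have hC0 : C = C \ A ∪ C ∩ A := by grind
  have hCB : C \ A ⊆ B := by grind
  have hmx : ∀ T ⊆ A, M.r M.E + M.r T ≤ M.r A + M.r (B ∪ T) := fun T hT =>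
    M.sub A (B ∪ T) M.E T (by grind) (by grind)
  by_cases hex : ∃ i, φ i ∈ A
  · obtain ⟨i, hi⟩ := hex
    have hj : ∀ j, j ≠ i → φ j ∈ B := fun j hj => by
      have := h.mem j
      have : φ j ∉ A := fun h3 => hj (cnt_two hc h3 hi)
      grind
    have him : ∀ S : Finset (Fin n), i ∉ S → S.image φ ∪ C \ A ⊆ B := by grind
    have e1 := not_sp (S := C ∩ A) (e := φ i) fun h3 => h.not_sp1 hρ i (h3.mono inter_subset_left)
    have e2 : M.sp (B ∪ C ∩ A) (φ i) := by
      have e3 := h.rk (univ.erase i)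
      have e4 := h.rk_univ
      have e5 := hρ.co i
      have e6 := image_sub_img φ (univ.erase i)
      have e7 := self_mem_img φ i
      have e8 := him (univ.erase i) (by simp)
      exact (sp_of_r_le (S := (univ.erase i).image φ ∪ C) (T := img φ ∪ C) (by grind) (by grind)
        (by omega)).mono (by grind)
    unfold sp at e2
    rw [← union_insert] at e2
    have e3 := hmx (insert (φ i) (C ∩ A)) (by grind)
    have e4 := M.sub0 B (C ∩ A) (B ∪ C ∩ A) Subset.rfl
    obtain ⟨T, a, t1, t2, t3, t4, t5, t6, t7⟩ := exists_jump (M := M) (B := B) h01 h0 (by omega)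
    refine ⟨C \ A ∪ T, Function.update φ i a, ⟨update_inj h.inj i (by grind), fun j => ?_,
      fun j => ?_, by grind, fun S => ?_⟩, by grind, fun x hx hx1 => ⟨by grind, fun h3 => ?_⟩, ?_⟩
    · by_cases hji : j = i
      · subst hji; simpa using hA (h1 t3)
      · rw [Function.update_of_ne hji]; exact h.mem j
    · by_cases hji : j = i
      · subst hji; rw [Function.update_self]; grind
      · rw [Function.update_of_ne hji]
        have := h.nmem j
        have := hj j hji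
        grind
    · have f1 := h.rk S
      have f2 := skew0 (M := M) t5 hCB
      have f3 := skew0 (M := M) (T := C ∩ A) (by omega) hCB
      rw [← hC0] at f3
      by_cases hiS : i ∈ S
      · have f4 := him (S.erase i) (by simp)
        have f5 := skew1 hl' (T := insert a T) (by grind) t7 f4
        have f6 := skew1 hl' (T := insert (φ i) (C ∩ A)) (by grind) (by omega) f4
        have f7 : S.image φ ∪ C = (S.erase i).image φ ∪ C \ A ∪ insert (φ i) (C ∩ A) := by
          conv_lhs => rw [← insert_erase hiS, image_insert]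
          grind
        have f8 : insert a ((S.erase i).image φ) ∪ (C \ A ∪ T) =
            (S.erase i).image φ ∪ C \ A ∪ insert a T := by grind
        rw [image_update_mem φ i a hiS, f8]
        rw [f7] at f1
        omega
      · have f4 := him S hiS
        have f5 := skew0 (M := M) t5 f4
        have f6 := skew0 (M := M) (T := C ∩ A) (by omega) f4
        rw [← hC] at f6
        rw [image_update_notMem φ i a hiS, ← union_assoc]
        omega
    · rcases mem_img_update h3 with h3 | ⟨j, hji, h3⟩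
      · grind
      · have := hj j hji
        grind
    · refine card_le_one.2 fun j hj1 k hk1 => ?_
      simp only [mem_filter, mem_univ, true_and] at hj1 hk1
      have g : ∀ j, Function.update φ i a j ∈ A → j = i := fun j hj2 => by
        by_contra hji
        rw [Function.update_of_ne hji] at hj2
        have := hj j hji
        grind
      rw [g j hj1, g k hk1]
  · push Not at hex
    have him : ∀ S : Finset (Fin n), S.image φ ∪ C \ A ⊆ B := by
      have := h.mem
      grind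
    have hn := h.nmem
    have hx : ∀ x ∈ A, x ∉ img φ := fun x hx h3 => by
      obtain ⟨i, rfl⟩ := mem_img.1 h3
      exact hex i hx
    by_cases e1 : M.r B + M.r (C ∩ A) ≤ M.r (B ∪ C ∩ A)
    · refine ⟨C \ A ∪ A0, φ, ⟨h.inj, h.mem, by grind, by grind, fun S => ?_⟩, by grind, by grind, hc⟩
      have f1 := h.rk S
      have f2 := skew0 (M := M) h0 hCB
      have f3 := skew0 (M := M) e1 hCB
      have f5 := skew0 (M := M) h0 (him S)
      have f6 := skew0 (M := M) e1 (him S)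
      rw [← hC0] at f3
      rw [← hC] at f6
      rw [← union_assoc]
      omega
    · refine ⟨C \ A ∪ A1, φ, ⟨h.inj, h.mem, by grind, by grind, fun S => ?_⟩, by grind, by grind, hc⟩
      have e2 := hmx (C ∩ A) (by grind)
      have f1 := h.rk S
      have f2 := skew1 hl' h1 (by omega) hCB
      have f3 := skew1 hl' (T := C ∩ A) (by grind) (by omega) hCB
      have f5 := skew1 hl' h1 (by omega) (him S)
      have f6 := skew1 hl' (T := C ∩ A) (by grind) (by omega) (him S)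
      rw [← hC0] at f3
      rw [← hC] at f6
      rw [← union_assoc]
      omega

lemma Emb.move_con (h : M.Emb ρ C φ) (hρ : Nice ρ) {A : Finset α} (hA : A ⊆ M.E)
    (hl : M.r A + M.r (M.E \ A) ≤ M.r M.E + 1) (hc : cnt φ A ≤ 1) {x : α} (hx : x ∈ A)
    (hs : ¬ M.sp (M.E \ A) x) : ∃ C' φ', M.Emb ρ C' φ' ∧ x ∈ C' ∧ cnt φ' A ≤ 1 := by
  have h1 := not_sp hs
  have h2 := M.single_le x
  obtain ⟨C', φ', h3, h4, -, h5⟩ := h.move hρ hA hl hc (A0 := {x}) (A1 := A) (by grind) Subset.rfl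
    (by rw [union_comm, ← insert_eq]; omega) (by rw [sdiff_union_of_subset hA])
  exact ⟨C', φ', h3, by grind, h5⟩

lemma Emb.move_del (h : M.Emb ρ C φ) (hρ : Nice ρ) {A : Finset α} (hA : A ⊆ M.E)
    (hl : M.r A + M.r (M.E \ A) ≤ M.r M.E + 1) (hc : cnt φ A ≤ 1) {x : α} (hx : x ∈ A)
    (hs : M.sp (A.erase x) x) : M.HasCD ρ ∅ {x} := by
  unfold sp at hs
  rw [insert_erase hx] at hs
  have h2 := M.mono (S := M.E \ A ∪ A.erase x) (T := M.E) (by grind)
  obtain ⟨C', φ', h3, -, h4, -⟩ := h.move hρ hA hl hc (A0 := ∅) (A1 := A.erase x) (by grind)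
    (erase_subset _ _) (by simp [M.r_empty]) (by omega)
  have := h4 x hx (by simp)
  exact h3.hasD (hA hx) this.1 this.2

/-- normal form: independent contraction set that spans together with the image -/
lemma Emb.norm (h : M.Emb ρ C φ) :
    ∃ C', M.Emb ρ C' φ ∧ M.Ind C' ∧ M.r (img φ ∪ C') = M.r M.E := by
  have h0 := h.img_sub
  have h1 := h.sub
  obtain ⟨I, -, hI1, hI2, hI3⟩ := exists_basis (M := M) (S := img φ ∪ C) ind_empty (empty_subset _)
  obtain ⟨J, hJ0, hJ1, hJ2, hJ3⟩ := exists_basis (M := M) (S := M.E) hI2 (by grind)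
  have h2 : (J \ I).card + I.card = J.card := card_sdiff_add_card_eq_card hJ0
  have h3 : M.Ind (J \ I) := hJ2.subset sdiff_subset
  have h4 := M.mono (S := J) (T := img φ ∪ C ∪ J \ I) (by grind)
  have h4' := M.mono (S := img φ ∪ C ∪ J \ I) (T := M.E) (by grind)
  have h5 : M.r (img φ ∪ C) + M.r (J \ I) ≤ M.r (img φ ∪ C ∪ J \ I) := by
    unfold Ind at *
    omega
  have h6 : ∀ x ∈ J \ I, x ∉ img φ ∪ C := fun x hx hx' => by
    have e1 := skew0 (M := M) h5 (S := {x}) (by grind)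
    have e2 : M.Ind {x} := h3.subset (by grind)
    rw [union_eq_right.2 (by grind)] at e1
    unfold Ind at e2
    simp at e2
    omega
  have h7 : M.Emb ρ (C ∪ J \ I) φ := by
    refine ⟨h.inj, h.mem, fun i => ?_, by grind, fun S => ?_⟩
    · have := h.nmem i
      have := self_mem_img φ i
      grind
    · have e0 := image_sub_img φ S
      have e1 := skew0 (M := M) h5 (S := S.image φ ∪ C) (by grind)
      have e2 := skew0 (M := M) h5 (S := C) (by grind)
      have := h.rk S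
      rw [← union_assoc]
      omega
  obtain ⟨K, -, hK1, hK2, hK3⟩ := exists_basis (M := M) (S := C ∪ J \ I) ind_empty (empty_subset _)
  have h8 : M.Emb ρ K φ := h7.of_cl (hK1.trans h7.sub) (fun i hi => h7.nmem i (hK1 hi))
    (fun x hx => sp_of_r_le hK1 hx hK3.ge) (fun x hx => sp_of_mem (hK1 hx))
  refine ⟨K, h8, hK2, ?_⟩
  have e1 := h8.rk_univ
  have e2 := h7.rk_univ
  rw [← union_assoc] at e2
  omega

end RM

end Pool.Agent.Work.MP_6b71e5_co
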