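import Pool.Agent.Work.MP_6b71e5_co.Base
import Pool.Agent.Work.MP_6b71e5_co.Case

/-! Binary matroids with a basis containing every deletable and no contractible element. -/

namespace Pool.Agent.Work.MP_6b71e5_co

open Finset

variable {α : Type*} [DecidableEq α]

namespace RM

variable {M : RM α}

lemma Free.con (h : M.Free) {C : Finset α} (hC : C ⊆ M.E) : (M.con C).Free :=
  fun h1 => h ((h1.of_con hC).mono (empty_subset _) Subset.rfl)

lemma Free.res (h : M.Free) {F : Finset α} (hF : F ⊆ M.E) : (M.res F).Free :=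
  fun h1 => h ((h1.of_res hF).mono Subset.rfl (empty_subset _))

lemma Free.dual (h : M.Free) : M.dual.Free := fun h1 => h (h1.of_dual nice_rU)

lemma NR.con {Z C : Finset α} (h : M.NR Z) (hC : C ⊆ M.E) : (M.con C).NR Z :=
  ⟨fun x hx => h.1 x ((hx.of_con hC).mono subset_union_left Subset.rfl),
    fun x hx => h.2 x ((hx.of_con hC).mono (empty_subset _) Subset.rfl)⟩

lemma NR.res {Z F : Finset α} (h : M.NR Z) (hF : F ⊆ M.E) : (M.res F).NR Z :=
  ⟨fun x hx => h.1 x ((hx.of_res hF).mono Subset.rfl (empty_subset _)),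
    fun x hx => h.2 x ((hx.of_res hF).mono Subset.rfl subset_union_left)⟩

lemma NR.congr {Z Z' : Finset α} (h : M.NR Z) (hZ : ∀ x ∈ M.E, x ∈ Z ↔ x ∈ Z') : M.NR Z' :=
  ⟨fun x hx h1 => h.1 x hx ((hZ x hx.memC).2 h1), fun x hx => (hZ x hx.memD).1 (h.2 x hx)⟩

lemma NR.dual {Z : Finset α} (h : M.NR Z) : M.dual.NR (M.E \ Z) :=
  ⟨fun x hx h1 => (mem_sdiff.1 h1).2 (h.2 x (hx.of_dual nice_rW)),
    fun x hx => mem_sdiff.2 ⟨hx.memD, h.1 x (hx.of_dual nice_rW)⟩⟩

lemma Basis.dual {X : Finset α} (h : M.Basis X) : M.dual.Basis (M.E \ X) := by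
  have h1 := h.ind
  have h2 := h.sp
  have h3 := card_sdiff_add_card_eq_card h.sub
  refine ⟨sdiff_subset, ?_, ?_⟩
  · unfold Ind at *
    rw [M.dual_r_compl h.sub]; omega
  · unfold Ind at *
    rw [M.dual_r_compl h.sub, dual_E, dual_r_E]; omega

lemma Basis.res {X F : Finset α} (h : M.Basis X) (h1 : X ⊆ F) (h2 : F ⊆ M.E) :
    (M.res F).Basis X := by
  refine ⟨h1, h.ind, ?_⟩
  have := h.sp
  have := M.mono h1
  have := M.mono h2
  simp only [res_E, res_r]
  omega

lemma Basis.con {X : Finset α} {c : α} (h : M.Basis (insert c X)) (hc : c ∉ X) :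
    (M.con {c}).Basis X := by
  have h1 := h.sub
  have h2 := h.ind
  have h3 := h.sp
  have h4 : M.Ind {c} := h2.subset (by simp)
  have q : insert c (M.E \ {c}) = M.E := by grind
  refine ⟨by grind [con_E], ?_, ?_⟩
  · unfold Ind at *
    rw [card_insert_of_notMem hc] at h2
    rw [con1_r]
    simp only [card_singleton] at h4
    omega
  · rw [con1_r, con1_r, con_E, q, h3]

lemma con_sp {C S : Finset α} {x : α} : (M.con C).sp S x ↔ M.sp (S ∪ C) x := by
  unfold sp
  rw [con_r, con_r, insert_union]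
  omega

lemma exists_K {Z C : Finset α} {φ : Fin 8 → α} (hN : M.NR Z) (h : M.Emb rW C φ) {d : α}
    (hd : d ∈ M.E \ (C ∪ img φ)) (hF : ((M.con C).res (insert d (img φ))).Free) :
    ∃ K ⊆ img φ, K.card ≤ 3 ∧ M.sp (K ∪ C) d ∧ ∀ x ∈ K, M.HasCD rW C {x} := by
  have h0 := h.img_sub
  have h1 := @h.not_img
  have h2 := h.to_con (Subset.refl C)
  rw [sdiff_self] at h2
  have h3 : insert d (img φ) ⊆ (M.con C).E := by grind [con_E]
  have h4 : M.sp (C ∪ img φ) d := by
    by_contra h4
    exact hN.1 d ((h.add_free (by grind) h4).hasC (by simp))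
      (hN.2 d (h.hasD (by grind) (by grind) (by grind)))
  obtain ⟨K, k1, k2, k3, k4⟩ := one_step hF (d := d)
    (h2.to_res (empty_subset _) fun i => mem_insert_of_mem (self_mem_img φ i)) (by simp)
    (by grind) Subset.rfl (con_sp.2 (union_comm C _ ▸ h4))
  exact ⟨K, k1, k2, con_sp.1 k3, fun x hx =>
    (((k4 x hx).of_res h3).of_con h.sub).mono subset_union_right subset_union_left⟩

/-- every one element extension of an embedded wheel is binary -/
def Loc (M : RM α) : Prop := ∀ (C : Finset α) (φ : Fin 8 → α) (d : α), M.Emb rW C φ →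
  d ∈ M.E \ (C ∪ img φ) → ((M.con C).res (insert d (img φ))).Free

lemma Free.loc (h : M.Free) : M.Loc := fun C φ d e hd => (h.con e.sub).res (by
  have h0 := e.img_sub
  have h1 := @e.not_img
  grind [con_E])

lemma exists_adj {Z C : Finset α} {φ : Fin 8 → α} (hL : M.Loc) (hZ : M.Basis Z) (hN : M.NR Z)
    (h : M.Emb rW C φ) {d : α} (hd : d ∈ M.E \ (C ∪ img φ)) :
    ∃ c ∈ C, ¬ M.sp (Z.erase d) c := by
  obtain ⟨K, k1, -, k3, k4⟩ := exists_K hN h hd (hL C φ d h hd)
  by_contra hc
  push Not at hc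
  refine hZ.ind.not_sp (hN.2 d (h.hasD (by grind) (by grind) (by grind))) (erase_subset d Z)
    (by simp) (k3.trans fun x hx => ?_)
  rcases mem_union.1 hx with hx | hx
  · have := hN.2 x ((k4 x hx).mono (empty_subset _) Subset.rfl)
    exact sp_of_mem (by grind)
  · exact hc x hx

structure Move (M : RM α) (X : Finset α) (c d : α) : Prop where
  mc : c ∈ M.E
  nc : c ∉ X
  md : d ∈ X
  adj : ¬ M.sp (X.erase d) c
  has : M.HasCD rW {c} {d}

lemma exists_move {Z : Finset α} (hL : M.Loc) (hL' : M.dual.Loc) (hZ : M.Basis Z) (hN : M.NR Z)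
    (h : M.HasCD rW ∅ ∅) (h8 : 8 < M.E.card) : ∃ c d, M.Move Z c d := by
  obtain ⟨C, φ, h, -⟩ := h
  rcases (M.E \ (C ∪ img φ)).eq_empty_or_nonempty with hD | ⟨d, hd⟩
  · exfalso
    obtain ⟨ψ, e, hψ⟩ := h.dual nice_rW
    have h1 : ¬ M.E ⊆ img φ := fun h1 => by
      have := card_le_card h1
      rw [h.card_img] at this
      omega
    obtain ⟨c, hc, hc1⟩ := not_subset.1 h1
    rw [hD] at e
    obtain ⟨x, hx, -⟩ := exists_adj hL' hZ.dual hN.dual e (d := c) (by rw [hψ, dual_E]; simp [hc, hc1])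
    simp at hx
  · obtain ⟨c, hc, hc1⟩ := exists_adj hL hZ hN h hd
    exact ⟨c, d, h.sub hc, hN.1 c (h.hasC hc), hN.2 d (h.hasD (by grind) (by grind) (by grind)), hc1,
      C, φ, h, by simpa using hc, by simpa using hd⟩

lemma Move.basis {X : Finset α} {c d : α} (h : M.Move X c d) (hX : M.Basis X) :
    M.Basis (insert c (X.erase d)) := hX.exch h.md h.mc ((hX.adj h.md).2 h.adj)

lemma Move.basis_con {X : Finset α} {c d : α} (h : M.Move X c d) (hX : M.Basis X) :
    (M.con {c}).Basis (X.erase d) := (h.basis hX).con (by have := h.nc; grind)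

theorem card_eq_two_mul (k : ℕ) : ∀ (P : RM α) (X : Finset α), P.E.card = k → P.Free → P.Basis X →
    P.NR X → P.HasCD rW ∅ ∅ → P.E.card = 2 * X.card := by
  induction k using Nat.strong_induction_on with
  | _ k ih =>
    intro P X hk hF hX hN h
    rcases Nat.lt_or_ge 8 P.E.card with h8 | h8
    · obtain ⟨c, d, m⟩ := exists_move hF.loc hF.dual.loc hX hN h h8
      have a1 := m.mc
      have a2 := m.nc
      have a3 := m.md
      have a4 := hX.sub
      have a5 : ({c, d} : Finset α) ⊆ P.E := by grind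
      have a6 : (P.E \ {c, d}).card + 2 = P.E.card := by
        rw [← card_pair (show c ≠ d by grind)]; exact card_sdiff_add_card_eq_card a5
      have a7 : P.E \ {c, d} ⊆ (P.con {c}).E := by grind [con_E]
      have a8 := ih (P.E \ {c, d}).card (by omega) ((P.con {c}).res (P.E \ {c, d})) (X.erase d) rfl
        ((hF.con (by grind)).res a7) ((m.basis_con hX).res (by grind) a7)
        (((hN.con (by grind)).res a7).congr (by grind [res_E]))
        (((m.has.to_con Subset.rfl).to_res (D2 := ∅) (by grind [con_E]) (by simp)).mono (by simp)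
          Subset.rfl)
      have a9 := card_erase_add_one a3
      rw [res_E] at a8
      omega
    · obtain ⟨C, φ, e, -⟩ := h
      have a1 : img φ = P.E := eq_of_subset_of_card_le e.img_sub (by rw [e.card_img]; exact h8)
      have a2 : C = ∅ := by
        have := e.sub
        have := @e.not_img
        grind
      have a3 := e.rk_univ
      have a4 := rW_spk
      have a5 := hX.ind
      have a6 := hX.sp
      have a7 := e.card_img
      rw [a2, union_empty, a1, P.r_empty] at a3
      rw [a1] at a7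
      unfold Ind at a5
      omega

lemma NR.simple {X : Finset α} (hN : M.NR X) (hX : M.Basis X) (h : M.HasCD rW ∅ ∅) {a b : α}
    (ha : a ∈ M.E) (hb : b ∈ M.E) (hab : a ≠ b) : ¬ M.sp {a} b := by
  intro h1
  have h2 := hN.2 b (h.par nice_rW ha hb hab h1)
  have h3 : M.sp {b} a := sp.exch (S := ∅) h1 (hX.ind.not_sp h2 (empty_subset _) (by simp))
  exact hX.ind.not_sp h2 (by simpa using hN.2 a (h.par nice_rW hb ha hab.symm h3))
    (by simpa using hab.symm) h1

lemma r_pair_of_not_sp {a b : α} (h1 : ¬ M.sp {a} b) (h2 : ¬ M.sp {b} a) : M.r {a, b} = 2 := by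
  have e1 := not_sp h2
  have e2 := not_sp (S := ∅) (e := b) fun h => h1 (h.mono (empty_subset _))
  rw [M.r_empty] at e2
  simp only [insert_empty_eq] at e2
  omega

lemma Free.line (hF : M.Free) {a b c d : α} (ha : a ∈ M.E) (hb : b ∈ M.E) (hc : c ∈ M.E)
    (hd : d ∈ M.E) (ab : M.r {a, b} = 2) (ac : M.r {a, c} = 2) (ad : M.r {a, d} = 2)
    (bc : M.r {b, c} = 2) (bd : M.r {b, d} = 2) (cd : M.r {c, d} = 2) (h1 : M.sp {a, b} c)
    (h2 : M.sp {a, b} d) : False := by
  have h3 : M.r {a, b, c, d} ≤ M.r {a, b} := r_le_of_sp fun x hx => by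
    simp only [mem_insert, mem_singleton] at hx
    rcases hx with rfl | rfl | rfl | rfl
    exacts [sp_of_mem (by simp), sp_of_mem (by simp), h1, h2]
  have h0 := M.r_empty
  refine hF (emb_U4 (C := ∅) (empty_subset _) ha hb hc hd ?_ ?_ ?_ ?_ ?_ ?_ ?_).has <;>
    simp only [insert_empty_eq] <;> omega

/-- an extension by a deletable element is a parallel extension -/
def SS (α : Type*) [DecidableEq α] (k : ℕ) : Prop :=
  ∀ (Q : RM α) (X : Finset α) (d : α), Q.Free → Q.E.card = k + 1 → d ∉ X → Q.Basis X →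
    Q.HasCD rW ∅ {d} → Q.NR (insert d X) → ∃ x ∈ X, Q.sp {x} d

lemma SS.dual {k : ℕ} (h : SS α k) {Q : RM α} {X : Finset α} {c : α} (hF : Q.Free)
    (hk : Q.E.card = k + 1) (hc : c ∉ X) (hX : Q.Basis (insert c X)) (h1 : Q.HasCD rW {c} ∅)
    (hN : Q.NR X) : ∃ y ∈ Q.E, y ∉ X ∧ y ≠ c ∧ Q.r (Q.E \ {y, c}) < Q.r Q.E := by
  have hcE := h1.memC
  obtain ⟨y, hy, hs⟩ := h Q.dual (Q.E \ insert c X) c hF.dual hk (by simp) hX.dual (h1.dual nice_rW)
    (hN.dual.congr (by grind [dual_E]))
  have hyc : c ≠ y := by grind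
  refine ⟨y, by grind, by grind, hyc.symm, ?_⟩
  unfold sp at hs
  rw [Q.dual_r (by grind), Q.dual_r (by grind), card_pair hyc, card_singleton, pair_comm] at hs
  have := Q.mono (sdiff_subset (s := Q.E) (t := {y}))
  omega

lemma ss_ten : SS α 10 := by
  intro Q X d hF hk hd hX h hN
  have hdE := h.memD
  have a1 := hX.sub
  have a2 : Q.E.erase d ⊆ Q.E := erase_subset _ _
  have a3 := card_erase_add_one hdE
  have hP := hF.res a2
  obtain ⟨c, g, m1, m2, m3, -, C, φ, e, m4, m5⟩ := exists_move hP.loc hP.dual.loc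
    (hX.res (by grind) a2) ((hN.res a2).congr (by grind [res_E]))
    (h.to_res (D2 := ∅) (by grind) (by simp)) (by rw [res_E]; omega)
  have b1 := e.img_sub
  have b2 := @e.not_img
  have b3 := e.sub
  simp only [res_E, singleton_subset_iff] at m1 m4 m5 b1 b3
  have b4 : insert c (insert g (img φ)) = Q.E.erase d := eq_of_subset_of_card_le (by grind) (by
    rw [card_insert_of_notMem (by grind), card_insert_of_notMem (by grind), e.card_img]; omega)
  have b5 : C = {c} := by grind
  subst b5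
  exact base_case hF (e.of_res a2) (g := g) (by grind) hdE (by grind) (by grind) (by grind)
    (by grind) (by grind) (by grind) hX hd hN

section Fan

variable {k : ℕ} (hS : SS α k) {P : RM α} {X : Finset α} (hF : P.Free) (hk : P.E.card = k + 2)
  (hX : P.Basis X) (hN : P.NR X)

include hS hF hk hX hN

lemma fan_tri {c g : α} (m : P.Move X c g) : ∃ x, x ≠ g ∧ P.sp {x, g} c ∧ P.Move X c x := by
  have a1 := m.mc
  have a2 := m.nc
  have a3 := m.md
  have a4 := hX.sub
  have h0 := m.has.mono (empty_subset _) (empty_subset _)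
  have a5 : ({c} : Finset α) ⊆ P.E := by simpa using a1
  have a6 := card_sdiff_add_card_eq_card a5
  have h1 := m.has.to_con Subset.rfl
  rw [sdiff_self] at h1
  obtain ⟨x, hx, hs⟩ := hS (P.con {c}) (X.erase g) g (hF.con a5)
    (by rw [con_E]; rw [card_singleton] at a6; omega) (by simp) (m.basis_con hX) h1
    ((hN.con a5).congr (by grind))
  have hxg : x ≠ g := by grind
  rw [con1_sp] at hs
  have b1 : P.sp {g, x} c := hs.exch (hN.simple hX h0 (by grind) (by grind) hxg)
  have b2 := hN.simple hX h0 (a := g) (b := c) (by grind) a1 (by grind)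
  refine ⟨x, hxg, pair_comm g x ▸ b1, a1, a2, by grind, fun h2 => ?_, ?_⟩
  · exact b2 ((sp.inter (hX.ind.subset (by grind)) b1 h2).mono (by grind))
  · have b3 : P.sp {c, g} x := by
      rw [pair_comm g x] at b1
      exact b1.exch b2
    exact (((h1.mono Subset.rfl (empty_subset _)).par nice_rW (a := g) (b := x) (by grind [con_E])
      (by grind [con_E]) hxg.symm (con1_sp.2 b3)).of_con a5).mono (by simp) Subset.rfl

lemma fan_row {c g : α} (m : P.Move X c g) : ∃ y, y ≠ c ∧ P.Move X y g ∧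
    ∀ e ∈ P.E, e ∉ X → e ≠ c → e ≠ y → P.sp (X.erase g) e := by
  have a1 := m.mc
  have a2 := m.nc
  have a3 := m.md
  have a4 := hX.sub
  have h0 := m.has.mono (empty_subset _) (empty_subset _)
  have a5 : P.E.erase g ⊆ P.E := erase_subset _ _
  have a6 := card_erase_add_one (a4 a3)
  have h1 := m.has.to_res (F := P.E.erase g) (D2 := ∅) (by grind) (by simp)
  have h2 := (m.basis hX).res (F := P.E.erase g) (by grind) a5
  obtain ⟨y, y1, y2, y3, y4⟩ := hS.dual (hF.res a5) (by rw [res_E]; omega) (by grind) h2 h1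
    ((hN.res a5).congr (by grind [res_E]))
  have r1 := h2.sp
  have r2 := (m.basis hX).sp
  have r3 := hX.erase a3
  have r4 := hX.sp
  simp only [res_E, res_r] at y1 y4 r1
  have key : ∀ e ∈ P.E.erase g \ {y, c}, P.sp (X.erase g) e := fun e he =>
    sp_of_r_le (by grind) he (by omega)
  refine ⟨y, y3, ⟨a5 y1, by grind, a3, fun h3 => ?_, ?_⟩, fun e e1 e2 e3 e4 => key e (by grind)⟩
  · have b1 : P.r (P.E \ {c, g}) ≤ P.r (X.erase g) := r_le_of_sp fun e he => by
      by_cases hey : e = y
      · exact hey ▸ h3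
      · exact key e (by grind)
    have b2 := P.mono (S := X) (T := P.E \ {c}) (by grind)
    exact hN.1 g (h0.ser nice_rW a1 (a4 a3) (by grind) (by omega)) a3
  · have b1 := P.mono (S := insert c (X.erase g)) (T := P.E.erase g \ {y}) (by grind)
    exact (((h1.mono (empty_subset _) Subset.rfl).ser nice_rW (a := y) (b := c) y1 (by grind [res_E])
      y3 (by simp only [res_E, res_r]; omega)).mono (empty_subset _) Subset.rfl |>.ser nice_rW
      (a := c) (b := y) (by grind [res_E]) y1 y3.symm (by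
        simp only [res_E, res_r]
        by_contra b2
        have b3 : P.r (P.E.erase g \ {c}) ≤ P.r (X.erase g) := by
          rw [pair_comm] at b2
          have := r_le_of_sp key
          omega
        have b4 := P.mono (S := P.E \ {c, g}) (T := P.E.erase g \ {c}) (by grind)
        have b5 := P.mono (S := X) (T := P.E \ {c}) (by grind)
        exact hN.1 g (h0.ser nice_rW a1 (a4 a3) (by grind) (by omega)) a3) |>.of_res a5).mono
      Subset.rfl (by grind)

end Fan

lemma ss_step {k : ℕ} (hk8 : 8 ≤ k) (hS : SS α k) : SS α (k + 2) := by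
  intro Q X d hF hk hd hX h hN
  by_contra hc
  push Not at hc
  have hdE := h.memD
  have a1 := hX.sub
  have a2 : Q.E.erase d ⊆ Q.E := erase_subset _ _
  have a3 := card_erase_add_one hdE
  set P := Q.res (Q.E.erase d) with hP
  have pE : P.E = Q.E.erase d := rfl
  have pF : P.Free := hF.res a2
  have pX : P.Basis X := hX.res (by grind) a2
  have pN : P.NR X := (hN.res a2).congr (by grind)
  have pH : P.HasCD rW ∅ ∅ := h.to_res (D2 := ∅) (by grind) (by simp)
  have pk : P.E.card = k + 2 := by rw [pE]; omega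
  have h0 := h.mono Subset.rfl (empty_subset _)
  have sm : ∀ a ∈ P.E, ∀ b ∈ P.E, a ≠ b → Q.r {a, b} = 2 := fun a ha b hb hab =>
    r_pair_of_not_sp (M := P) (pN.simple pX pH ha hb hab) (pN.simple pX pH hb ha hab.symm)
  have xP : X ⊆ P.E := pX.sub
  have key : ∀ c g x, P.Move X c g → P.Move X c x → x ≠ g → Q.sp {x, g} c →
      ¬ Q.sp (X.erase g) d ∧ ¬ Q.sp (X.erase x) d ∧
      ∃ z, ∀ t ∈ X, ¬ Q.sp (X.erase t) d → t = z ∨ t = x ∨ t = g := by
    intro c g x m m' hxg hs
    have b1 := m.mc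
    have b2 := m.nc
    have b3 := m.md
    have b4 := m'.md
    have cE : c ∈ Q.E := a2 b1
    have b5 : ({c, g} : Finset α) ⊆ Q.E := by clear * - cE b3 a1; grind
    have b6 : (Q.E \ {c, g}).card + 2 = Q.E.card := by
      rw [← card_pair (show c ≠ g by clear * - b2 b3; grind)]; exact card_sdiff_add_card_eq_card b5
    have b7 : Q.E \ {c, g} ⊆ (Q.con {c}).E := by clear * -; grind [con_E]
    have b8 : ({c} : Finset α) ⊆ Q.E := by simpa using cE
    have mQ : Q.Move X c g := ⟨cE, b2, b3, m.adj, (m.has.of_res a2).mono Subset.rfl subset_union_left⟩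
    obtain ⟨z, hz, hzs⟩ := hS ((Q.con {c}).res (Q.E \ {c, g})) (X.erase g) d ((hF.con b8).res b7)
      (by rw [res_E]; omega) (by clear * - hd; grind)
      ((mQ.basis_con hX).res (by clear * - a1 b2; grind) b7)
      ((((m.has.of_res a2).to_con Subset.rfl).to_res (D2 := {d}) (by clear * -; grind [con_E])
        (by clear * - hdE hd b1 b3 pE; grind)).mono (by simp) Subset.rfl)
      (((hN.con b8).res b7).congr (by clear * -; grind [res_E]))
    have c1 : Q.sp {c, z} d := con1_sp.1 hzs
    have zX : z ∈ X := mem_of_mem_erase hz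
    have zg : z ≠ g := ne_of_mem_erase hz
    have c2 : Q.sp {d, z} c := c1.exch (hc z zX)
    have zx : z ≠ x := by
      rintro rfl
      have d1 : ¬ Q.sp {d} c := fun h1 => by
        have := hN.2 c (h0.par nice_rW hdE cE (by clear * - b1 pE; grind) h1)
        clear * - this b1 b2 pE; grind
      have d2 : ∀ t ∈ X, Q.r {t, d} = 2 := fun t ht => r_pair_of_not_sp (hc t ht) fun h1 =>
        hc t ht (sp.exch (S := ∅) h1 (hX.ind.not_sp ht (empty_subset _) (by simp)))
      have d3 : Q.r {c, d} = 2 := r_pair_of_not_sp (fun h1 => d1 (sp.exch (S := ∅) h1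
        fun h2 => hc z zX (h2.mono (empty_subset _)))) d1
      exact hF.line (a1 zX) (a1 b3) cE hdE (sm _ (xP zX) _ (xP b3) zg)
        (sm _ (xP zX) _ b1 (by clear * - zX b2; grind)) (d2 _ zX)
        (sm _ (xP b3) _ b1 (by clear * - b3 b2; grind)) (d2 _ b3) d3 hs
        (c1.trans fun t ht => by
          rcases mem_insert.1 ht with rfl | ht
          · exact hs
          · exact sp_of_mem (by clear * - ht; grind))
    have c3 : ∀ t, z ≠ t → Q.sp (X.erase t) d → Q.sp (X.erase t) c := fun t ht h1 =>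
      c2.trans fun s hs => by
        rcases mem_insert.1 hs with rfl | hs
        · exact h1
        · exact sp_of_mem (by clear * - hs ht zX; grind)
    refine ⟨fun h1 => m.adj (c3 g zg h1), fun h1 => m'.adj (c3 x zx h1), z, fun t ht h1 => ?_⟩
    by_contra h2
    refine h1 (c1.trans fun s hs' => ?_)
    rcases mem_insert.1 hs' with rfl | hs'
    · exact hs.mono (by clear * - h2 b3 b4; grind)
    · exact sp_of_mem (by clear * - h2 hs' zX; grind)
  have line : ∀ a ∈ X, ∀ b ∈ X, a ≠ b → ∀ c ∈ P.E, c ∉ X → ∀ e ∈ P.E, e ∉ X → c ≠ e →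
      Q.sp {a, b} c → Q.sp {a, b} e → False := by
    intro a ha b hb hab c hc1 hc2 e he1 he2 hce s1 s2
    exact hF.line (a1 ha) (a1 hb) (a2 hc1) (a2 he1) (sm _ (xP ha) _ (xP hb) hab)
      (sm _ (xP ha) _ hc1 (by clear * - ha hc2; grind)) (sm _ (xP ha) _ he1 (by clear * - ha he2; grind))
      (sm _ (xP hb) _ hc1 (by clear * - hb hc2; grind)) (sm _ (xP hb) _ he1 (by clear * - hb he2; grind))
      (sm _ hc1 _ he1 hce) s1 s2
  obtain ⟨c1, g1, m11⟩ := exists_move pF.loc pF.dual.loc pX pN pH (by omega)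
  obtain ⟨g2, n21, s1, m12⟩ := fan_tri hS pF pk pX pN m11
  obtain ⟨c2, n', m21, row1⟩ := fan_row hS pF pk pX pN m11
  obtain ⟨g3, n31, s2, m23⟩ := fan_tri hS pF pk pX pN m21
  obtain ⟨c3, n'', m32, row2⟩ := fan_row hS pF pk pX pN m12
  obtain ⟨g4, n42, s3, m34⟩ := fan_tri hS pF pk pX pN m32
  obtain ⟨y, -, -, row3⟩ := fan_row hS pF pk pX pN m23
  obtain ⟨t1, t2, z, tz⟩ := key _ _ _ m11 m12 n21 s1
  obtain ⟨-, t3, -⟩ := key _ _ _ m21 m23 n31 s2
  obtain ⟨-, t4, -⟩ := key _ _ _ m32 m34 n42 s3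
  have n32 : g3 ≠ g2 := by
    rintro rfl
    exact line _ m12.md _ m11.md n21 _ m11.mc m11.nc _ m21.mc m21.nc n'.symm s1 s2
  have n41 : g4 ≠ g1 := by
    rintro rfl
    exact line _ m12.md _ m11.md n21 _ m11.mc m11.nc _ m32.mc m32.nc n''.symm s1 (pair_comm g4 g2 ▸ s3)
  have e34 : g4 = g3 := by
    have z3 := tz _ m23.md t3
    have z4 := tz _ m34.md t4
    clear * - z3 z4 n32 n31 n41 n42
    grind
  subst e34
  have x1 := m11.md
  have x2 := m12.md
  have x3 := m23.md
  have n23 : c3 ≠ c2 := by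
    rintro rfl
    exact pN.simple pX pH (xP x3) m21.mc (by have := m21.nc; clear * - this x3; grind)
      ((sp.inter (pX.ind.subset (by clear * - x1 x2 x3; grind)) s2 s3).mono
        (by clear * - n21; grind))
  have ey : c3 = y := by
    by_contra h1
    exact m34.adj (row3 c3 m34.mc m34.nc n23 h1)
  subst ey
  have y1 := m11.mc
  have y2 := m21.mc
  have y3 := m32.mc
  clear key line tz sm
  have iT : P.Ind {g1, g2, g4} := pX.ind.subset (by grind)
  have rA : P.r {g1, g2, g4, c1, c2, c3} ≤ P.r {g1, g2, g4} := r_le_of_sp fun e he => by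
    simp only [mem_insert, mem_singleton] at he
    rcases he with rfl | rfl | rfl | rfl | rfl | rfl
    · exact sp_of_mem (by simp)
    · exact sp_of_mem (by simp)
    · exact sp_of_mem (by simp)
    · exact s1.mono (by clear * -; grind)
    · exact s2.mono (by clear * -; grind)
    · exact s3.mono (by clear * -; grind)
  have sB : ∀ e ∈ P.E \ {g1, g2, g4, c1, c2, c3}, P.sp (X \ {g1, g2, g4}) e := fun e he => by
    by_cases heX : e ∈ X
    · exact sp_of_mem (by clear * - he heX; grind)
    simp only [mem_sdiff, mem_insert, mem_singleton, not_or] at he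
    refine sp_sdiff pX.ind (pX.spans he.1) fun t ht => ?_
    simp only [mem_insert, mem_singleton] at ht
    rcases ht with rfl | rfl | rfl
    · exact row1 e he.1 heX he.2.2.2.2.1 he.2.2.2.2.2.1
    · exact row2 e he.1 heX he.2.2.2.2.1 he.2.2.2.2.2.2
    · exact row3 e he.1 heX he.2.2.2.2.2.1 he.2.2.2.2.2.2
  clear row1 row2 row3
  have rB := r_le_of_sp sB
  have iB : P.Ind (X \ {g1, g2, g4}) := pX.ind.subset sdiff_subset
  have cB := card_sdiff_add_card_eq_card (show ({g1, g2, g4} : Finset α) ⊆ X by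
    clear * - x1 x2 x3; grind)
  have iX := pX.ind
  have rX := pX.sp
  have hl : P.r {g1, g2, g4, c1, c2, c3} + P.r (P.E \ {g1, g2, g4, c1, c2, c3}) ≤ P.r P.E + 1 := by
    unfold Ind at iT iB iX
    omega
  have hA : ({g1, g2, g4, c1, c2, c3} : Finset α) ⊆ P.E := by
    simp only [insert_subset_iff, singleton_subset_iff]
    exact ⟨xP x1, xP x2, xP x3, y1, y2, y3⟩
  obtain ⟨C, φ, e, -⟩ := pH
  have hcnt : cnt φ {g1, g2, g4, c1, c2, c3} ≤ 1 := by
    have u1 := e.sep nice_rW (A := {g1, g2, g4, c1, c2, c3}) (B := P.E \ {g1, g2, g4, c1, c2, c3})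
      (by rw [union_sdiff_of_subset hA]) hl (fun i h1 h2 => (mem_sdiff.1 h2).2 h1)
    have u2 := cnt_cover φ {g1, g2, g4, c1, c2, c3} (P.E \ {g1, g2, g4, c1, c2, c3}) fun i => by
      rw [← mem_union, union_sdiff_of_subset hA]; exact e.mem i
    have u3 := cnt_le_card e.inj {g1, g2, g4, c1, c2, c3}
    have u4 : ({g1, g2, g4, c1, c2, c3} : Finset α).card ≤ 6 := card_le_six
    omega
  obtain ⟨C', φ', e', hC', -⟩ := e.move_con nice_rW hA hl hcnt (x := g1) (by simp) fun h1 =>
    pX.ind.not_sp x1 (S := X \ {g1, g2, g4}) sdiff_subset (by simp) (h1.trans sB)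
  exact pN.1 g1 (e'.hasC hC') x1

theorem ss_all (k : ℕ) : SS α (10 + 2 * k) := by
  induction k with
  | zero => exact ss_ten
  | succ k ih => exact ss_step (k := 10 + 2 * k) (by omega) ih

end RM

end Pool.Agent.Work.MP_6b71e5_co
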