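import Pool.Agent.Work.MP_6b71e5_co.Conn
import Mathlib.Algebra.BigOperators.Group.Finset.Basic
import Mathlib.Algebra.Group.MinimalAxioms

/-! The rank function of the rank four wheel, as an explicit table. -/

namespace Pool.Agent.Work.MP_6b71e5_co

open Finset

/-- natural numbers with bitwise exclusive or as addition -/
def XN : Type := ℕ

instance : DecidableEq XN := inferInstanceAs (DecidableEq ℕ)
instance : Zero XN := ⟨(0 : ℕ)⟩
instance : Add XN := ⟨fun a b : ℕ => a ^^^ b⟩
instance : Neg XN := ⟨fun a => a⟩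

instance : AddCommGroup XN :=
  { AddGroup.ofLeftAxioms (G := XN) (fun a b c : ℕ => Nat.xor_assoc a b c)
      (fun a : ℕ => Nat.zero_xor a) (fun a : ℕ => Nat.xor_self a) with
    add_comm := fun a b : ℕ => Nat.xor_comm a b }

/-- a natural number viewed as a vector -/
def xn (a : ℕ) : XN := a

lemma xn_add (a b : ℕ) : xn a + xn b = xn (a ^^^ b) := rfl
lemma xn_zero : xn 0 = 0 := rfl
lemma XN.add_self (a : XN) : a + a = 0 := Nat.xor_self a

def tbl : ℕ := 47938483596328424196369491076307327148931042519450655048990808666603793966772161601943825751841932387925995346110357921049082907567332559988015216567077352522589080267832706348146491139002599871646251036473691651685450815013894809323185502590935040463907877359854333945327022643161948397711633473592126152976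

def msk (S : Finset (Fin 8)) : ℕ := ∑ i ∈ S, 2 ^ i.val

/-- rank function of the wheel: indices 0 to 3 are the spokes, 4 to 7 the rim edges -/
def rW (S : Finset (Fin 8)) : ℤ := ((tbl >>> (4 * msk S)) % 16 : ℕ)

def wv : Fin 8 → ℕ := ![1, 2, 4, 8, 3, 6, 12, 9]

lemma msk_ins : ∀ S : Finset (Fin 8), msk S < 256 ∧ ∀ e, msk (insert e S) = msk S ||| 2 ^ e.1 := by
  decide +kernel

/-- the table entry at a mask -/
def rN (m : ℕ) : ℕ := Nat.mod (Nat.shiftRight tbl (Nat.mul 4 m)) 16

lemma rW_rN (S : Finset (Fin 8)) : rW S = rN (msk S) := rfl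

lemma rW_ins : ∀ S : Finset (Fin 8), ∀ e,
    rW S ≤ rW (insert e S) ∧ rW (insert e S) ≤ rW S + 1 := by
  have h : ∀ m < 256, ∀ e < 8, rN m ≤ rN (m ||| 2 ^ e) ∧ rN (m ||| 2 ^ e) ≤ rN m + 1 := by
    decide +kernel
  intro S e
  simp only [rW_rN, (msk_ins _).2]
  exact_mod_cast h _ (msk_ins S).1 _ e.2

lemma rW_loc : ∀ S : Finset (Fin 8), ∀ e f,
    rW (insert e (insert f S)) + rW S ≤ rW (insert e S) + rW (insert f S) := by
  have h : ∀ m < 256, ∀ e < 8, ∀ f < 8, Nat.ble (Nat.add (rN (m ||| 2 ^ f ||| 2 ^ e)) (rN m))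
      (Nat.add (rN (m ||| 2 ^ e)) (rN (m ||| 2 ^ f))) = true := by decide +kernel
  intro S e f
  simp only [rW_rN, (msk_ins _).2]
  exact_mod_cast Nat.le_of_ble_eq_true (h _ (msk_ins S).1 _ e.2 _ f.2)

lemma nice_rW : Nice rW where
  four := by decide
  conn := by decide +kernel
  one := by decide +kernel
  two := by decide +kernel
  co := by decide +kernel
  sd := ⟨⟨![4, 5, 6, 7, 1, 2, 3, 0], ![7, 4, 5, 6, 0, 1, 2, 3], by decide, by decide⟩,
    by decide +kernel⟩

def cycL : List (Finset (Fin 8)) :=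
  [{0, 1, 4}, {1, 2, 5}, {0, 2, 4, 5}, {2, 3, 6}, {0, 1, 2, 3, 4, 6}, {1, 3, 5, 6}, {0, 3, 4, 5, 6}, {0, 3, 7},
   {1, 3, 4, 7}, {0, 1, 2, 3, 5, 7}, {2, 3, 4, 5, 7}, {0, 2, 6, 7}, {1, 2, 4, 6, 7}, {0, 1, 5, 6, 7}, {4, 5, 6, 7}]

lemma cyc_mem : ∀ T : Finset (Fin 8), T.Nonempty → ∑ i ∈ T, xn (wv i) = 0 → T ∈ cycL := by
  decide +kernel

lemma cyc_zero : ∀ T ∈ cycL, T.Nonempty ∧ ∑ i ∈ T, xn (wv i) = 0 := by decide +kernel

lemma msk_bit (S : Finset (Fin 8)) (i : Fin 8) : (msk S).testBit i = true ↔ i ∈ S := by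
  induction S using Finset.induction_on with
  | empty => simp [msk]
  | insert e S _ ih =>
    rw [(msk_ins S).2, Nat.testBit_or, Bool.or_eq_true, ih, Nat.testBit_two_pow, decide_eq_true_eq,
      mem_insert, or_comm, Fin.ext_iff, eq_comm]

lemma msk_sub (T S : Finset (Fin 8)) : T ⊆ S ↔ msk T ||| msk S = msk S := by
  refine ⟨fun h => ?_, fun h i hi => ?_⟩
  · induction T using Finset.induction_on with
    | empty => exact Nat.zero_or _
    | insert e T _ ih =>
      rw [(msk_ins T).2, Nat.or_assoc, Nat.or_comm (2 ^ _), ← Nat.or_assoc,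
        ih ((subset_insert _ _).trans h), ← (msk_ins S).2,
        insert_eq_of_mem (h (mem_insert_self _ _))]
  · rw [← msk_bit, ← h, Nat.testBit_or, (msk_bit T i).2 hi, Bool.true_or]

lemma rW_cyc : ∀ S : Finset (Fin 8), rW S = S.card ↔ ∀ T ∈ cycL, ¬ T ⊆ S := by
  have e : cycL.map msk =
      [19, 38, 53, 76, 95, 106, 121, 137, 154, 175, 188, 197, 214, 227, 240] := by decide +kernel
  have h : ∀ S : Finset (Fin 8), rW S = S.card ↔
      (List.all [19, 38, 53, 76, 95, 106, 121, 137, 154, 175, 188, 197, 214, 227, 240]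
        fun t => !Nat.beq (t ||| msk S) (msk S)) = true := by decide +kernel
  intro S
  rw [h, ← e]
  simp only [msk_sub, List.all_map, List.all_eq_true, Function.comp, Bool.not_eq_true',
    ← Bool.not_eq_true, Nat.beq_eq]

section Local

variable {β : Type*} [DecidableEq β] {f : Finset β → ℤ}

lemma mono_of_local (h1 : ∀ S e, f S ≤ f (insert e S)) (S T : Finset β) : f S ≤ f (S ∪ T) := by
  induction T using Finset.induction_on with
  | empty => simp
  | insert a t _ ih => rw [union_insert]; exact ih.trans (h1 _ _)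

lemma dim_of_local (h2 : ∀ S e g, f (insert e (insert g S)) + f S ≤ f (insert e S) + f (insert g S))
    (S T : Finset β) (e : β) : f (insert e (S ∪ T)) + f S ≤ f (insert e S) + f (S ∪ T) := by
  induction T using Finset.induction_on with
  | empty => simp
  | insert a t _ ih =>
    have := h2 (S ∪ t) e a
    rw [union_insert]
    omega

lemma sub_of_local (h2 : ∀ S e g, f (insert e (insert g S)) + f S ≤ f (insert e S) + f (insert g S))
    (S T U : Finset β) : f (S ∪ T ∪ U) + f S ≤ f (S ∪ T) + f (S ∪ U) := by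
  induction U using Finset.induction_on with
  | empty => simp
  | insert a t _ ih =>
    have e1 := dim_of_local h2 (S ∪ t) T a
    have e2 : S ∪ t ∪ T = S ∪ T ∪ t := by grind
    rw [e2] at e1
    rw [union_insert, union_insert]
    omega

end Local

/-- the wheel as a matroid on eight indices -/
def wheel : RM (Fin 8) where
  E := univ
  r := rW
  r_empty := by decide +kernel
  r_mono S T h := by
    have := mono_of_local (fun S e => (rW_ins S e).1) S T
    rwa [union_eq_right.2 h] at this
  r_ins S e := (rW_ins S e).2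
  r_sub S T := by
    have := sub_of_local rW_loc (S ∩ T) S T
    rwa [union_eq_right.2 inter_subset_left, union_eq_right.2 inter_subset_right] at this

lemma wheel_ind (S : Finset (Fin 8)) :
    wheel.Ind S ↔ ∀ T ⊆ S, T.Nonempty → ∑ i ∈ T, xn (wv i) ≠ 0 := by
  refine (rW_cyc S).trans ⟨fun h T hT h1 h2 => h T (cyc_mem T h1 h2) hT, fun h T hT h1 => ?_⟩
  exact h T h1 (cyc_zero T hT).1 (cyc_zero T hT).2

end Pool.Agent.Work.MP_6b71e5_co
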