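import Pool.Agent.Work.MP_6b71e5_co.Defs
import Pool.Agent.Work.MP_6b71e5_co.Wheel

/-! Acyclic edge sets of the wheel are the independent sets of the rank table. -/

namespace Pool.Agent.Work.MP_6b71e5_co

open Finset SimpleGraph

def eu : Fin 8 → Fin 5 := ![0, 1, 2, 3, 0, 1, 2, 3]
def ev : Fin 8 → Fin 5 := ![4, 4, 4, 4, 1, 2, 3, 0]

instance : DecidableRel W4.Adj := fun a b =>
  decidable_of_iff (a ≠ b ∧ ((b = 4 ∨ (a ≠ 4 ∧ b.val = (a.val + 1) % 4)) ∨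
    (a = 4 ∨ (b ≠ 4 ∧ a.val = (b.val + 1) % 4)))) (by simp [W4, fromRel_adj])

lemma edge_adj : ∀ i, W4.Adj (eu i) (ev i) := by decide

lemma edge_surj : ∀ a b, W4.Adj a b → ∃ i, (eu i = a ∧ ev i = b) ∨ (eu i = b ∧ ev i = a) := by
  decide

lemma edge_inj : ∀ i j, (eu i = eu j ∧ ev i = ev j) ∨ (eu i = ev j ∧ ev i = eu j) → i = j := by
  decide

def edge (i : Fin 8) : W4.edgeSet := ⟨s(eu i, ev i), edge_adj i⟩

lemma edge_bij : Function.Bijective edge := by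
  constructor
  · intro i j h
    exact edge_inj i j (Sym2.eq_iff.1 (congrArg Subtype.val h))
  · rintro ⟨e, he⟩
    induction e using Sym2.ind with
    | _ a b =>
      obtain ⟨i, hi⟩ := edge_surj a b he
      exact ⟨i, Subtype.ext (Sym2.eq_iff.2 hi)⟩

def gr (S : Finset (Fin 8)) : SimpleGraph (Fin 5) := fromEdgeSet (Subtype.val '' (edge '' S))

lemma gr_adj {S : Finset (Fin 8)} {a b : Fin 5} :
    (gr S).Adj a b ↔ ∃ j ∈ S, (eu j = a ∧ ev j = b) ∨ (eu j = b ∧ ev j = a) := by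
  rw [gr, fromEdgeSet_adj]
  constructor
  · rintro ⟨⟨_, ⟨j, hj, rfl⟩, h⟩, -⟩
    exact ⟨j, hj, Sym2.eq_iff.1 h⟩
  · rintro ⟨j, hj, h⟩
    refine ⟨⟨_, ⟨j, hj, rfl⟩, Sym2.eq_iff.2 h⟩, ?_⟩
    have := (edge_adj j).ne
    rcases h with ⟨rfl, rfl⟩ | ⟨rfl, rfl⟩
    · exact this
    · exact this.symm

lemma gr_del {S : Finset (Fin 8)} {i : Fin 8} {a b : Fin 5} :
    ((gr S).deleteEdges {s(eu i, ev i)}).Adj a b ↔
      ∃ j ∈ S, j ≠ i ∧ ((eu j = a ∧ ev j = b) ∨ (eu j = b ∧ ev j = a)) := by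
  rw [deleteEdges_adj, gr_adj, Set.mem_singleton_iff]
  constructor
  · rintro ⟨⟨j, hj, h⟩, h1⟩
    exact ⟨j, hj, fun h2 => h1 (h2 ▸ (Sym2.eq_iff.2 h).symm), h⟩
  · rintro ⟨j, hj, h1, h⟩
    exact ⟨⟨j, hj, h⟩, fun h2 => h1 (edge_inj j i (Sym2.eq_iff.1 ((Sym2.eq_iff.2 h).trans h2)))⟩

lemma exists_cut : ∀ S : Finset (Fin 8), rW S = S.card → ∀ i ∈ S, ∃ m < 16,
    Nat.testBit m (eu i) ≠ Nat.testBit m (ev i) ∧
      ∀ j ∈ S, j ≠ i → Nat.testBit m (eu j) = Nat.testBit m (ev j) := by decide +kernel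

def Lnk (T : Finset (Fin 8)) (i : Fin 8) (a b : Fin 5) : Prop :=
  a = b ∨ ∃ j ∈ T, j ≠ i ∧ ((eu j = a ∧ ev j = b) ∨ (eu j = b ∧ ev j = a))

instance (T : Finset (Fin 8)) (i : Fin 8) (a b : Fin 5) : Decidable (Lnk T i a b) := by
  unfold Lnk; infer_instance

lemma exists_path : ∀ T ∈ cycL, ∃ i ∈ T, ∃ a, Lnk T i (eu i) a ∧ ∃ b, Lnk T i a b ∧
    ∃ c, Lnk T i b c ∧ Lnk T i c (ev i) := by decide +kernel

lemma acyclic_iff (S : Finset (Fin 8)) : (gr S).IsAcyclic ↔ wheel.Ind S := by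
  constructor
  · intro h
    refine (rW_cyc S).2 fun T hT hTS => ?_
    obtain ⟨i, hi, a, h1, b, h2, c, h3, h4⟩ := exists_path T hT
    have key : ∀ x y, Lnk T i x y → ((gr S).deleteEdges {s(eu i, ev i)}).Reachable x y := by
      rintro x y (rfl | ⟨j, hj, h5⟩)
      · rfl
      · exact (gr_del.2 ⟨j, hTS hj, h5⟩).reachable
    exact isBridge_iff.1 (isAcyclic_iff_forall_adj_isBridge.1 h
      (gr_adj.2 ⟨i, hTS hi, Or.inl ⟨rfl, rfl⟩⟩))
      ((((key _ _ h1).trans (key _ _ h2)).trans (key _ _ h3)).trans (key _ _ h4))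
  · intro h
    refine isAcyclic_iff_forall_adj_isBridge.2 fun v w hvw => ?_
    obtain ⟨i, hi, h1⟩ := gr_adj.1 hvw
    rw [← Sym2.eq_iff.2 h1, isBridge_iff]
    obtain ⟨m, -, h2, h3⟩ := exists_cut S h i hi
    have key : ∀ a b, ((gr S).deleteEdges {s(eu i, ev i)}).Walk a b →
        Nat.testBit m a = Nat.testBit m b := by
      intro a b p
      induction p with
      | nil => rfl
      | cons h4 _ ih =>
        obtain ⟨j, hj, h5, h6⟩ := gr_del.1 h4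
        have h7 := h3 j hj h5
        rcases h6 with ⟨rfl, rfl⟩ | ⟨rfl, rfl⟩
        · exact h7.trans ih
        · exact h7.symm.trans ih
    rintro ⟨p⟩
    exact h2 (key _ _ p)

end Pool.Agent.Work.MP_6b71e5_co
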